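import Pool.Agent.H923_Thick.Defs

/-!
# Dirichlet kernel on a symmetric box

Elementary bounds for the normalised Dirichlet kernel.
-/

open Finset

namespace Pool.Agent.H923_Thick

theorem card_Bx (Q : ℕ) : (Bx Q).card = 2 * Q + 1 := by
  simp only [Bx, Int.card_Icc]; omega

theorem mem_Bx {Q : ℕ} {y : ℤ} : y ∈ Bx Q ↔ |y| ≤ Q := by
  simp only [Bx, Finset.mem_Icc, abs_le]

theorem Bx_succ (Q : ℕ) : Bx (Q + 1) = insert ((Q : ℤ) + 1) (insert (-((Q : ℤ) + 1)) (Bx Q)) := by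
  ext y
  simp only [Bx, Finset.mem_Icc, Finset.mem_insert]
  push_cast
  omega

theorem sum_Bx_succ {M : Type*} [AddCommMonoid M] (Q : ℕ) (f : ℤ → M) :
    ∑ y ∈ Bx (Q + 1), f y = f (Q + 1) + (f (-(Q + 1)) + ∑ y ∈ Bx Q, f y) := by
  rw [Bx_succ, Finset.sum_insert, Finset.sum_insert]
  · simp only [Bx, Finset.mem_Icc]; omega
  · simp only [Bx, Finset.mem_Icc, Finset.mem_insert]; omega

theorem sum_sq_Bx (Q : ℕ) : ∑ y ∈ Bx Q, (y : ℝ) ^ 2 = Q * (Q + 1) * (2 * Q + 1) / 3 := by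
  induction Q with
  | zero => simp [Bx]
  | succ Q ih => rw [sum_Bx_succ, ih]; push_cast; ring

theorem npos (Q : ℕ) : (0 : ℝ) < 2 * Q + 1 := by positivity

theorem abs_D_le (Q : ℕ) (t : ℝ) : |D Q t| ≤ 1 := by
  have hn := npos Q
  unfold D
  rw [abs_div, abs_of_pos hn, div_le_one hn]
  refine (Finset.abs_sum_le_sum_abs _ _).trans ?_
  refine (Finset.sum_le_card_nsmul _ _ 1 fun y _ => Real.abs_cos_le_one _).trans ?_
  rw [card_Bx]; simp

theorem one_sub_D_eq (Q : ℕ) (t : ℝ) :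
    1 - D Q t = (∑ y ∈ Bx Q, (1 - Real.cos (2 * Real.pi * t * y))) / (2 * Q + 1) := by
  have hn := npos Q
  unfold D
  rw [Finset.sum_sub_distrib, Finset.sum_const, card_Bx, nsmul_eq_mul, sub_div]
  congr 1
  push_cast
  field_simp

theorem one_sub_D_le (Q : ℕ) (t : ℝ) : 1 - D Q t ≤ Real.pi ^ 2 / 6 * (2 * Q + 1) ^ 2 * t ^ 2 := by
  have hn := npos Q
  rw [one_sub_D_eq, div_le_iff₀ hn]
  calc ∑ y ∈ Bx Q, (1 - Real.cos (2 * Real.pi * t * y))
      ≤ ∑ y ∈ Bx Q, (2 * Real.pi ^ 2 * t ^ 2) * (y : ℝ) ^ 2 := by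
        refine Finset.sum_le_sum fun y _ => ?_
        have := Real.one_sub_sq_div_two_le_cos (x := 2 * Real.pi * t * y)
        nlinarith
    _ = (2 * Real.pi ^ 2 * t ^ 2) * (Q * (Q + 1) * (2 * Q + 1) / 3) := by
        rw [← Finset.mul_sum, sum_sq_Bx]
    _ ≤ Real.pi ^ 2 / 6 * (2 * Q + 1) ^ 2 * t ^ 2 * (2 * Q + 1) := by
        have : 0 ≤ Real.pi ^ 2 * t ^ 2 * (2 * Q + 1) := by positivity
        nlinarith

theorem sin_mul_D (Q : ℕ) (t : ℝ) :
    Real.sin (Real.pi * t) * ((2 * Q + 1) * D Q t) = Real.sin (Real.pi * (2 * Q + 1) * t) := by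
  have hn := npos Q
  have key : ∀ Q : ℕ, Real.sin (Real.pi * t) * ∑ y ∈ Bx Q, Real.cos (2 * Real.pi * t * y) =
      Real.sin (Real.pi * (2 * Q + 1) * t) := by
    intro Q
    induction Q with
    | zero => simp [Bx]
    | succ Q ih =>
      rw [sum_Bx_succ, mul_add, mul_add, ih]
      have h1 : Real.cos (2 * Real.pi * t * ((-((Q : ℤ) + 1) : ℤ) : ℝ)) =
          Real.cos (2 * Real.pi * t * (Q + 1)) := by
        rw [← Real.cos_neg]; push_cast; ring_nf
      have h2 : Real.cos (2 * Real.pi * t * (((Q : ℤ) + 1 : ℤ) : ℝ)) =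
          Real.cos (2 * Real.pi * t * (Q + 1)) := by push_cast; ring_nf
      rw [h1, h2]
      have e1 : Real.pi * (2 * ((Q + 1 : ℕ) : ℝ) + 1) * t = 2 * Real.pi * t * (Q + 1) + Real.pi * t := by
        push_cast; ring
      have e2 : Real.pi * (2 * (Q : ℝ) + 1) * t = 2 * Real.pi * t * (Q + 1) - Real.pi * t := by ring
      rw [e1, e2, Real.sin_add, Real.sin_sub]
      ring
  rw [← key Q]
  unfold D
  field_simp

theorem D_periodic (Q : ℕ) (t : ℝ) (z : ℤ) : D Q (t + z) = D Q t := by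
  unfold D
  congr 1
  refine Finset.sum_congr rfl fun y _ => ?_
  have : 2 * Real.pi * (t + z) * y = 2 * Real.pi * t * y + ((z * y : ℤ) : ℝ) * (2 * Real.pi) := by
    push_cast; ring
  rw [this, Real.cos_add_int_mul_two_pi]

theorem D_neg (Q : ℕ) (t : ℝ) : D Q (-t) = D Q t := by
  unfold D
  congr 1
  refine Finset.sum_congr rfl fun y _ => ?_
  rw [← Real.cos_neg]; ring_nf

theorem D_abs (Q : ℕ) (t : ℝ) : D Q |t| = D Q t := by
  rcases abs_choice t with h | h <;> rw [h]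
  exact D_neg Q t

theorem D_sub_round (Q : ℕ) (t : ℝ) : D Q (t - round t) = D Q t := by
  have := D_periodic Q t (-round t)
  rw [← this]; push_cast; ring_nf

theorem continuous_D (Q : ℕ) : Continuous (D Q) := by
  unfold D
  fun_prop

theorem sin_ge {x : ℝ} (h0 : 0 ≤ x) (h1 : x ≤ 1 / 2) : 2 * x ≤ Real.sin (Real.pi * x) := by
  have h := Real.mul_le_sin (x := Real.pi * x) (by positivity) (by nlinarith [Real.pi_pos])
  have hpi := Real.pi_pos
  have : 2 / Real.pi * (Real.pi * x) = 2 * x := by field_simp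
  linarith

theorem D_mul_le (Q : ℕ) (t : ℝ) : 2 * (2 * Q + 1) * |t - round t| * |D Q t| ≤ 1 := by
  have hn := npos Q
  set x := |t - round t| with hx
  have hx0 : 0 ≤ x := abs_nonneg _
  have hx1 : x ≤ 1 / 2 := abs_sub_round t
  have hD : D Q x = D Q t := by rw [hx, D_abs, D_sub_round]
  have hs := sin_ge hx0 hx1
  have h1 := sin_mul_D Q x
  rw [hD] at h1
  have h2 : |Real.sin (Real.pi * x) * ((2 * Q + 1) * D Q t)| ≤ 1 := by
    rw [h1]; exact Real.abs_sin_le_one _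
  rw [abs_mul, abs_mul, abs_of_pos hn, abs_of_nonneg (by linarith : 0 ≤ Real.sin (Real.pi * x))] at h2
  have h3 : 0 ≤ (2 * Q + 1) * |D Q t| := by positivity
  nlinarith

theorem D_nonneg_of (Q : ℕ) (t : ℝ) (h : (2 * Q + 1) * |t - round t| ≤ 1) : 0 ≤ D Q t := by
  have hn := npos Q
  set x := |t - round t| with hx
  have hx0 : 0 ≤ x := abs_nonneg _
  have hx1 : x ≤ 1 / 2 := abs_sub_round t
  have hD : D Q x = D Q t := by rw [hx, D_abs, D_sub_round]
  rcases hx0.eq_or_lt with h0 | h0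
  · rw [← hD, ← h0]
    unfold D
    simp only [mul_zero, zero_mul, Real.cos_zero, Finset.sum_const, nsmul_eq_mul]
    positivity
  · have hs := sin_ge hx0 hx1
    have h1 := sin_mul_D Q x
    rw [hD] at h1
    have h2 : 0 ≤ Real.sin (Real.pi * (2 * Q + 1) * x) := by
      apply Real.sin_nonneg_of_nonneg_of_le_pi
      · positivity
      · nlinarith [Real.pi_pos]
    have h4 : 0 < Real.sin (Real.pi * x) := by linarith
    rw [← h1] at h2
    have h5 := nonneg_of_mul_nonneg_right h2 h4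
    exact nonneg_of_mul_nonneg_right h5 hn

theorem exists_c2 : ∃ c > (0 : ℝ), ∀ Q : ℕ, 1 ≤ Q → ∀ t : ℝ,
    D Q t ^ 2 ≤ 1 - c * min 1 ((2 * Q + 1) ^ 2 * (t - round t) ^ 2) := by
  refine ⟨1 / 2, by norm_num, fun Q hQ t => ?_⟩
  have hn := npos Q
  have hQ' : (1 : ℝ) ≤ Q := by exact_mod_cast hQ
  set x := |t - round t| with hx
  have hx0 : 0 ≤ x := abs_nonneg _
  have hx1 : x ≤ 1 / 2 := abs_sub_round t
  have hD : D Q x = D Q t := by rw [hx, D_abs, D_sub_round]
  have hsq : (t - round t) ^ 2 = x ^ 2 := by rw [hx, sq_abs]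
  rw [hsq]
  rcases le_or_gt ((2 * (Q : ℝ) + 1) * x) 1 with h | h
  · have h0 := D_nonneg_of Q t h
    have h1 := (abs_le.mp (abs_D_le Q t)).2
    have hmin : min 1 ((2 * (Q : ℝ) + 1) ^ 2 * x ^ 2) ≤ (2 * (Q : ℝ) + 1) ^ 2 * x ^ 2 := min_le_right _ _
    have key : 1 / 2 * ((2 * (Q : ℝ) + 1) ^ 2 * x ^ 2) ≤ 1 - D Q t := by
      rw [← hD, one_sub_D_eq, le_div_iff₀ hn]
      calc 1 / 2 * ((2 * (Q : ℝ) + 1) ^ 2 * x ^ 2) * (2 * Q + 1)
          ≤ 8 * x ^ 2 * (Q * (Q + 1) * (2 * Q + 1) / 3) := by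
            have e : 0 ≤ x ^ 2 * (2 * Q + 1) := by positivity
            have e2 : 1 / 2 * (2 * (Q : ℝ) + 1) ^ 2 ≤ 8 * (Q * (Q + 1) / 3) := by nlinarith
            nlinarith
        _ = ∑ y ∈ Bx Q, (8 * x ^ 2) * (y : ℝ) ^ 2 := by rw [← Finset.mul_sum, sum_sq_Bx]
        _ ≤ ∑ y ∈ Bx Q, (1 - Real.cos (2 * Real.pi * x * y)) := by
            refine Finset.sum_le_sum fun y hy => ?_
            have hy' : |(y : ℝ)| ≤ Q := by
              have := mem_Bx.mp hy
              exact_mod_cast this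
            have hc := Real.cos_le_one_sub_mul_cos_sq (x := 2 * Real.pi * x * y) (by
              rw [abs_mul, abs_mul, abs_mul, abs_of_pos Real.pi_pos, abs_of_nonneg hx0, abs_two]
              have : 2 * x * |(y : ℝ)| ≤ 1 := by nlinarith
              nlinarith [Real.pi_pos])
            have e : 2 / Real.pi ^ 2 * (2 * Real.pi * x * y) ^ 2 = 8 * x ^ 2 * (y : ℝ) ^ 2 := by
              have := Real.pi_pos.ne'
              field_simp
              ring
            linarith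
    nlinarith
  · have h1 := D_mul_le Q t
    rw [← hx] at h1
    have h2 : |D Q t| ≤ 1 / 2 := by
      have := abs_nonneg (D Q t)
      nlinarith
    have h3 : D Q t ^ 2 ≤ 1 / 4 := by
      rw [← sq_abs]; nlinarith [abs_nonneg (D Q t)]
    have hmin : min 1 ((2 * (Q : ℝ) + 1) ^ 2 * x ^ 2) ≤ 1 := min_le_left _ _
    linarith

/-- `D` as a complex exponential sum -/
theorem sum_e1 (Q : ℕ) (t : ℝ) : ∑ y ∈ Bx Q, e1 (t * y) = ((2 * Q + 1) * D Q t : ℝ) := by
  have hn := npos Q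
  have h1 : ((2 * Q + 1) * D Q t : ℝ) = ∑ y ∈ Bx Q, Real.cos (2 * Real.pi * t * y) := by
    unfold D; field_simp
  rw [h1]
  have h2 : ∀ y : ℤ, e1 (t * y) = Real.cos (2 * Real.pi * t * y) + Real.sin (2 * Real.pi * t * y) * Complex.I := by
    intro y
    unfold e1
    rw [Complex.exp_mul_I]
    push_cast
    ring_nf
  simp only [h2, Finset.sum_add_distrib]
  have h3 : ∑ y ∈ Bx Q, (Real.sin (2 * Real.pi * t * y) : ℂ) * Complex.I = 0 := by
    have : ∀ Q : ℕ, ∑ y ∈ Bx Q, (Real.sin (2 * Real.pi * t * y) : ℂ) * Complex.I = 0 := by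
      intro Q
      induction Q with
      | zero => simp [Bx]
      | succ Q ih =>
        rw [sum_Bx_succ, ih]
        have : Real.sin (2 * Real.pi * t * ((-((Q : ℤ) + 1) : ℤ) : ℝ)) =
          - Real.sin (2 * Real.pi * t * (((Q : ℤ) + 1 : ℤ) : ℝ)) := by
          rw [← Real.sin_neg]; push_cast; ring_nf
        rw [this]; push_cast; ring
    exact this Q
  rw [h3, add_zero]
  push_cast
  rfl

end Pool.Agent.H923_Thick
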