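import Pool.Agent.H923_Thick.A1

/-!
# Decay of the second moment of the Dirichlet kernel near and away from the origin
-/

open Finset

namespace Pool.Agent.H923_Thick

theorem sum_id_Bx (Q : ℕ) : ∑ y ∈ Bx Q, (y : ℝ) = 0 := by
  induction Q with
  | zero => simp [Bx]
  | succ Q ih => rw [sum_Bx_succ, ih]; push_cast; ring

theorem sum_diff_sq (Q : ℕ) : ∑ x ∈ Bx Q, ∑ x' ∈ Bx Q, ((x : ℝ) - x') ^ 2 =
    2 / 3 * (2 * Q + 1) ^ 2 * (Q * (Q + 1)) := by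
  have h : ∀ x ∈ Bx Q, ∑ x' ∈ Bx Q, ((x : ℝ) - x') ^ 2 =
      (2 * Q + 1) * (x : ℝ) ^ 2 + Q * (Q + 1) * (2 * Q + 1) / 3 := by
    intro x _
    have : ∀ x' : ℤ, ((x : ℝ) - x') ^ 2 = (x : ℝ) ^ 2 - 2 * x * x' + (x' : ℝ) ^ 2 := by intro x'; ring
    simp only [this, Finset.sum_add_distrib, Finset.sum_sub_distrib, ← Finset.mul_sum, sum_id_Bx, sum_sq_Bx,
      Finset.sum_const, card_Bx, nsmul_eq_mul]
    push_cast
    ring
  rw [Finset.sum_congr rfl h, Finset.sum_add_distrib, ← Finset.mul_sum, sum_sq_Bx, Finset.sum_const, card_Bx,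
    nsmul_eq_mul]
  push_cast
  ring

theorem dist_int_ge {θ : ℝ} (h : |θ| ≤ 1 / 2) (z : ℤ) : |θ| ≤ |θ - z| := by
  rcases eq_or_ne z 0 with rfl | hz
  · simp
  · have h1 : (1 : ℝ) ≤ |(z : ℝ)| := by
      have := Int.one_le_abs hz
      exact_mod_cast this
    have h2 : |(z : ℝ)| ≤ |θ - z| + |θ| := by
      have := abs_sub_abs_le_abs_sub (z : ℝ) θ
      rw [abs_sub_comm] at this
      linarith
    linarith

theorem sum_min_small (Q : ℕ) (hQ : 1 ≤ Q) (θ : ℝ) (hθ : (2 * Q + 1) * |θ| ≤ 1 / 2) :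
    1 / 48 * (2 * (Q : ℝ) + 1) ^ 2 * min 1 (θ ^ 2 * (2 * Q + 1) ^ 4) ≤
      ∑ x ∈ Bx Q, ∑ x' ∈ Bx Q, min 1 ((2 * (Q : ℝ) + 1) ^ 2 *
        (θ * ((x : ℝ) - x') - round (θ * ((x : ℝ) - x'))) ^ 2) := by
  have hn := npos Q
  have hQ' : (1 : ℝ) ≤ Q := by exact_mod_cast hQ
  set μ := min 1 (θ ^ 2 * (2 * (Q : ℝ) + 1) ^ 4) with hμ
  have hμ0 : 0 ≤ μ := le_min zero_le_one (by positivity)
  have hμ1 : μ ≤ 1 := min_le_left _ _
  have hμ2 : μ ≤ θ ^ 2 * (2 * (Q : ℝ) + 1) ^ 4 := min_le_right _ _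
  calc 1 / 48 * (2 * (Q : ℝ) + 1) ^ 2 * μ
      ≤ μ / (2 * Q + 1) ^ 2 * (2 / 3 * (2 * Q + 1) ^ 2 * (Q * (Q + 1))) := by
        have e : μ / (2 * (Q : ℝ) + 1) ^ 2 * (2 / 3 * (2 * Q + 1) ^ 2 * (Q * (Q + 1))) =
          μ * (2 / 3 * (Q * (Q + 1))) := by field_simp
        rw [e]
        have : 1 / 48 * (2 * (Q : ℝ) + 1) ^ 2 ≤ 2 / 3 * (Q * (Q + 1)) := by nlinarith
        nlinarith
    _ = ∑ x ∈ Bx Q, ∑ x' ∈ Bx Q, μ / (2 * Q + 1) ^ 2 * ((x : ℝ) - x') ^ 2 := by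
        rw [← sum_diff_sq, Finset.mul_sum]
        refine Finset.sum_congr rfl fun x _ => ?_
        rw [Finset.mul_sum]
    _ ≤ _ := by
        refine Finset.sum_le_sum fun x hx => Finset.sum_le_sum fun x' hx' => ?_
        have hX : |(x : ℝ) - x'| ≤ 2 * Q := by
          have h1 : |(x : ℝ)| ≤ Q := by exact_mod_cast mem_Bx.mp hx
          have h2 : |(x' : ℝ)| ≤ Q := by exact_mod_cast mem_Bx.mp hx'
          have := abs_sub (x : ℝ) x'
          linarith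
        set X := (x : ℝ) - x' with hXd
        have hr : round (θ * X) = 0 := by
          rw [round_eq_zero_iff]
          have h3 : |θ * X| < 1 / 2 := by
            rw [abs_mul]
            rcases (abs_nonneg θ).eq_or_lt with h0 | h0
            · rw [← h0]; norm_num
            · have : |θ| * |X| ≤ |θ| * (2 * Q) := by gcongr
              nlinarith
          rw [abs_lt] at h3
          constructor <;> linarith
        rw [hr, Int.cast_zero, sub_zero]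
        have hX2 : X ^ 2 ≤ (2 * (Q : ℝ) + 1) ^ 2 := by
          rw [← sq_abs X]
          have := abs_nonneg X
          nlinarith
        refine le_min ?_ ?_
        · rw [div_mul_eq_mul_div, div_le_one (by positivity)]
          nlinarith [sq_nonneg X]
        · rw [div_mul_eq_mul_div, div_le_iff₀ (by positivity)]
          calc μ * X ^ 2 ≤ (θ ^ 2 * (2 * (Q : ℝ) + 1) ^ 4) * X ^ 2 := by gcongr
            _ = (2 * (Q : ℝ) + 1) ^ 2 * (θ * X) ^ 2 * (2 * Q + 1) ^ 2 := by ring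

theorem sum_min_large (Q : ℕ) (hQ : 1 ≤ Q) (θ : ℝ) (hθ : 1 / 2 < (2 * Q + 1) * |θ|) (hθ' : |θ| ≤ 1 / 2) :
    1 / 48 * (2 * (Q : ℝ) + 1) ^ 2 ≤
      ∑ x' ∈ Bx Q, ∑ x ∈ Bx Q, min 1 ((2 * (Q : ℝ) + 1) ^ 2 *
        (θ * ((x : ℝ) - x') - round (θ * ((x : ℝ) - x'))) ^ 2) := by
  have hn := npos Q
  have hQ' : (1 : ℝ) ≤ Q := by exact_mod_cast hQ
  have key : ∀ x' ∈ Bx Q, 1 / 48 * (2 * (Q : ℝ) + 1) ≤ ∑ x ∈ Bx Q, min 1 ((2 * (Q : ℝ) + 1) ^ 2 *
        (θ * ((x : ℝ) - x') - round (θ * ((x : ℝ) - x'))) ^ 2) := by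
    intro x' _
    set g : ℤ → ℝ := fun x => min 1 ((2 * (Q : ℝ) + 1) ^ 2 *
        (θ * ((x : ℝ) - x') - round (θ * ((x : ℝ) - x'))) ^ 2) with hg
    have g0 : ∀ x, 0 ≤ g x := fun x => le_min zero_le_one (by positivity)
    have hpair : ∀ x : ℤ, 1 / 16 ≤ g x + g (x + 1) := by
      intro x
      set a := θ * ((x : ℝ) - x') - round (θ * ((x : ℝ) - x')) with ha
      set b := θ * (((x + 1 : ℤ) : ℝ) - x') - round (θ * (((x + 1 : ℤ) : ℝ) - x')) with hb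
      have hab : b - a = θ - ((round (θ * (((x + 1 : ℤ) : ℝ) - x')) - round (θ * ((x : ℝ) - x')) : ℤ) : ℝ) := by
        rw [ha, hb]; push_cast; ring
      have h1 : |θ| ≤ |b - a| := by rw [hab]; exact dist_int_ge hθ' _
      have h2 : |b - a| ≤ |b| + |a| := abs_sub b a
      have h3 : 1 / 4 ≤ (2 * (Q : ℝ) + 1) * |a| ∨ 1 / 4 ≤ (2 * (Q : ℝ) + 1) * |b| := by
        by_contra hcon
        push Not at hcon
        nlinarith [hcon.1, hcon.2]
      rcases h3 with h3 | h3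
      · have : 1 / 16 ≤ g x := by
          refine le_min (by norm_num) ?_
          rw [← ha, ← sq_abs a]
          nlinarith [abs_nonneg a]
        linarith [g0 (x + 1)]
      · have : 1 / 16 ≤ g (x + 1) := by
          refine le_min (by norm_num) ?_
          rw [← hb, ← sq_abs b]
          nlinarith [abs_nonneg b]
        linarith [g0 x]
    have hs1 : ∑ x ∈ Finset.Ico (-(Q : ℤ)) Q, g x ≤ ∑ x ∈ Bx Q, g x := by
      refine Finset.sum_le_sum_of_subset_of_nonneg ?_ fun x _ _ => g0 x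
      intro x hx
      simp only [Finset.mem_Ico] at hx
      simp only [Bx, Finset.mem_Icc]; omega
    have hs2 : ∑ x ∈ Finset.Ico (-(Q : ℤ)) Q, g (x + 1) ≤ ∑ x ∈ Bx Q, g x := by
      rw [← Finset.sum_image (s := Finset.Ico (-(Q : ℤ)) Q) (g := fun x => x + 1) (f := g)
        (fun x _ y _ h => by simpa using h)]
      refine Finset.sum_le_sum_of_subset_of_nonneg ?_ fun x _ _ => g0 x
      intro x hx
      simp only [Finset.mem_image, Finset.mem_Ico] at hx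
      obtain ⟨y, hy, rfl⟩ := hx
      simp only [Bx, Finset.mem_Icc]; omega
    have hs3 : (2 * (Q : ℝ)) * (1 / 16) ≤ ∑ x ∈ Finset.Ico (-(Q : ℤ)) Q, (g x + g (x + 1)) := by
      calc (2 * (Q : ℝ)) * (1 / 16) = ∑ x ∈ Finset.Ico (-(Q : ℤ)) Q, (1 / 16 : ℝ) := by
            rw [Finset.sum_const, Int.card_Ico, nsmul_eq_mul]
            congr 1
            have : ((Q : ℤ) - -(Q : ℤ)).toNat = 2 * Q := by omega
            rw [this]; push_cast; ring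
        _ ≤ _ := Finset.sum_le_sum fun x _ => hpair x
    rw [Finset.sum_add_distrib] at hs3
    nlinarith
  calc 1 / 48 * (2 * (Q : ℝ) + 1) ^ 2 = ∑ x' ∈ Bx Q, 1 / 48 * (2 * (Q : ℝ) + 1) := by
        rw [Finset.sum_const, card_Bx, nsmul_eq_mul]; push_cast; ring
    _ ≤ _ := Finset.sum_le_sum key

theorem exists_c : ∃ c : ℝ, 0 < c ∧ c < 1 ∧ ∀ Q : ℕ, 1 ≤ Q → ∀ θ : ℝ, |θ| ≤ 1 / 2 →
    R Q θ ≤ 1 - c * min 1 (θ ^ 2 * (2 * Q + 1) ^ 4) := by
  obtain ⟨c2, hc2, hD⟩ := exists_c2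
  refine ⟨min (c2 / 48) (1 / 2), lt_min (by positivity) (by norm_num),
    lt_of_le_of_lt (min_le_right _ _) (by norm_num), fun Q hQ θ hθ => ?_⟩
  have hn := npos Q
  have hμ0 : 0 ≤ min 1 (θ ^ 2 * (2 * (Q : ℝ) + 1) ^ 4) := le_min zero_le_one (by positivity)
  have hS : 1 / 48 * (2 * (Q : ℝ) + 1) ^ 2 * min 1 (θ ^ 2 * (2 * Q + 1) ^ 4) ≤
      ∑ x ∈ Bx Q, ∑ x' ∈ Bx Q, min 1 ((2 * (Q : ℝ) + 1) ^ 2 *
        (θ * ((x : ℝ) - x') - round (θ * ((x : ℝ) - x'))) ^ 2) := by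
    rcases le_or_gt ((2 * (Q : ℝ) + 1) * |θ|) (1 / 2) with h | h
    · exact sum_min_small Q hQ θ h
    · have h1 := sum_min_large Q hQ θ h hθ
      rw [Finset.sum_comm] at h1
      refine le_trans ?_ h1
      have : min 1 (θ ^ 2 * (2 * (Q : ℝ) + 1) ^ 4) ≤ 1 := min_le_left _ _
      have h2 : 0 ≤ 1 / 48 * (2 * (Q : ℝ) + 1) ^ 2 := by positivity
      nlinarith
  have hR : R Q θ ≤ 1 - c2 * (∑ x ∈ Bx Q, ∑ x' ∈ Bx Q, min 1 ((2 * (Q : ℝ) + 1) ^ 2 *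
        (θ * ((x : ℝ) - x') - round (θ * ((x : ℝ) - x'))) ^ 2)) / (2 * Q + 1) ^ 2 := by
    unfold R
    rw [div_le_iff₀ (by positivity), sub_mul, div_mul_cancel₀ _ (by positivity), one_mul]
    calc ∑ x ∈ Bx Q, ∑ x' ∈ Bx Q, D Q (θ * ((x : ℝ) - x')) ^ 2
        ≤ ∑ x ∈ Bx Q, ∑ x' ∈ Bx Q, (1 - c2 * min 1 ((2 * (Q : ℝ) + 1) ^ 2 *
        (θ * ((x : ℝ) - x') - round (θ * ((x : ℝ) - x'))) ^ 2)) :=
          Finset.sum_le_sum fun x _ => Finset.sum_le_sum fun x' _ => hD Q hQ _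
      _ = _ := by
          simp only [Finset.sum_sub_distrib, Finset.sum_const, card_Bx, nsmul_eq_mul, ← Finset.mul_sum]
          push_cast
          ring
  refine hR.trans ?_
  have h5 : min (c2 / 48) (1 / 2) * min 1 (θ ^ 2 * (2 * (Q : ℝ) + 1) ^ 4) ≤
      c2 / 48 * min 1 (θ ^ 2 * (2 * (Q : ℝ) + 1) ^ 4) := by
    gcongr
    exact min_le_left _ _
  have h6 : c2 / 48 * min 1 (θ ^ 2 * (2 * (Q : ℝ) + 1) ^ 4) ≤
      c2 * (∑ x ∈ Bx Q, ∑ x' ∈ Bx Q, min 1 ((2 * (Q : ℝ) + 1) ^ 2 *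
        (θ * ((x : ℝ) - x') - round (θ * ((x : ℝ) - x'))) ^ 2)) / (2 * Q + 1) ^ 2 := by
    rw [le_div_iff₀ (by positivity)]
    have := mul_le_mul_of_nonneg_left hS hc2.le
    linarith
  linarith

end Pool.Agent.H923_Thick
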