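import Pool.Agent.H923_Thick.A1

/-!
# The part of the sum over the differences not divisible by the denominator
-/

open Finset

namespace Pool.Agent.H923_Thick

namespace A3a1

theorem sum_inv_sq (q : ℕ) : ∑ s ∈ Finset.Ico 1 q, (1 : ℝ) / (s : ℝ) ^ 2 ≤ 2 := by
  rcases Nat.lt_or_ge q 2 with h | h
  · have : Finset.Ico 1 q = ∅ := Finset.Ico_eq_empty (by omega)
    rw [this]; simp
  · have key : ∀ m : ℕ, 1 ≤ m → ∑ s ∈ Finset.Ico 1 (m + 1), (1 : ℝ) / (s : ℝ) ^ 2 ≤ 2 - 1 / m := by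
      intro m hm
      induction m, hm using Nat.le_induction with
      | base => simp; norm_num
      | succ m hm ih =>
        rw [Finset.sum_Ico_succ_top (by omega)]
        have hm0 : (0 : ℝ) < m := by exact_mod_cast hm
        have h1 : (1 : ℝ) / ((m + 1 : ℕ) : ℝ) ^ 2 ≤ 1 / m - 1 / ((m + 1 : ℕ) : ℝ) := by
          push_cast
          rw [div_sub_div _ _ hm0.ne' (by positivity), div_le_div_iff₀ (by positivity) (by positivity)]
          nlinarith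
        linarith
    obtain ⟨m, rfl⟩ : ∃ m, q = m + 1 := ⟨q - 1, by omega⟩
    refine (key m (by omega)).trans ?_
    have : (0 : ℝ) ≤ 1 / m := by positivity
    linarith

theorem sum_inv_sq_refl (q : ℕ) :
    ∑ s ∈ Finset.Ico 1 q, (1 : ℝ) / ((q : ℝ) - s) ^ 2 = ∑ s ∈ Finset.Ico 1 q, (1 : ℝ) / (s : ℝ) ^ 2 := by
  refine Finset.sum_nbij' (fun s => q - s) (fun s => q - s) ?_ ?_ ?_ ?_ ?_
  · intro s hs
    rw [Finset.mem_Ico] at hs ⊢; omega
  · intro s hs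
    rw [Finset.mem_Ico] at hs ⊢; omega
  · intro s hs
    rw [Finset.mem_Ico] at hs; omega
  · intro s hs
    rw [Finset.mem_Ico] at hs; omega
  · intro s hs
    rw [Finset.mem_Ico] at hs
    rw [Nat.cast_sub (by omega)]

/-- the number of elements of an interval in a residue class -/
theorem card_class (Q : ℕ) (q : ℕ) (hq : 1 ≤ q) (v : ℤ) :
    ((((Finset.Icc (-(2 * (Q : ℤ))) (2 * Q)).filter (fun d => d ≡ v [ZMOD (q : ℤ)])).card : ℕ) : ℝ) ≤
      (4 * Q + 1) / q + 1 := by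
  have hq0 : (0 : ℤ) < q := by exact_mod_cast hq
  have hI : Finset.Icc (-(2 * (Q : ℤ))) (2 * Q) = Finset.Ioc (-(2 * (Q : ℤ)) - 1) (2 * Q) := by
    ext d; rw [Finset.mem_Icc, Finset.mem_Ioc]; omega
  rw [hI]
  have h := Int.Ioc_filter_modEq_card (-(2 * (Q : ℤ)) - 1) (2 * Q) hq0 v
  have h2 : ((((Finset.Ioc (-(2 * (Q : ℤ)) - 1) (2 * Q)).filter
      (fun d => d ≡ v [ZMOD (q : ℤ)])).card : ℕ) : ℚ) ≤ (4 * Q + 1) / q + 1 := by
    have h3 : ((((Finset.Ioc (-(2 * (Q : ℤ)) - 1) (2 * Q)).filter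
      (fun d => d ≡ v [ZMOD (q : ℤ)])).card : ℤ) : ℚ) =
      ((max (⌊(((2 * (Q : ℤ) : ℤ) : ℚ) - v) / ((q : ℤ) : ℚ)⌋ -
        ⌊(((-(2 * (Q : ℤ)) - 1 : ℤ) : ℚ) - v) / ((q : ℤ) : ℚ)⌋) 0 : ℤ) : ℚ) := by
      exact_mod_cast h
    have hqq : (0 : ℚ) < (q : ℚ) := by exact_mod_cast hq
    have h4 := Int.floor_le ((((2 * (Q : ℤ) : ℤ) : ℚ) - v) / ((q : ℤ) : ℚ))
    have h5 := Int.lt_floor_add_one ((((-(2 * (Q : ℤ)) - 1 : ℤ) : ℚ) - v) / ((q : ℤ) : ℚ))
    rw [← Int.cast_natCast, h3, Int.cast_max]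
    apply max_le
    · push_cast at h4 h5 ⊢
      have e : (2 * (Q : ℚ) - v) / q - (-(2 * (Q : ℚ)) - 1 - v) / q = (4 * Q + 1) / q := by
        field_simp; ring
      linarith
    · rw [Int.cast_zero]; positivity
  have h6 := (Rat.cast_le (K := ℝ)).2 h2
  rw [Rat.cast_natCast, Rat.cast_add, Rat.cast_div, Rat.cast_add, Rat.cast_mul, Rat.cast_natCast,
    Rat.cast_natCast, Rat.cast_one, Rat.cast_ofNat] at h6
  exact h6

/-- the pointwise bound -/
theorem point (Q : ℕ) (q : ℕ) (hq : 1 ≤ q) (a : ℤ)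
    (θ : ℝ) (h : |θ - a / q| ≤ 1 / (4 * (2 * Q + 1) * q)) (d : ℤ) (hd : |d| ≤ 2 * (Q : ℤ))
    (s : ℕ) (hs : 1 ≤ s) (hsq : s < q) (hds : (a * d) % (q : ℤ) = s) :
    D Q (θ * d) ^ 2 ≤ 4 * q ^ 2 / (9 * (2 * Q + 1) ^ 2) *
      (1 / (s : ℝ) ^ 2 + 1 / ((q : ℝ) - s) ^ 2) := by
  have hn := npos Q
  have hq0 : (0 : ℝ) < q := by exact_mod_cast hq
  have hs0 : (0 : ℝ) < s := by exact_mod_cast hs
  have hsq' : (0 : ℝ) < (q : ℝ) - s := by
    have : (s : ℝ) < q := by exact_mod_cast hsq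
    linarith
  set x := |θ * d - round (θ * d)| with hx
  set z := round (θ * d) with hz
  -- the distance of the numerator
  set w : ℤ := a * d - q * z with hw
  have hwm : w % (q : ℤ) = s := by
    rw [hw, Int.sub_mul_emod_self_left, hds]
  set mn : ℤ := min (s : ℤ) ((q : ℤ) - s) with hmn
  have hmn1 : 1 ≤ mn := by rw [hmn]; apply le_min <;> omega
  have hwabs : mn ≤ |w| := by
    have h1 := Int.emod_add_mul_ediv w q
    rw [hwm] at h1
    rcases lt_or_ge (w / (q : ℤ)) 0 with h2 | h2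
    · have h3 : w / (q : ℤ) ≤ -1 := by omega
      have h4 : (q : ℤ) * (w / (q : ℤ)) ≤ (q : ℤ) * (-1) := mul_le_mul_of_nonneg_left h3 (by positivity)
      have h5 : w ≤ s - q := by linarith
      have h6 := neg_abs_le w
      have h7 : mn ≤ (q : ℤ) - s := min_le_right _ _
      linarith
    · have h4 : 0 ≤ (q : ℤ) * (w / (q : ℤ)) := mul_nonneg (by positivity) h2
      have h5 : (s : ℤ) ≤ w := by linarith
      have h6 := le_abs_self w
      have h7 : mn ≤ (s : ℤ) := min_le_left _ _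
      linarith
  have hmnr : (1 : ℝ) ≤ mn := by exact_mod_cast hmn1
  have hwabsr : (mn : ℝ) ≤ |(w : ℝ)| := by exact_mod_cast hwabs
  have hdr : |(d : ℝ)| ≤ 2 * Q := by exact_mod_cast hd
  -- lower bound for `x`
  have hxl : 3 / 4 * (mn / q) ≤ x := by
    have e1 : θ * d - z = (w : ℝ) / q + (θ - a / q) * d := by
      rw [hw]; push_cast; field_simp; ring
    have e2 : |(w : ℝ) / q| ≤ x + |(θ - a / q) * d| := by
      have : (w : ℝ) / q = (θ * d - z) - (θ - a / q) * d := by rw [e1]; ring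
      rw [this, hx]
      exact abs_sub _ _
    have e3 : |(θ - a / q) * d| ≤ 1 / (4 * q) := by
      rw [abs_mul]
      calc |θ - a / q| * |(d : ℝ)| ≤ 1 / (4 * (2 * Q + 1) * q) * (2 * Q + 1) := by
            apply mul_le_mul h (by linarith) (abs_nonneg _) (by positivity)
        _ = 1 / (4 * q) := by field_simp
    have e4 : |(w : ℝ) / q| = |(w : ℝ)| / q := by rw [abs_div, abs_of_pos hq0]
    rw [e4] at e2
    have e5 : (mn : ℝ) / q ≤ |(w : ℝ)| / q := by gcongr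
    have e6 : 1 / (4 * (q : ℝ)) ≤ 1 / 4 * (mn / q) := by
      rw [div_le_iff₀ (by positivity)]
      have : 1 / 4 * ((mn : ℝ) / q) * (4 * q) = mn := by field_simp
      rw [this]; exact hmnr
    linarith
  have hD := D_mul_le Q (θ * d)
  rw [← hx] at hD
  have hDn := abs_nonneg (D Q (θ * d))
  have h1 : 2 * (2 * Q + 1) * (3 / 4 * (mn / q)) * |D Q (θ * d)| ≤ 1 := by
    refine le_trans ?_ hD
    gcongr
  have h2 : |D Q (θ * d)| ≤ 2 * q / (3 * (2 * Q + 1) * mn) := by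
    rw [le_div_iff₀ (by positivity)]
    have : 2 * (2 * (Q : ℝ) + 1) * (3 / 4 * (mn / q)) * |D Q (θ * d)| * (2 * q) =
      |D Q (θ * d)| * (3 * (2 * Q + 1) * mn) := by field_simp; ring
    nlinarith
  have h3 : D Q (θ * d) ^ 2 ≤ 4 * q ^ 2 / (9 * (2 * Q + 1) ^ 2) * (1 / (mn : ℝ) ^ 2) := by
    rw [← sq_abs]
    calc |D Q (θ * d)| ^ 2 ≤ (2 * q / (3 * (2 * Q + 1) * mn)) ^ 2 := pow_le_pow_left₀ hDn h2 2
      _ = 4 * q ^ 2 / (9 * (2 * Q + 1) ^ 2) * (1 / (mn : ℝ) ^ 2) := by field_simp; ring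
  refine h3.trans ?_
  apply mul_le_mul_of_nonneg_left _ (by positivity)
  rcases le_total (s : ℤ) ((q : ℤ) - s) with h5 | h5
  · have : (mn : ℝ) = s := by rw [hmn, min_eq_left h5]; simp
    rw [this]
    have : 0 ≤ 1 / ((q : ℝ) - s) ^ 2 := by positivity
    linarith
  · have : (mn : ℝ) = q - s := by rw [hmn, min_eq_right h5]; push_cast; ring
    rw [this]
    have : 0 ≤ 1 / (s : ℝ) ^ 2 := by positivity
    linarith

end A3a1

/-- A3a1 -/
theorem sum_not_dvd (Q : ℕ) (hQ : 1 ≤ Q) (q : ℕ) (hq : 1 ≤ q) (hq4 : q ≤ 4 * (2 * Q + 1)) (a : ℤ)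
    (hco : IsCoprime a (q : ℤ)) (θ : ℝ) (h : |θ - a / q| ≤ 1 / (4 * (2 * Q + 1) * q)) :
    ∑ d ∈ (Finset.Icc (-(2 * (Q : ℤ))) (2 * Q)).filter (fun d => ¬ (q : ℤ) ∣ d), D Q (θ * d) ^ 2
      ≤ 32 / 3 * (q / (2 * Q + 1)) := by
  have hn := npos Q
  have hq0 : (0 : ℝ) < q := by exact_mod_cast hq
  have hqz : (0 : ℤ) < q := by exact_mod_cast hq
  obtain ⟨a', b', hab⟩ := hco
  set I := Finset.Icc (-(2 * (Q : ℤ))) (2 * Q) with hI
  set G : ℕ → ℝ := fun s => 4 * q ^ 2 / (9 * (2 * Q + 1) ^ 2) *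
      (1 / (s : ℝ) ^ 2 + 1 / ((q : ℝ) - s) ^ 2) with hG
  have hG0 : ∀ s, 0 ≤ G s := fun s => by rw [hG]; positivity
  -- the class of `a d`
  have hcl : ∀ d ∈ I.filter (fun d => ¬ (q : ℤ) ∣ d), ((a * d) % (q : ℤ)).toNat ∈ Finset.Ico 1 q := by
    intro d hd
    rw [Finset.mem_filter] at hd
    have h1 := Int.emod_nonneg (a * d) hqz.ne'
    have h2 := Int.emod_lt_of_pos (a * d) hqz
    have h3 : (a * d) % (q : ℤ) ≠ 0 := by
      intro h0
      apply hd.2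
      have h4 : (q : ℤ) ∣ a * d := Int.dvd_of_emod_eq_zero h0
      have h5 : d = a' * (a * d) + q * (b' * d) := by linear_combination (-d) * hab
      rw [h5]
      exact dvd_add (Dvd.dvd.mul_left h4 _) (dvd_mul_right _ _)
    rw [Finset.mem_Ico]
    omega
  have hpt : ∀ d ∈ I.filter (fun d => ¬ (q : ℤ) ∣ d), D Q (θ * d) ^ 2 ≤ G ((a * d) % (q : ℤ)).toNat := by
    intro d hd
    have h1 := hcl d hd
    rw [Finset.mem_Ico] at h1
    rw [Finset.mem_filter, hI, Finset.mem_Icc] at hd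
    exact A3a1.point Q q hq a θ h d (abs_le.2 hd.1) _ h1.1 h1.2
      (Int.toNat_of_nonneg (Int.emod_nonneg _ hqz.ne')).symm
  have hfib : ∀ s ∈ Finset.Ico 1 q,
      ((((I.filter (fun d => ¬ (q : ℤ) ∣ d)).filter (fun d => ((a * d) % (q : ℤ)).toNat = s)).card : ℕ) : ℝ) ≤
        (4 * Q + 1) / q + 1 := by
    intro s _
    refine le_trans ?_ (A3a1.card_class Q q hq (a' * s))
    rw [← hI]
    have : (((I.filter (fun d => ¬ (q : ℤ) ∣ d)).filter (fun d => ((a * d) % (q : ℤ)).toNat = s)).card) ≤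
        (I.filter (fun d => d ≡ a' * s [ZMOD (q : ℤ)])).card := by
      apply Finset.card_le_card
      intro d hd
      rw [Finset.mem_filter, Finset.mem_filter] at hd
      rw [Finset.mem_filter]
      refine ⟨hd.1.1, ?_⟩
      have h1 : (a * d) % (q : ℤ) = s := by
        have := Int.toNat_of_nonneg (Int.emod_nonneg (a * d) hqz.ne')
        rw [← this, hd.2]
      have h2 : a * d ≡ s [ZMOD (q : ℤ)] := by
        have h3 : ((a * d) % (q : ℤ)) ≡ a * d [ZMOD (q : ℤ)] := Int.mod_modEq _ _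
        rw [h1] at h3
        exact h3.symm
      have h4 : a' * (a * d) ≡ a' * s [ZMOD (q : ℤ)] := h2.mul_left a'
      have h5 : d ≡ a' * (a * d) [ZMOD (q : ℤ)] := by
        rw [Int.modEq_iff_dvd]
        exact ⟨-(b' * d), by linear_combination d * hab⟩
      exact h5.trans h4
    exact_mod_cast this
  calc ∑ d ∈ I.filter (fun d => ¬ (q : ℤ) ∣ d), D Q (θ * d) ^ 2
      ≤ ∑ d ∈ I.filter (fun d => ¬ (q : ℤ) ∣ d), G ((a * d) % (q : ℤ)).toNat := Finset.sum_le_sum hpt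
    _ = ∑ s ∈ Finset.Ico 1 q, ∑ d ∈ (I.filter (fun d => ¬ (q : ℤ) ∣ d)).filter
          (fun d => ((a * d) % (q : ℤ)).toNat = s), G ((a * d) % (q : ℤ)).toNat :=
        (Finset.sum_fiberwise_of_maps_to hcl _).symm
    _ = ∑ s ∈ Finset.Ico 1 q, ((((I.filter (fun d => ¬ (q : ℤ) ∣ d)).filter
          (fun d => ((a * d) % (q : ℤ)).toNat = s)).card : ℕ) : ℝ) * G s := by
        refine Finset.sum_congr rfl fun s _ => ?_
        rw [← nsmul_eq_mul, ← Finset.sum_const]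
        refine Finset.sum_congr rfl fun d hd => ?_
        rw [(Finset.mem_filter.1 hd).2]
    _ ≤ ∑ s ∈ Finset.Ico 1 q, ((4 * Q + 1) / q + 1) * G s :=
        Finset.sum_le_sum fun s hs => mul_le_mul_of_nonneg_right (hfib s hs) (hG0 s)
    _ = ((4 * Q + 1) / q + 1) * (4 * q ^ 2 / (9 * (2 * Q + 1) ^ 2) *
          (2 * ∑ s ∈ Finset.Ico 1 q, (1 : ℝ) / (s : ℝ) ^ 2)) := by
        rw [← Finset.mul_sum, hG, ← Finset.mul_sum, Finset.sum_add_distrib, A3a1.sum_inv_sq_refl]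
        ring
    _ ≤ ((4 * Q + 1) / q + 1) * (4 * q ^ 2 / (9 * (2 * Q + 1) ^ 2) * (2 * 2)) := by
        gcongr
        exact A3a1.sum_inv_sq q
    _ ≤ 32 / 3 * (q / (2 * Q + 1)) := by
        have hq4' : (q : ℝ) ≤ 4 * (2 * Q + 1) := by exact_mod_cast hq4
        have e : ((4 * (Q : ℝ) + 1) / q + 1) * (4 * q ^ 2 / (9 * (2 * Q + 1) ^ 2) * (2 * 2)) =
          16 / 9 * (q * (4 * Q + 1 + q)) / (2 * Q + 1) ^ 2 := by field_simp; ring
        rw [e, div_le_iff₀ (by positivity)]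
        have e2 : 32 / 3 * ((q : ℝ) / (2 * Q + 1)) * (2 * Q + 1) ^ 2 = 32 / 3 * (q * (2 * Q + 1)) := by
          field_simp
        rw [e2]
        nlinarith

end Pool.Agent.H923_Thick
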