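import Pool.Agent.H923_Thick.A1

/-!
# Major arcs: the multiples of the denominator
-/

open Finset

namespace Pool.Agent.H923_Thick

/-- auxiliary concave function: `x` up to `T`, then `2 T - T ^ 2 / x` -/
noncomputable def GT2 (T x : ℝ) : ℝ := if x ≤ T then x else 2 * T - T ^ 2 / x

theorem GT2_le {T : ℝ} (hT : 0 < T) {x : ℝ} (hx : 0 ≤ x) : GT2 T x ≤ 2 * T := by
  unfold GT2
  split_ifs with h
  · linarith
  · have : 0 ≤ T ^ 2 / x := by positivity
    linarith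

theorem GT2_step {T : ℝ} (hT : 0 < T) (k : ℕ) :
    GT2 T k + min 1 (T ^ 2 / ((k : ℝ) + 1) ^ 2) ≤ GT2 T ((k : ℝ) + 1) := by
  have hk : (0 : ℝ) ≤ k := Nat.cast_nonneg k
  unfold GT2
  by_cases h1 : (k : ℝ) + 1 ≤ T
  · have h2 : (k : ℝ) ≤ T := by linarith
    rw [if_pos h1, if_pos h2]
    have := min_le_left 1 (T ^ 2 / ((k : ℝ) + 1) ^ 2)
    linarith
  · rw [if_neg h1]
    have h1' : T < (k : ℝ) + 1 := not_le.mp h1
    have hmin := min_le_right 1 (T ^ 2 / ((k : ℝ) + 1) ^ 2)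
    have hkk : (0 : ℝ) < k + 1 := by linarith
    by_cases h2 : (k : ℝ) ≤ T
    · rw [if_pos h2]
      have key : 0 ≤ 2 * T - T ^ 2 / ((k : ℝ) + 1) - k - T ^ 2 / ((k : ℝ) + 1) ^ 2 := by
        have e : 2 * T - T ^ 2 / ((k : ℝ) + 1) - k - T ^ 2 / ((k : ℝ) + 1) ^ 2 =
          (2 * T * (k + 1) ^ 2 - T ^ 2 * (k + 1) - k * (k + 1) ^ 2 - T ^ 2) / ((k : ℝ) + 1) ^ 2 := by
          field_simp
        rw [e]
        apply div_nonneg _ (by positivity)
        -- concave in `T` on `[k, k+1]`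
        have h3 : 0 ≤ (T - k) * ((k : ℝ) + 1 - T) := mul_nonneg (by linarith) (by linarith)
        nlinarith [mul_nonneg h3 hk, mul_nonneg hk (by linarith : (0 : ℝ) ≤ T - k)]
      linarith
    · rw [if_neg h2]
      have h2' : T < (k : ℝ) := not_le.mp h2
      have hk0 : (0 : ℝ) < k := by linarith
      have key : T ^ 2 / ((k : ℝ) + 1) ^ 2 ≤ T ^ 2 / k - T ^ 2 / ((k : ℝ) + 1) := by
        have e : T ^ 2 / (k : ℝ) - T ^ 2 / ((k : ℝ) + 1) = T ^ 2 / (k * ((k : ℝ) + 1)) := by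
          field_simp
          ring
        rw [e]
        apply div_le_div_of_nonneg_left (by positivity) (by positivity)
        nlinarith
      linarith

theorem D_zero (Q : ℕ) : D Q 0 = 1 := by
  have hn := npos Q
  unfold D
  simp only [mul_zero, zero_mul, Real.cos_zero, Finset.sum_const, nsmul_eq_mul, mul_one, card_Bx]
  push_cast
  field_simp

theorem D_sq_le_one (Q : ℕ) (t : ℝ) : D Q t ^ 2 ≤ 1 := by
  rw [← sq_abs]
  have := abs_D_le Q t
  nlinarith [abs_nonneg (D Q t)]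

theorem abs_sub_round_of_le {t : ℝ} (h0 : 0 ≤ t) (h1 : t ≤ 1 / 2) : |t - round t| = t := by
  rw [abs_sub_round_eq_min]
  have : Int.fract t = t := Int.fract_eq_self.mpr ⟨h0, by linarith⟩
  rw [this]
  exact min_eq_left (by linarith)

theorem D_sq_le_min (Q : ℕ) {w : ℝ} (hw : 0 < w) {k : ℝ} (hk : 0 < k) (h : k * w ≤ 1 / 2) :
    D Q (w * k) ^ 2 ≤ min 1 ((1 / (2 * (2 * Q + 1) * w)) ^ 2 / k ^ 2) := by
  apply le_min (D_sq_le_one _ _)
  have hn := npos Q
  have hwk : 0 < w * k := mul_pos hw hk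
  have h1 := D_mul_le Q (w * k)
  rw [abs_sub_round_of_le hwk.le (by linarith)] at h1
  have h2 : |D Q (w * k)| ≤ 1 / (2 * (2 * Q + 1) * w) / k := by
    rw [le_div_iff₀ hk, le_div_iff₀ (by positivity)]
    calc |D Q (w * k)| * k * (2 * (2 * Q + 1) * w) = 2 * (2 * Q + 1) * (w * k) * |D Q (w * k)| := by ring
      _ ≤ 1 := h1
  rw [← sq_abs, ← div_pow]
  exact pow_le_pow_left₀ (abs_nonneg _) h2 2

/-- the sum over the multiples, trivial bound -/
theorem sum_mult_le (Q M : ℕ) (w : ℝ) : ∑ k ∈ Bx M, D Q (w * k) ^ 2 ≤ 1 + 2 * M := by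
  induction M with
  | zero => simp [Bx, D_zero]
  | succ M ih =>
    rw [sum_Bx_succ]
    have h1 := D_sq_le_one Q (w * (((M : ℤ) + 1 : ℤ) : ℝ))
    have h2 := D_sq_le_one Q (w * ((-((M : ℤ) + 1) : ℤ) : ℝ))
    push_cast at h1 h2 ⊢
    linarith

/-- the sum over the multiples, nontrivial bound -/
theorem sum_mult_le' (Q M : ℕ) {w : ℝ} (hw : 0 < w) (h : M * w ≤ 1 / 2) :
    ∑ k ∈ Bx M, D Q (w * k) ^ 2 ≤ 1 + 2 * GT2 (1 / (2 * (2 * Q + 1) * w)) M := by
  have hn := npos Q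
  have hT : 0 < 1 / (2 * (2 * Q + 1) * w) := by positivity
  induction M with
  | zero =>
    simp only [Bx, CharP.cast_eq_zero, neg_zero, Finset.Icc_self, Finset.sum_singleton, Int.cast_zero, mul_zero, D_zero]
    unfold GT2
    rw [if_pos hT.le]
    norm_num
  | succ M ih =>
    rw [sum_Bx_succ]
    have hM : (0 : ℝ) ≤ M := Nat.cast_nonneg M
    have ih' := ih (by push_cast at h; nlinarith)
    have h1 := D_sq_le_min Q hw (k := (M : ℝ) + 1) (by positivity) (by push_cast at h; linarith)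
    have h2 : D Q (w * (((M : ℤ) + 1 : ℤ) : ℝ)) = D Q (w * ((M : ℝ) + 1)) := by push_cast; rfl
    have h3 : D Q (w * ((-((M : ℤ) + 1) : ℤ) : ℝ)) = D Q (w * ((M : ℝ) + 1)) := by
      rw [← D_neg]; push_cast; ring_nf
    rw [h2, h3]
    have h4 := GT2_step hT M
    push_cast
    linarith

/-- A3a2 -/
theorem sum_dvd (Q : ℕ) (hQ : 1 ≤ Q) (q : ℕ) (hq : 1 ≤ q) (hq4 : q ≤ 4 * (2 * Q + 1)) (a : ℤ)
    (θ : ℝ) (h : |θ - a / q| ≤ 1 / (4 * (2 * Q + 1) * q)) :
    ∑ d ∈ (Finset.Icc (-(2 * (Q : ℤ))) (2 * Q)).filter (fun d => (q : ℤ) ∣ d), D Q (θ * d) ^ 2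
      ≤ 1 + 5 * (2 * Q + 1) / (q * (1 + (2 * Q + 1) ^ 2 * |θ - a / q|)) := by
  have hn := npos Q
  have hq0 : (0 : ℝ) < q := by exact_mod_cast hq
  have hqz : (0 : ℤ) < q := by exact_mod_cast hq
  set b := θ - a / q with hb
  set M := 2 * Q / q with hM
  -- reindex
  have hre : (Finset.Icc (-(2 * (Q : ℤ))) (2 * Q)).filter (fun d => (q : ℤ) ∣ d) =
      (Bx M).image (fun k => (q : ℤ) * k) := by
    ext d
    simp only [Finset.mem_filter, Finset.mem_Icc, Finset.mem_image, Bx]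
    have hMz : ((M : ℕ) : ℤ) = 2 * Q / q := by rw [hM]; push_cast; rfl
    constructor
    · rintro ⟨⟨h1, h2⟩, k, rfl⟩
      refine ⟨k, ⟨?_, ?_⟩, rfl⟩
      · rw [hMz]
        have : -k ≤ 2 * Q / q := by
          rw [Int.le_ediv_iff_mul_le hqz]; nlinarith
        linarith
      · rw [hMz, Int.le_ediv_iff_mul_le hqz]; nlinarith
    · rintro ⟨k, ⟨h1, h2⟩, rfl⟩
      rw [hMz] at h1 h2
      have h3 : k * q ≤ 2 * Q := by
        rw [Int.le_ediv_iff_mul_le hqz] at h2; exact h2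
      have h4 : -k * q ≤ 2 * Q := by
        have : -k ≤ 2 * Q / q := by linarith
        rw [Int.le_ediv_iff_mul_le hqz] at this; exact this
      exact ⟨⟨by nlinarith, by nlinarith⟩, dvd_mul_right _ _⟩
  rw [hre, Finset.sum_image (fun x _ y _ hxy => mul_left_cancel₀ hqz.ne' hxy)]
  have hterm : ∀ k : ℤ, D Q (θ * (((q : ℤ) * k : ℤ) : ℝ)) = D Q (|b| * q * k) := by
    intro k
    have e1 : θ * (((q : ℤ) * k : ℤ) : ℝ) = b * q * k + ((a * k : ℤ) : ℝ) := by
      have : θ = b + a / q := by rw [hb]; ring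
      rw [this]; push_cast; field_simp
    rw [e1, D_periodic]
    rcases abs_choice b with h' | h' <;> rw [h']
    rw [← D_neg]; ring_nf
  simp only [hterm]
  have hMle : (M : ℝ) * q ≤ 2 * Q := by
    have : M * q ≤ 2 * Q := Nat.div_mul_le_self _ _
    exact_mod_cast this
  have hb0 : 0 ≤ |b| := abs_nonneg _
  have hden : 0 < (q : ℝ) * (1 + (2 * Q + 1) ^ 2 * |b|) := by positivity
  rcases le_or_gt ((2 * (Q : ℝ) + 1) ^ 2 * |b|) (3 / 2) with hy | hy
  · refine (sum_mult_le Q M _).trans ?_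
    have h1 : 2 * (M : ℝ) ≤ 5 * (2 * Q + 1) / (q * (1 + (2 * Q + 1) ^ 2 * |b|)) := by
      rw [le_div_iff₀ hden]
      have hM0 : (0 : ℝ) ≤ M := Nat.cast_nonneg M
      calc 2 * (M : ℝ) * (q * (1 + (2 * Q + 1) ^ 2 * |b|))
          = 2 * (M * q) * (1 + (2 * Q + 1) ^ 2 * |b|) := by ring
        _ ≤ 2 * (2 * (Q : ℝ) + 1) * (1 + 3 / 2) := by
            apply mul_le_mul _ (by linarith) (by positivity) (by positivity)
            linarith
        _ = 5 * (2 * (Q : ℝ) + 1) := by ring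
    linarith
  · have hbpos : 0 < |b| := by
      by_contra hcon
      have : |b| = 0 := le_antisymm (not_lt.mp hcon) hb0
      rw [this] at hy; norm_num at hy
    have hw : 0 < |b| * q := by positivity
    have hMw : (M : ℝ) * (|b| * q) ≤ 1 / 2 := by
      calc (M : ℝ) * (|b| * q) = |b| * (M * q) := by ring
        _ ≤ (1 / (4 * (2 * Q + 1) * q)) * (2 * Q) := by
            apply mul_le_mul h hMle (by positivity) (by positivity)
        _ ≤ 1 / 2 := by
            rw [div_mul_eq_mul_div, div_le_div_iff₀ (by positivity) (by norm_num)]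
            have hq1 : (1 : ℝ) ≤ q := by exact_mod_cast hq
            nlinarith
    refine (sum_mult_le' Q M hw hMw).trans ?_
    have hT : 0 < 1 / (2 * (2 * Q + 1) * (|b| * q)) := by positivity
    have h1 := GT2_le hT (x := (M : ℝ)) (Nat.cast_nonneg M)
    have h2 : 2 * (2 * (1 / (2 * (2 * Q + 1) * (|b| * q)))) ≤
        5 * (2 * Q + 1) / (q * (1 + (2 * Q + 1) ^ 2 * |b|)) := by
      have e : 2 * (2 * (1 / (2 * (2 * Q + 1) * (|b| * q)))) = 2 / ((2 * Q + 1) * (|b| * q)) := by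
        field_simp
      rw [e, div_le_div_iff₀ (by positivity) hden]
      have h3 : 2 * (1 + (2 * (Q : ℝ) + 1) ^ 2 * |b|) ≤ 5 * ((2 * (Q : ℝ) + 1) ^ 2 * |b|) := by linarith
      calc 2 * ((q : ℝ) * (1 + (2 * Q + 1) ^ 2 * |b|)) = q * (2 * (1 + (2 * (Q : ℝ) + 1) ^ 2 * |b|)) := by ring
        _ ≤ q * (5 * ((2 * (Q : ℝ) + 1) ^ 2 * |b|)) := by
            apply mul_le_mul_of_nonneg_left h3 hq0.le
        _ = 5 * (2 * Q + 1) * ((2 * Q + 1) * (|b| * q)) := by ring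
    linarith

end Pool.Agent.H923_Thick
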