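import Pool.Agent.H923_Thick.A3a1
import Pool.Agent.H923_Thick.A3a2

/-!
# Pointwise bound for the second moment by Dirichlet approximation
-/

open Finset

namespace Pool.Agent.H923_Thick

theorem R_le_sum_diff (Q : ℕ) (θ : ℝ) :
    R Q θ ≤ (∑ d ∈ Finset.Icc (-(2 * (Q : ℤ))) (2 * Q), D Q (θ * d) ^ 2) / (2 * Q + 1) := by
  have hn := npos Q
  unfold R
  have h1 : ∀ x ∈ Bx Q, ∑ x' ∈ Bx Q, D Q (θ * ((x : ℝ) - x')) ^ 2 ≤
      ∑ d ∈ Finset.Icc (-(2 * (Q : ℤ))) (2 * Q), D Q (θ * d) ^ 2 := by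
    intro x hx
    have h2 : ∑ x' ∈ Bx Q, D Q (θ * ((x : ℝ) - x')) ^ 2 =
        ∑ d ∈ (Bx Q).image (fun x' => x - x'), D Q (θ * d) ^ 2 := by
      rw [Finset.sum_image (fun a _ b _ hab => by simpa using hab)]
      refine Finset.sum_congr rfl fun x' _ => by push_cast; rfl
    rw [h2]
    apply Finset.sum_le_sum_of_subset_of_nonneg
    · intro d hd
      simp only [Finset.mem_image, Bx, Finset.mem_Icc] at hd hx ⊢
      obtain ⟨x', ⟨h3, h4⟩, rfl⟩ := hd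
      constructor <;> linarith [hx.1, hx.2]
    · intro d _ _
      exact sq_nonneg _
  have h3 : ∑ x ∈ Bx Q, ∑ x' ∈ Bx Q, D Q (θ * ((x : ℝ) - x')) ^ 2 ≤
      (2 * Q + 1) * ∑ d ∈ Finset.Icc (-(2 * (Q : ℤ))) (2 * Q), D Q (θ * d) ^ 2 := by
    refine (Finset.sum_le_sum h1).trans ?_
    rw [Finset.sum_const, card_Bx, nsmul_eq_mul]
    push_cast
    exact le_rfl
  rw [div_le_div_iff₀ (by positivity) hn]
  calc (∑ x ∈ Bx Q, ∑ x' ∈ Bx Q, D Q (θ * ((x : ℝ) - x')) ^ 2) * (2 * (Q : ℝ) + 1)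
      ≤ ((2 * Q + 1) * ∑ d ∈ Finset.Icc (-(2 * (Q : ℤ))) (2 * Q), D Q (θ * d) ^ 2) * (2 * (Q : ℝ) + 1) :=
        mul_le_mul_of_nonneg_right h3 hn.le
    _ = _ := by ring

/-- A3a3 (Dirichlet approximation, from A3a1 and A3a2) -/
theorem R_le (Q : ℕ) (hQ : 1 ≤ Q) (θ : ℝ) (hθ : |θ| ≤ 1 / 2) :
    ∃ q ∈ Finset.Icc 1 (4 * (2 * Q + 1)), ∃ a ∈ Finset.Icc (-(q : ℤ)) q,
      R Q θ ≤ 44 / (2 * Q + 1) + 5 / (q * (1 + (2 * Q + 1) ^ 2 * |θ - a / q|)) := by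
  have hn := npos Q
  obtain ⟨r, hr1, hr2⟩ := Real.exists_rat_abs_sub_le_and_den_le θ (n := 4 * (2 * Q + 1)) (by omega)
  have hq : 1 ≤ r.den := r.den_pos
  have hq0 : (0 : ℝ) < r.den := by exact_mod_cast r.den_pos
  have hq1 : (1 : ℝ) ≤ r.den := by exact_mod_cast hq
  have hreq : ((r : ℚ) : ℝ) = (r.num : ℝ) / (r.den : ℝ) := by
    exact_mod_cast (Rat.num_div_den r).symm
  rw [hreq] at hr1
  have h : |θ - r.num / r.den| ≤ 1 / (4 * (2 * Q + 1) * r.den) := by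
    refine hr1.trans ?_
    apply one_div_le_one_div_of_le (by positivity)
    push_cast
    nlinarith
  have hden4 : (r.den : ℝ) ≤ 4 * (2 * Q + 1) := by exact_mod_cast hr2
  have hnum : |(r.num : ℝ)| ≤ r.den := by
    have h1 : |(r.num : ℝ) / r.den| ≤ 1 := by
      have e : (r.num : ℝ) / r.den = θ - (θ - r.num / r.den) := by ring
      rw [e]
      refine (abs_sub _ _).trans ?_
      have h2 : 1 / (4 * (2 * (Q : ℝ) + 1) * r.den) ≤ 1 / 2 := by
        apply one_div_le_one_div_of_le (by norm_num)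
        have : (0 : ℝ) ≤ Q := Nat.cast_nonneg Q
        nlinarith
      linarith
    rw [abs_div, abs_of_pos hq0, div_le_one hq0] at h1
    exact h1
  refine ⟨r.den, Finset.mem_Icc.mpr ⟨hq, hr2⟩, r.num, ?_, ?_⟩
  · rw [Finset.mem_Icc]
    rw [abs_le] at hnum
    constructor
    · exact_mod_cast hnum.1
    · exact_mod_cast hnum.2
  · refine (R_le_sum_diff Q θ).trans ?_
    have hsplit := Finset.sum_filter_add_sum_filter_not (Finset.Icc (-(2 * (Q : ℤ))) (2 * Q))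
      (fun d => (r.den : ℤ) ∣ d) (fun d => D Q (θ * d) ^ 2)
    rw [← hsplit]
    have hco : IsCoprime r.num (r.den : ℤ) := by
      rw [Int.isCoprime_iff_gcd_eq_one]
      have := r.reduced
      simpa [Int.gcd] using this
    have hA := sum_not_dvd Q hQ r.den hq hr2 r.num hco θ h
    have hB := sum_dvd Q hQ r.den hq hr2 r.num θ h
    set b := |θ - r.num / r.den| with hb
    have hb0 : 0 ≤ b := abs_nonneg _
    have h5 : 5 * (2 * (Q : ℝ) + 1) / (r.den * (1 + (2 * Q + 1) ^ 2 * b)) =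
      (2 * (Q : ℝ) + 1) * (5 / (r.den * (1 + (2 * Q + 1) ^ 2 * b))) := by ring
    rw [h5] at hB
    rw [div_le_iff₀ hn]
    have h6 : (r.den : ℝ) / (2 * Q + 1) ≤ 4 := by
      rw [div_le_iff₀ hn]; linarith
    have h7 : (44 / (2 * (Q : ℝ) + 1) + 5 / (r.den * (1 + (2 * Q + 1) ^ 2 * b))) * (2 * Q + 1) =
      44 + (2 * (Q : ℝ) + 1) * (5 / (r.den * (1 + (2 * Q + 1) ^ 2 * b))) := by
      field_simp
    rw [h7]
    linarith

end Pool.Agent.H923_Thick
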