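import Pool.Agent.H923_Thick.A3a3

open Finset

namespace Pool.Agent.H923_Thick

theorem A3b_continuous_R (Q : ℕ) : Continuous (R Q) := by
  unfold R D
  fun_prop

theorem A3b_cube (x y : ℝ) (hx : 0 ≤ x) (hy : 0 ≤ y) : (x + y) ^ 3 ≤ 4 * (x ^ 3 + y ^ 3) := by
  nlinarith [mul_nonneg (add_nonneg hx hy) (sq_nonneg (x - y))]

theorem A3b_aux (u : ℝ) : 1 / (1 + |u|) ^ 3 ≤ (1 + u ^ 2)⁻¹ := by
  rw [one_div]
  apply inv_anti₀ (by positivity)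
  have h := abs_nonneg u
  have h2 : u ^ 2 = |u| ^ 2 := (sq_abs u).symm
  rw [h2]
  nlinarith [pow_nonneg h 3, pow_nonneg h 2]

theorem A3b_integral (n c : ℝ) (hn : 0 < n) :
    ∫ θ in (-(1 / 2) : ℝ)..(1 / 2), (1 + (n * (θ - c)) ^ 2)⁻¹ ≤ Real.pi / n := by
  have h1 : ∀ θ : ℝ, (1 + (n * (θ - c)) ^ 2)⁻¹ = (fun x : ℝ => (1 + x ^ 2)⁻¹) (n * θ - n * c) := by
    intro θ
    simp only [mul_sub]
  have h0 : ∫ θ in (-(1 / 2) : ℝ)..(1 / 2), (1 + (n * (θ - c)) ^ 2)⁻¹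
      = ∫ θ in (-(1 / 2) : ℝ)..(1 / 2), (fun x : ℝ => (1 + x ^ 2)⁻¹) (n * θ - n * c) :=
    intervalIntegral.integral_congr fun θ _ => h1 θ
  rw [h0, intervalIntegral.integral_comp_mul_sub (fun x : ℝ => (1 + x ^ 2)⁻¹) hn.ne']
  rw [integral_inv_one_add_sq]
  have h2 := Real.arctan_lt_pi_div_two (n * (1 / 2) - n * c)
  have h3 := Real.neg_pi_div_two_lt_arctan (n * -(1 / 2) - n * c)
  rw [smul_eq_mul, div_eq_mul_inv, mul_comm]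
  apply mul_le_mul_of_nonneg_right _ (by positivity)
  linarith

/-- the pointwise bound -/
theorem A3b_pointwise (Q : ℕ) (hQ : 1 ≤ Q) (θ : ℝ) (hθ : |θ| ≤ 1 / 2) :
    R Q θ ^ 3 ≤ 4 * (44 / (2 * Q + 1)) ^ 3 + ∑ q ∈ Finset.Icc 1 (4 * (2 * Q + 1)),
      ∑ a ∈ Finset.Icc (-(q : ℤ)) q, 500 / (q : ℝ) ^ 3 * (1 + ((2 * Q + 1) ^ 2 * (θ - a / q)) ^ 2)⁻¹ := by
  obtain ⟨q, hq, a, ha, h⟩ := R_le Q hQ θ hθ
  have hq1 : 1 ≤ q := (Finset.mem_Icc.1 hq).1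
  have hq0 : (0 : ℝ) < q := by exact_mod_cast hq1
  have hn : (0 : ℝ) < 2 * Q + 1 := by positivity
  have hpos : 0 < 1 + (2 * (Q : ℝ) + 1) ^ 2 * |θ - a / q| := by positivity
  have h1 : R Q θ ^ 3 ≤ (44 / (2 * Q + 1) + 5 / (q * (1 + (2 * Q + 1) ^ 2 * |θ - a / q|))) ^ 3 := by
    have hodd : Odd 3 := by decide
    exact (Odd.strictMono_pow hodd).monotone h
  have h2 := A3b_cube (44 / (2 * Q + 1)) (5 / (q * (1 + (2 * Q + 1) ^ 2 * |θ - a / q|)))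
    (by positivity) (by positivity)
  have h3 : 4 * (5 / (q * (1 + (2 * (Q : ℝ) + 1) ^ 2 * |θ - a / q|))) ^ 3
      ≤ 500 / (q : ℝ) ^ 3 * (1 + ((2 * Q + 1) ^ 2 * (θ - a / q)) ^ 2)⁻¹ := by
    have h4 := A3b_aux ((2 * (Q : ℝ) + 1) ^ 2 * (θ - a / q))
    rw [abs_mul, abs_of_nonneg (by positivity : (0 : ℝ) ≤ (2 * (Q : ℝ) + 1) ^ 2)] at h4
    have h5 : 4 * (5 / (q * (1 + (2 * (Q : ℝ) + 1) ^ 2 * |θ - a / q|))) ^ 3
        = 500 / (q : ℝ) ^ 3 * (1 / (1 + (2 * (Q : ℝ) + 1) ^ 2 * |θ - a / q|) ^ 3) := by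
      field_simp
      ring
    rw [h5]
    exact mul_le_mul_of_nonneg_left h4 (by positivity)
  have hnn : ∀ q' ∈ Finset.Icc 1 (4 * (2 * Q + 1)), (0 : ℝ) ≤ ∑ a ∈ Finset.Icc (-(q' : ℤ)) q',
      500 / (q' : ℝ) ^ 3 * (1 + ((2 * (Q : ℝ) + 1) ^ 2 * (θ - a / q')) ^ 2)⁻¹ := by
    intro q' _
    exact Finset.sum_nonneg fun a _ => by positivity
  have h6 := Finset.single_le_sum hnn hq
  have h7 := Finset.single_le_sum (s := Finset.Icc (-(q : ℤ)) q)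
    (f := fun a : ℤ => 500 / (q : ℝ) ^ 3 * (1 + ((2 * (Q : ℝ) + 1) ^ 2 * (θ - a / q)) ^ 2)⁻¹)
    (fun a _ => by positivity) ha
  linarith

/-- A3b (from A3a3) -/
theorem integral_R : ∃ p : ℕ, ∃ C : ℝ, 0 < C ∧ ∀ Q : ℕ, 1 ≤ Q →
    ∫ θ in (-(1 / 2) : ℝ)..(1 / 2), R Q θ ^ p ≤ C / (2 * Q + 1) ^ 2 := by
  obtain ⟨S, hS⟩ : ∃ S : ℝ, ∀ N : ℕ, ∑ q ∈ Finset.Icc 1 N, 1 / (q : ℝ) ^ 2 ≤ S := by
    refine ⟨∑' q : ℕ, 1 / (q : ℝ) ^ 2, fun N => ?_⟩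
    exact (Real.summable_one_div_nat_pow.2 one_lt_two).sum_le_tsum _ fun _ _ => by positivity
  have hS0 : 0 ≤ S := le_trans (Finset.sum_nonneg fun _ _ => by positivity) (hS 0)
  refine ⟨3, 4 * 44 ^ 3 + 1500 * Real.pi * S, by positivity, fun Q hQ => ?_⟩
  have hn : (0 : ℝ) < 2 * Q + 1 := by positivity
  have hn1 : (1 : ℝ) ≤ 2 * Q + 1 := by
    have : (0 : ℝ) ≤ Q := by positivity
    linarith
  have hcont : Continuous fun θ : ℝ => R Q θ ^ 3 := (A3b_continuous_R Q).pow 3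
  have hterm : ∀ q : ℕ, ∀ a : ℤ, Continuous fun θ : ℝ =>
      500 / (q : ℝ) ^ 3 * (1 + ((2 * (Q : ℝ) + 1) ^ 2 * (θ - a / q)) ^ 2)⁻¹ := by
    intro q a
    apply Continuous.mul continuous_const
    apply Continuous.inv₀ (by fun_prop)
    intro θ
    positivity
  have hsum : Continuous fun θ : ℝ => ∑ q ∈ Finset.Icc 1 (4 * (2 * Q + 1)),
      ∑ a ∈ Finset.Icc (-(q : ℤ)) q, 500 / (q : ℝ) ^ 3 * (1 + ((2 * (Q : ℝ) + 1) ^ 2 * (θ - a / q)) ^ 2)⁻¹ :=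
    continuous_finsetSum _ fun q _ => continuous_finsetSum _ fun a _ => hterm q a
  have h1 : ∫ θ in (-(1 / 2) : ℝ)..(1 / 2), R Q θ ^ 3 ≤ ∫ θ in (-(1 / 2) : ℝ)..(1 / 2),
      (4 * (44 / (2 * (Q : ℝ) + 1)) ^ 3 + ∑ q ∈ Finset.Icc 1 (4 * (2 * Q + 1)),
      ∑ a ∈ Finset.Icc (-(q : ℤ)) q, 500 / (q : ℝ) ^ 3 * (1 + ((2 * (Q : ℝ) + 1) ^ 2 * (θ - a / q)) ^ 2)⁻¹) := by
    apply intervalIntegral.integral_mono_on (by norm_num) (hcont.intervalIntegrable _ _)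
      ((continuous_const.add hsum).intervalIntegrable _ _)
    intro θ hθ
    apply A3b_pointwise Q hQ θ
    rw [abs_le]
    exact ⟨by linarith [hθ.1], by linarith [hθ.2]⟩
  refine h1.trans ?_
  rw [intervalIntegral.integral_add (continuous_const.intervalIntegrable _ _) (hsum.intervalIntegrable _ _)]
  rw [intervalIntegral.integral_const]
  rw [intervalIntegral.integral_finsetSum (fun q _ => (continuous_finsetSum _ fun a _ => hterm q a).intervalIntegrable _ _)]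
  have h2 : ∑ q ∈ Finset.Icc 1 (4 * (2 * Q + 1)), ∫ θ in (-(1 / 2) : ℝ)..(1 / 2),
      ∑ a ∈ Finset.Icc (-(q : ℤ)) q, 500 / (q : ℝ) ^ 3 * (1 + ((2 * (Q : ℝ) + 1) ^ 2 * (θ - a / q)) ^ 2)⁻¹
      ≤ ∑ q ∈ Finset.Icc 1 (4 * (2 * Q + 1)), 1500 * Real.pi / (2 * (Q : ℝ) + 1) ^ 2 * (1 / (q : ℝ) ^ 2) := by
    apply Finset.sum_le_sum
    intro q hq
    have hq1 : 1 ≤ q := (Finset.mem_Icc.1 hq).1
    have hq0 : (0 : ℝ) < q := by exact_mod_cast hq1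
    rw [intervalIntegral.integral_finsetSum (fun a _ => (hterm q a).intervalIntegrable _ _)]
    have h3 : ∀ a ∈ Finset.Icc (-(q : ℤ)) q, ∫ θ in (-(1 / 2) : ℝ)..(1 / 2),
        500 / (q : ℝ) ^ 3 * (1 + ((2 * (Q : ℝ) + 1) ^ 2 * (θ - a / q)) ^ 2)⁻¹
        ≤ 500 / (q : ℝ) ^ 3 * (Real.pi / (2 * (Q : ℝ) + 1) ^ 2) := by
      intro a _
      rw [intervalIntegral.integral_const_mul]
      exact mul_le_mul_of_nonneg_left (A3b_integral _ _ (by positivity)) (by positivity)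
    refine (Finset.sum_le_sum h3).trans ?_
    rw [Finset.sum_const, nsmul_eq_mul, Int.card_Icc]
    have h4 : (((q : ℤ) + 1 - -(q : ℤ)).toNat : ℝ) ≤ 3 * q := by
      have : ((q : ℤ) + 1 - -(q : ℤ)).toNat = 2 * q + 1 := by omega
      rw [this]
      push_cast
      have : (1 : ℝ) ≤ q := by exact_mod_cast hq1
      linarith
    calc (((q : ℤ) + 1 - -(q : ℤ)).toNat : ℝ) * (500 / (q : ℝ) ^ 3 * (Real.pi / (2 * (Q : ℝ) + 1) ^ 2))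
        ≤ 3 * q * (500 / (q : ℝ) ^ 3 * (Real.pi / (2 * (Q : ℝ) + 1) ^ 2)) :=
          mul_le_mul_of_nonneg_right h4 (by positivity)
      _ = 1500 * Real.pi / (2 * (Q : ℝ) + 1) ^ 2 * (1 / (q : ℝ) ^ 2) := by
          field_simp
          ring
  have h5 : ∑ q ∈ Finset.Icc 1 (4 * (2 * Q + 1)), 1500 * Real.pi / (2 * (Q : ℝ) + 1) ^ 2 * (1 / (q : ℝ) ^ 2)
      ≤ 1500 * Real.pi / (2 * (Q : ℝ) + 1) ^ 2 * S := by
    rw [← Finset.mul_sum]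
    exact mul_le_mul_of_nonneg_left (hS _) (by positivity)
  have h6 : ((1 / 2 : ℝ) - -(1 / 2)) • (4 * (44 / (2 * (Q : ℝ) + 1)) ^ 3) ≤ 4 * 44 ^ 3 / (2 * (Q : ℝ) + 1) ^ 2 := by
    rw [smul_eq_mul]
    have : (1 / 2 - -(1 / 2) : ℝ) * (4 * (44 / (2 * (Q : ℝ) + 1)) ^ 3) = 4 * 44 ^ 3 / (2 * (Q : ℝ) + 1) ^ 3 := by
      field_simp
      norm_num
    rw [this]
    apply div_le_div_of_nonneg_left (by positivity) (by positivity)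
    exact pow_le_pow_right₀ hn1 (by norm_num)
  have h7 : (4 * 44 ^ 3 + 1500 * Real.pi * S) / (2 * (Q : ℝ) + 1) ^ 2
      = 4 * 44 ^ 3 / (2 * (Q : ℝ) + 1) ^ 2 + 1500 * Real.pi / (2 * (Q : ℝ) + 1) ^ 2 * S := by
    ring
  rw [h7]
  linarith [h2.trans h5]

end Pool.Agent.H923_Thick
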