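import Pool.Agent.H923_Thick.A1

/-!
# The bilinear exponential sum over full boxes

Product formula for the bilinear exponential sum over full boxes, and a lower bound for its factor.
-/

open Finset

namespace Pool.Agent.H923_Thick

theorem e1_add (x y : ℝ) : e1 (x + y) = e1 x * e1 y := by
  unfold e1
  rw [← Complex.exp_add]
  congr 1
  push_cast
  ring

theorem e1_sum {ι : Type*} (t : Finset ι) (f : ι → ℝ) : e1 (∑ i ∈ t, f i) = ∏ i ∈ t, e1 (f i) := by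
  classical
  induction t using Finset.induction_on with
  | empty => simp [e1]
  | insert a t ha ih => rw [Finset.sum_insert ha, Finset.prod_insert ha, e1_add, ih]

theorem norm_e1 (t : ℝ) : ‖e1 t‖ = 1 := by
  unfold e1
  have : (2 * Real.pi * t * Complex.I : ℂ) = ((2 * Real.pi * t : ℝ) : ℂ) * Complex.I := by push_cast; ring
  rw [this, Complex.norm_exp_ofReal_mul_I]

theorem e1_dot {K : ℕ} (θ : ℝ) (a b : Fin K → ℤ) : e1 (θ * (dot a b : ℤ)) = ∏ i, e1 (θ * a i * b i) := by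
  rw [← e1_sum]
  congr 1
  unfold dot
  push_cast
  rw [Finset.mul_sum]
  refine Finset.sum_congr rfl fun i _ => by ring

/-- inner sum over the box -/
theorem sum_e1_dot {K : ℕ} (Q : ℕ) (θ : ℝ) (a : Fin K → ℤ) :
    ∑ b ∈ BxK Q K, e1 (θ * (dot a b : ℤ)) = ∏ i, (((2 * Q + 1) * D Q (θ * a i) : ℝ) : ℂ) := by
  simp only [e1_dot]
  unfold BxK
  rw [← Finset.prod_univ_sum (fun _ => Bx Q) (fun i y => e1 (θ * a i * y))]
  refine Finset.prod_congr rfl fun i _ => sum_e1 Q _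

theorem T_one (Q K : ℕ) (θ : ℝ) : T Q K (fun _ => 1) (fun _ => 1) θ = (((2 * Q + 1) ^ 2 * s Q θ) ^ K : ℝ) := by
  have hn := npos Q
  unfold T
  simp only [Complex.ofReal_one, one_mul]
  simp only [sum_e1_dot]
  unfold BxK
  rw [← Finset.prod_univ_sum (fun _ => Bx Q) (fun _ x => (((2 * Q + 1) * D Q (θ * x) : ℝ) : ℂ))]
  have : ∑ x ∈ Bx Q, (((2 * Q + 1) * D Q (θ * x) : ℝ) : ℂ) = (((2 * Q + 1) ^ 2 * s Q θ : ℝ) : ℂ) := by
    rw [← Complex.ofReal_sum]
    congr 1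
    rw [← Finset.mul_sum]
    unfold s
    field_simp
  rw [this]
  simp

theorem continuous_s (Q : ℕ) : Continuous (s Q) := by
  unfold s
  have := continuous_D Q
  fun_prop

theorem abs_s_le (Q : ℕ) (θ : ℝ) : |s Q θ| ≤ 1 := by
  have hn := npos Q
  unfold s
  rw [abs_div, abs_of_pos hn, div_le_one hn]
  refine (Finset.abs_sum_le_sum_abs _ _).trans ?_
  refine (Finset.sum_le_card_nsmul _ _ 1 fun y _ => abs_D_le Q _).trans ?_
  rw [card_Bx]; simp

theorem s_ge (Q : ℕ) (θ : ℝ) : 1 - Real.pi ^ 2 / 72 * (θ ^ 2 * (2 * Q + 1) ^ 4) ≤ s Q θ := by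
  have hn := npos Q
  have h : 1 - s Q θ = (∑ x ∈ Bx Q, (1 - D Q (θ * x))) / (2 * Q + 1) := by
    unfold s
    rw [Finset.sum_sub_distrib, Finset.sum_const, card_Bx, nsmul_eq_mul, sub_div]
    congr 1
    push_cast
    field_simp
  have h2 : 1 - s Q θ ≤ Real.pi ^ 2 / 72 * (θ ^ 2 * (2 * Q + 1) ^ 4) := by
    rw [h, div_le_iff₀ hn]
    calc ∑ x ∈ Bx Q, (1 - D Q (θ * x)) ≤ ∑ x ∈ Bx Q, (Real.pi ^ 2 / 6 * (2 * Q + 1) ^ 2 * θ ^ 2) * (x : ℝ) ^ 2 := by
          refine Finset.sum_le_sum fun x _ => ?_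
          refine (one_sub_D_le Q _).trans (le_of_eq (by ring))
      _ = (Real.pi ^ 2 / 6 * (2 * Q + 1) ^ 2 * θ ^ 2) * (Q * (Q + 1) * (2 * Q + 1) / 3) := by
          rw [← Finset.mul_sum, sum_sq_Bx]
      _ ≤ Real.pi ^ 2 / 72 * (θ ^ 2 * (2 * Q + 1) ^ 4) * (2 * Q + 1) := by
          have e : 0 ≤ Real.pi ^ 2 * (2 * (Q : ℝ) + 1) ^ 3 * θ ^ 2 := by positivity
          have e2 : 4 * ((Q : ℝ) * (Q + 1)) ≤ (2 * Q + 1) ^ 2 := by nlinarith
          nlinarith [mul_le_mul_of_nonneg_left e2 e]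
  linarith

end Pool.Agent.H923_Thick
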