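import Pool.Agent.H923_Thick.A1
import Pool.Agent.H923_Thick.A5

/-! # A4: Cauchy-Schwarz -/

open Finset

namespace Pool.Agent.H923_Thick

theorem a4_card_BxK (Q K : ℕ) : (BxK Q K).card = (2 * Q + 1) ^ K := by
  unfold BxK
  rw [Fintype.card_piFinset]
  simp [card_Bx]

theorem R_nonneg (Q : ℕ) (θ : ℝ) : 0 ≤ R Q θ := by
  unfold R
  positivity

theorem R_le_one (Q : ℕ) (θ : ℝ) : R Q θ ≤ 1 := by
  have hn := npos Q
  unfold R
  rw [div_le_one (by positivity)]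
  calc ∑ x ∈ Bx Q, ∑ x' ∈ Bx Q, D Q (θ * ((x : ℝ) - x')) ^ 2
      ≤ ∑ x ∈ Bx Q, ∑ x' ∈ Bx Q, (1 : ℝ) := by
        refine Finset.sum_le_sum fun x _ => Finset.sum_le_sum fun x' _ => ?_
        have h := abs_D_le Q (θ * ((x : ℝ) - x'))
        rw [← sq_abs]
        exact pow_le_one₀ (abs_nonneg _) h
    _ = (2 * Q + 1) ^ 2 := by
        simp [card_Bx]
        ring

theorem continuous_R (Q : ℕ) : Continuous (R Q) := by
  unfold R
  have := continuous_D Q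
  fun_prop

theorem T_comm (Q K : ℕ) (f g : (Fin K → ℤ) → ℝ) (θ : ℝ) : T Q K f g θ = T Q K g f θ := by
  unfold T
  rw [Finset.sum_comm]
  refine Finset.sum_congr rfl fun b _ => Finset.sum_congr rfl fun a _ => ?_
  have h : dot a b = dot b a := by
    unfold dot
    exact Finset.sum_congr rfl fun i _ => mul_comm _ _
  rw [h]
  ring

theorem continuous_T (Q K : ℕ) (f g : (Fin K → ℤ) → ℝ) : Continuous (T Q K f g) := by
  unfold T e1
  fun_prop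

theorem a4_conj_e1 (t : ℝ) : (starRingEnd ℂ) (e1 t) = e1 (-t) := by
  unfold e1
  rw [← Complex.exp_conj]
  congr 1
  simp only [map_mul, Complex.conj_ofReal, Complex.conj_I, Complex.ofReal_neg, map_ofNat]
  ring

/-- double sums of products over boxes -/
theorem a4_prod (Q K : ℕ) (h : ℤ → ℤ → ℝ) :
    ∑ a ∈ BxK Q K, ∑ a' ∈ BxK Q K, ∏ i, h (a i) (a' i) = (∑ x ∈ Bx Q, ∑ x' ∈ Bx Q, h x x') ^ K := by
  have h1 : ∀ a : Fin K → ℤ, ∑ a' ∈ BxK Q K, ∏ i, h (a i) (a' i) = ∏ i, ∑ x' ∈ Bx Q, h (a i) x' := by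
    intro a
    unfold BxK
    rw [Finset.prod_univ_sum (fun _ => Bx Q) (fun i y => h (a i) y)]
  simp only [h1]
  unfold BxK
  rw [← Finset.prod_univ_sum (fun _ => Bx Q) (fun _ x => ∑ x' ∈ Bx Q, h x x')]
  simp

/-- the kernel -/
noncomputable def kap (Q : ℕ) {K : ℕ} (θ : ℝ) (a a' : Fin K → ℤ) : ℝ := ∏ i, D Q (θ * ((a i : ℝ) - a' i))

theorem a4_sum_kap (Q K : ℕ) (θ : ℝ) :
    ∑ a ∈ BxK Q K, ∑ a' ∈ BxK Q K, kap Q θ a a' = ((2 * Q + 1 : ℝ) ^ 2 * m Q θ) ^ K := by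
  have hn := npos Q
  unfold kap
  rw [a4_prod Q K fun x x' => D Q (θ * ((x : ℝ) - x'))]
  congr 1
  unfold m
  field_simp

theorem a4_sum_kap_sq (Q K : ℕ) (θ : ℝ) :
    ∑ a ∈ BxK Q K, ∑ a' ∈ BxK Q K, kap Q θ a a' ^ 2 = ((2 * Q + 1 : ℝ) ^ 2 * R Q θ) ^ K := by
  have hn := npos Q
  have h1 : ∀ a a' : Fin K → ℤ, kap Q θ a a' ^ 2 = ∏ i, D Q (θ * ((a i : ℝ) - a' i)) ^ 2 := by
    intro a a'
    unfold kap
    rw [Finset.prod_pow]
  simp only [h1]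
  rw [a4_prod Q K fun x x' => D Q (θ * ((x : ℝ) - x')) ^ 2]
  congr 1
  unfold R
  field_simp

theorem a4_sum_e1 (Q K : ℕ) (θ : ℝ) (a a' : Fin K → ℤ) :
    ∑ b ∈ BxK Q K, e1 (θ * (dot a b : ℤ)) * (starRingEnd ℂ) (e1 (θ * (dot a' b : ℤ))) =
      (((2 * Q + 1 : ℝ) ^ K * kap Q θ a a' : ℝ) : ℂ) := by
  have h1 : ∀ b : Fin K → ℤ, e1 (θ * (dot a b : ℤ)) * (starRingEnd ℂ) (e1 (θ * (dot a' b : ℤ))) =
      e1 (θ * (dot (fun i => a i - a' i) b : ℤ)) := by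
    intro b
    rw [a4_conj_e1, ← e1_add]
    congr 1
    unfold dot
    push_cast
    rw [← mul_neg, ← mul_add, ← sub_eq_add_neg, ← Finset.sum_sub_distrib]
    congr 1
    refine Finset.sum_congr rfl fun i _ => ?_
    ring
  simp only [h1]
  rw [sum_e1_dot]
  rw [← Complex.ofReal_prod]
  congr 1
  unfold kap
  rw [Finset.prod_mul_distrib]
  simp

/-- first application of Cauchy-Schwarz -/
theorem a4_first (Q K : ℕ) (f g : (Fin K → ℤ) → ℝ) (hg : ∀ a, |g a| ≤ 1) (θ : ℝ) :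
    ‖T Q K f g θ‖ ^ 2 ≤ (2 * Q + 1 : ℝ) ^ (2 * K) *
      ∑ a ∈ BxK Q K, ∑ a' ∈ BxK Q K, f a * f a' * kap Q θ a a' := by
  have hn := npos Q
  set F : (Fin K → ℤ) → ℂ := fun b => ∑ a ∈ BxK Q K, (f a : ℂ) * e1 (θ * (dot a b : ℤ)) with hF
  have h1 : T Q K f g θ = ∑ b ∈ BxK Q K, (g b : ℂ) * F b := by
    unfold T
    rw [Finset.sum_comm]
    refine Finset.sum_congr rfl fun b _ => ?_
    rw [hF, Finset.mul_sum]
    refine Finset.sum_congr rfl fun a _ => ?_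
    ring
  have h2 : ‖T Q K f g θ‖ ≤ ∑ b ∈ BxK Q K, ‖F b‖ := by
    rw [h1]
    refine (norm_sum_le _ _).trans (Finset.sum_le_sum fun b _ => ?_)
    rw [norm_mul, Complex.norm_real, Real.norm_eq_abs]
    exact mul_le_of_le_one_left (norm_nonneg _) (hg b)
  have h3 : (∑ b ∈ BxK Q K, ‖F b‖) ^ 2 ≤ (2 * Q + 1 : ℝ) ^ K * ∑ b ∈ BxK Q K, ‖F b‖ ^ 2 := by
    have := sq_sum_le_card_mul_sum_sq (s := BxK Q K) (f := fun b => ‖F b‖)
    rw [a4_card_BxK] at this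
    push_cast at this
    exact this
  have h4 : ((∑ b ∈ BxK Q K, ‖F b‖ ^ 2 : ℝ) : ℂ) =
      (((2 * Q + 1 : ℝ) ^ K * ∑ a ∈ BxK Q K, ∑ a' ∈ BxK Q K, f a * f a' * kap Q θ a a' : ℝ) : ℂ) := by
    have h5 : ∀ b, ((‖F b‖ ^ 2 : ℝ) : ℂ) = ∑ a ∈ BxK Q K, ∑ a' ∈ BxK Q K,
        ((f a : ℂ) * f a') * (e1 (θ * (dot a b : ℤ)) * (starRingEnd ℂ) (e1 (θ * (dot a' b : ℤ)))) := by
      intro b
      have h6 : ((‖F b‖ ^ 2 : ℝ) : ℂ) = F b * (starRingEnd ℂ) (F b) := by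
        rw [Complex.mul_conj, Complex.normSq_eq_norm_sq]
      rw [h6, hF]
      simp only [map_sum, map_mul, Complex.conj_ofReal]
      rw [Finset.sum_mul_sum]
      refine Finset.sum_congr rfl fun a _ => Finset.sum_congr rfl fun a' _ => ?_
      ring
    rw [Complex.ofReal_sum]
    simp only [h5]
    rw [Finset.sum_comm]
    have h7 : ∀ a ∈ BxK Q K, ∑ b ∈ BxK Q K, ∑ a' ∈ BxK Q K,
        ((f a : ℂ) * f a') * (e1 (θ * (dot a b : ℤ)) * (starRingEnd ℂ) (e1 (θ * (dot a' b : ℤ)))) =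
        ∑ a' ∈ BxK Q K, ((f a : ℂ) * f a') * (((2 * Q + 1 : ℝ) ^ K * kap Q θ a a' : ℝ) : ℂ) := by
      intro a _
      rw [Finset.sum_comm]
      refine Finset.sum_congr rfl fun a' _ => ?_
      rw [← Finset.mul_sum, a4_sum_e1]
    rw [Finset.sum_congr rfl h7]
    push_cast
    rw [Finset.mul_sum]
    refine Finset.sum_congr rfl fun a _ => ?_
    rw [Finset.mul_sum]
    refine Finset.sum_congr rfl fun a' _ => ?_
    ring
  have h8 := Complex.ofReal_injective h4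
  calc ‖T Q K f g θ‖ ^ 2 ≤ (∑ b ∈ BxK Q K, ‖F b‖) ^ 2 := by
        exact pow_le_pow_left₀ (norm_nonneg _) h2 2
    _ ≤ _ := h3
    _ = _ := by
        rw [h8, ← mul_assoc, ← pow_add]
        congr 2
        ring

/-- second application of Cauchy-Schwarz -/
theorem a4_second (Q K : ℕ) (f g : (Fin K → ℤ) → ℝ) (hf : ∀ a, |f a| ≤ 1) (hg : ∀ a, |g a| ≤ 1) (θ : ℝ)
    (k : (Fin K → ℤ) → (Fin K → ℤ) → ℝ)
    (hk : ∑ a ∈ BxK Q K, ∑ a' ∈ BxK Q K, f a * f a' * kap Q θ a a' =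
      ∑ a ∈ BxK Q K, ∑ a' ∈ BxK Q K, f a * f a' * k a a') :
    ‖T Q K f g θ‖ ^ 4 ≤ (2 * Q + 1 : ℝ) ^ (6 * K) * ∑ a ∈ BxK Q K, ∑ a' ∈ BxK Q K, k a a' ^ 2 := by
  have hn := npos Q
  have h1 := a4_first Q K f g hg θ
  rw [hk] at h1
  have h2 : ∑ a ∈ BxK Q K, ∑ a' ∈ BxK Q K, f a * f a' * k a a' ≤
      ∑ p ∈ BxK Q K ×ˢ BxK Q K, |k p.1 p.2| := by
    rw [Finset.sum_product]
    refine Finset.sum_le_sum fun a _ => Finset.sum_le_sum fun a' _ => ?_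
    refine (le_abs_self _).trans ?_
    rw [abs_mul, abs_mul]
    exact mul_le_of_le_one_left (abs_nonneg _)
      (mul_le_one₀ (hf a) (abs_nonneg _) (hf a'))
  have h3 : (∑ p ∈ BxK Q K ×ˢ BxK Q K, |k p.1 p.2|) ^ 2 ≤
      (2 * Q + 1 : ℝ) ^ (2 * K) * ∑ a ∈ BxK Q K, ∑ a' ∈ BxK Q K, k a a' ^ 2 := by
    have := sq_sum_le_card_mul_sum_sq (s := BxK Q K ×ˢ BxK Q K) (f := fun p => |k p.1 p.2|)
    rw [Finset.card_product, a4_card_BxK] at this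
    simp only [sq_abs] at this
    refine this.trans (le_of_eq ?_)
    rw [Finset.sum_product]
    push_cast
    rw [← pow_add]
    congr 2
    ring
  have h4 : 0 ≤ ∑ p ∈ BxK Q K ×ˢ BxK Q K, |k p.1 p.2| := Finset.sum_nonneg fun p _ => abs_nonneg _
  have h5 : ‖T Q K f g θ‖ ^ 2 ≤ (2 * Q + 1 : ℝ) ^ (2 * K) * ∑ p ∈ BxK Q K ×ˢ BxK Q K, |k p.1 p.2| :=
    h1.trans (mul_le_mul_of_nonneg_left h2 (by positivity))
  calc ‖T Q K f g θ‖ ^ 4 = (‖T Q K f g θ‖ ^ 2) ^ 2 := by ring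
    _ ≤ ((2 * Q + 1 : ℝ) ^ (2 * K) * ∑ p ∈ BxK Q K ×ˢ BxK Q K, |k p.1 p.2|) ^ 2 :=
        pow_le_pow_left₀ (by positivity) h5 2
    _ = (2 * Q + 1 : ℝ) ^ (4 * K) * (∑ p ∈ BxK Q K ×ˢ BxK Q K, |k p.1 p.2|) ^ 2 := by ring
    _ ≤ (2 * Q + 1 : ℝ) ^ (4 * K) * ((2 * Q + 1 : ℝ) ^ (2 * K) *
          ∑ a ∈ BxK Q K, ∑ a' ∈ BxK Q K, k a a' ^ 2) := mul_le_mul_of_nonneg_left h3 (by positivity)
    _ = _ := by
        rw [← mul_assoc, ← pow_add]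
        congr 2
        ring

theorem norm_T_le (Q K : ℕ) (f g : (Fin K → ℤ) → ℝ) (hf : ∀ a, |f a| ≤ 1) (hg : ∀ a, |g a| ≤ 1) (θ : ℝ) :
    ‖T Q K f g θ‖ ^ 4 ≤ (2 * Q + 1 : ℝ) ^ (8 * K) * R Q θ ^ K := by
  have h := a4_second Q K f g hf hg θ (kap Q θ) rfl
  rw [a4_sum_kap_sq, mul_pow, ← pow_mul, ← mul_assoc, ← pow_add] at h
  refine h.trans (le_of_eq ?_)
  congr 2
  ring

theorem a4_var (Q : ℕ) (θ : ℝ) : m Q θ ^ 2 ≤ R Q θ ∧
    R Q θ - m Q θ ^ 2 ≤ (Real.pi ^ 2 / 6 * θ ^ 2 * (2 * Q + 1) ^ 4) ^ 2 := by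
  have hn := npos Q
  have key : ∀ c : ℝ, (∑ x ∈ Bx Q, ∑ x' ∈ Bx Q, (D Q (θ * ((x : ℝ) - x')) - c) ^ 2) / (2 * Q + 1) ^ 2 =
      R Q θ - 2 * c * m Q θ + c ^ 2 := by
    intro c
    have h1 : ∀ x x' : ℤ, (D Q (θ * ((x : ℝ) - x')) - c) ^ 2 =
        D Q (θ * ((x : ℝ) - x')) ^ 2 - 2 * c * D Q (θ * ((x : ℝ) - x')) + c ^ 2 := by
      intro x x'
      ring
    simp only [h1, Finset.sum_add_distrib, Finset.sum_sub_distrib, ← Finset.mul_sum, Finset.sum_const, card_Bx,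
      nsmul_eq_mul]
    unfold R m
    push_cast
    field_simp
  constructor
  · have h := key (m Q θ)
    have h2 : 0 ≤ (∑ x ∈ Bx Q, ∑ x' ∈ Bx Q, (D Q (θ * ((x : ℝ) - x')) - m Q θ) ^ 2) / (2 * (Q : ℝ) + 1) ^ 2 := by
      positivity
    nlinarith
  · have h := key 1
    have h2 : (∑ x ∈ Bx Q, ∑ x' ∈ Bx Q, (D Q (θ * ((x : ℝ) - x')) - 1) ^ 2) / (2 * (Q : ℝ) + 1) ^ 2 ≤
        (Real.pi ^ 2 / 6 * θ ^ 2 * (2 * Q + 1) ^ 4) ^ 2 := by
      rw [div_le_iff₀ (by positivity)]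
      calc ∑ x ∈ Bx Q, ∑ x' ∈ Bx Q, (D Q (θ * ((x : ℝ) - x')) - 1) ^ 2
          ≤ ∑ x ∈ Bx Q, ∑ x' ∈ Bx Q, (Real.pi ^ 2 / 6 * θ ^ 2 * (2 * Q + 1) ^ 4) ^ 2 := by
            refine Finset.sum_le_sum fun x hx => Finset.sum_le_sum fun x' hx' => ?_
            have hx1 : |(x : ℝ)| ≤ Q := by
              have := mem_Bx.mp hx
              exact_mod_cast this
            have hx2 : |(x' : ℝ)| ≤ Q := by
              have := mem_Bx.mp hx'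
              exact_mod_cast this
            have h3 := one_sub_D_le Q (θ * ((x : ℝ) - x'))
            have h4 : 0 ≤ 1 - D Q (θ * ((x : ℝ) - x')) := by
              have := (abs_le.mp (abs_D_le Q (θ * ((x : ℝ) - x')))).2
              linarith
            have h5 : ((x : ℝ) - x') ^ 2 ≤ (2 * Q + 1) ^ 2 := by
              rw [← sq_abs]
              refine pow_le_pow_left₀ (abs_nonneg _) ?_ 2
              refine (abs_sub _ _).trans ?_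
              linarith
            have h6 : Real.pi ^ 2 / 6 * (2 * Q + 1) ^ 2 * (θ * ((x : ℝ) - x')) ^ 2 ≤
                Real.pi ^ 2 / 6 * θ ^ 2 * (2 * Q + 1) ^ 4 := by
              have : 0 ≤ Real.pi ^ 2 / 6 * (2 * (Q : ℝ) + 1) ^ 2 * θ ^ 2 := by positivity
              nlinarith [mul_le_mul_of_nonneg_left h5 this]
            have h7 : (D Q (θ * ((x : ℝ) - x')) - 1) ^ 2 = (1 - D Q (θ * ((x : ℝ) - x'))) ^ 2 := by ring
            rw [h7]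
            exact pow_le_pow_left₀ h4 (h3.trans h6) 2
        _ = _ := by
            simp only [Finset.sum_const, card_Bx, nsmul_eq_mul]
            push_cast
            ring
    nlinarith [sq_nonneg (m Q θ - 1)]

theorem a4_pow_sub (K : ℕ) (hK : 1 ≤ K) (x y : ℝ) (hy : 0 ≤ y) (hxy : y ≤ x) :
    x ^ K - y ^ K ≤ K * (x - y) * x ^ (K - 1) := by
  have hx : 0 ≤ x := hy.trans hxy
  induction K with
  | zero => omega
  | succ K ih =>
    rcases Nat.eq_zero_or_pos K with h0 | hpos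
    · subst h0
      simp
    · have h1 := ih hpos
      have h2 : y ^ K ≤ x ^ K := pow_le_pow_left₀ hy hxy K
      have h3 : x ^ (K + 1) - y ^ (K + 1) = x * (x ^ K - y ^ K) + (x - y) * y ^ K := by ring
      have h4 : x * x ^ (K - 1) = x ^ K := by
        rw [← pow_succ']
        congr 1
        omega
      rw [h3]
      have h5 := mul_le_mul_of_nonneg_left h1 hx
      have h6 : x * (K * (x - y) * x ^ (K - 1)) = K * (x - y) * x ^ K := by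
        rw [← h4]
        ring
      have h7 : (x - y) * y ^ K ≤ (x - y) * x ^ K := mul_le_mul_of_nonneg_left h2 (by linarith)
      rw [h6] at h5
      rw [Nat.add_sub_cancel]
      push_cast
      nlinarith

theorem norm_T_le_of_sum_zero (Q K : ℕ) (hK : 1 ≤ K) (f g : (Fin K → ℤ) → ℝ) (hf : ∀ a, |f a| ≤ 1)
    (hg : ∀ a, |g a| ≤ 1) (h0 : ∑ a ∈ BxK Q K, f a = 0) (θ : ℝ) :
    ‖T Q K f g θ‖ ^ 4 ≤ (2 * Q + 1 : ℝ) ^ (8 * K) *
      (K * (Real.pi ^ 2 / 6 * θ ^ 2 * (2 * Q + 1) ^ 4) ^ 2 * R Q θ ^ (K - 1)) := by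
  have hn := npos Q
  have h := a4_second Q K f g hf hg θ (fun a a' => kap Q θ a a' - m Q θ ^ K) (by
    have h1 : ∀ a a' : Fin K → ℤ, f a * f a' * (kap Q θ a a' - m Q θ ^ K) =
        f a * f a' * kap Q θ a a' - m Q θ ^ K * f a * f a' := by
      intro a a'
      ring
    simp only [h1, Finset.sum_sub_distrib, ← Finset.mul_sum, h0, mul_zero, sub_zero])
  have h2 : ∑ a ∈ BxK Q K, ∑ a' ∈ BxK Q K, (kap Q θ a a' - m Q θ ^ K) ^ 2 =
      (2 * Q + 1 : ℝ) ^ (2 * K) * (R Q θ ^ K - (m Q θ ^ 2) ^ K) := by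
    have h3 : ∀ a a' : Fin K → ℤ, (kap Q θ a a' - m Q θ ^ K) ^ 2 =
        kap Q θ a a' ^ 2 - 2 * m Q θ ^ K * kap Q θ a a' + (m Q θ ^ K) ^ 2 := by
      intro a a'
      ring
    simp only [h3, Finset.sum_add_distrib, Finset.sum_sub_distrib, ← Finset.mul_sum, a4_sum_kap_sq, a4_sum_kap,
      Finset.sum_const, a4_card_BxK, nsmul_eq_mul]
    push_cast
    rw [mul_pow, mul_pow, ← pow_mul, ← pow_mul, ← pow_mul]
    ring
  rw [h2, ← mul_assoc, ← pow_add] at h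
  have h8 : 6 * K + 2 * K = 8 * K := by ring
  rw [h8] at h
  refine h.trans (mul_le_mul_of_nonneg_left ?_ (by positivity))
  have hv := a4_var Q θ
  have h9 := a4_pow_sub K hK (R Q θ) (m Q θ ^ 2) (sq_nonneg _) hv.1
  refine h9.trans ?_
  have hR := R_nonneg Q θ
  refine mul_le_mul_of_nonneg_right ?_ (by positivity)
  exact mul_le_mul_of_nonneg_left hv.2 (by positivity)

end Pool.Agent.H923_Thick
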