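import Pool.Agent.H923_Thick.A2
import Pool.Agent.H923_Thick.A3b
import Pool.Agent.H923_Thick.A4
import Pool.Agent.H923_Thick.A5

/-!
# Dense sets realise all moderate inner products

The circle method for the bilinear exponential sum.
-/

open Finset

namespace Pool.Agent.H923_Thick

/-! ## Bilinearity -/

theorem T_add_left (Q K : ℕ) (f f' g : (Fin K → ℤ) → ℝ) (θ : ℝ) :
    T Q K (fun a => f a + f' a) g θ = T Q K f g θ + T Q K f' g θ := by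
  unfold T
  rw [← Finset.sum_add_distrib]
  refine Finset.sum_congr rfl fun a _ => ?_
  rw [← Finset.sum_add_distrib]
  refine Finset.sum_congr rfl fun b _ => ?_
  push_cast; ring

theorem T_smul_left (Q K : ℕ) (c : ℝ) (f g : (Fin K → ℤ) → ℝ) (θ : ℝ) :
    T Q K (fun a => c * f a) g θ = c * T Q K f g θ := by
  unfold T
  rw [Finset.mul_sum]
  refine Finset.sum_congr rfl fun a _ => ?_
  rw [Finset.mul_sum]
  refine Finset.sum_congr rfl fun b _ => ?_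
  push_cast; ring

/-- indicator function -/
noncomputable def ind {K : ℕ} (A : Finset (Fin K → ℤ)) (a : Fin K → ℤ) : ℝ := by
  classical exact if a ∈ A then 1 else 0

theorem T_split_left (Q K : ℕ) (f g : (Fin K → ℤ) → ℝ) (α : ℝ) (θ : ℝ) :
    T Q K f g θ = T Q K (fun a => f a - α) g θ + α * T Q K (fun _ => 1) g θ := by
  rw [← T_smul_left, ← T_add_left]
  congr 1
  funext a
  ring

theorem T_decomp (Q K : ℕ) (f g : (Fin K → ℤ) → ℝ) (α β : ℝ) (θ : ℝ) :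
    T Q K f g θ = T Q K (fun a => f a - α) g θ + α * T Q K (fun b => g b - β) (fun _ => 1) θ
      + α * β * T Q K (fun _ => 1) (fun _ => 1) θ := by
  rw [T_split_left Q K f g α, T_comm Q K (fun _ => 1) g, T_split_left Q K g (fun _ => 1) β]
  ring

/-! ## Fourier inversion -/

theorem continuous_e1 : Continuous e1 := by
  unfold e1
  fun_prop

theorem integral_e1_int (k : ℤ) (hk : k ≠ 0) : ∫ θ in (-(1 / 2) : ℝ)..(1 / 2), e1 (θ * k) = 0 := by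
  have hpi := Real.pi_ne_zero
  have hc : (2 * Real.pi * k * Complex.I : ℂ) ≠ 0 := by
    have : (k : ℂ) ≠ 0 := by exact_mod_cast hk
    have : (Real.pi : ℂ) ≠ 0 := by exact_mod_cast hpi
    simp_all
  have h1 : ∀ θ : ℝ, e1 (θ * k) = Complex.exp ((2 * Real.pi * k * Complex.I) * θ) := by
    intro θ
    unfold e1
    congr 1
    push_cast; ring
  simp only [h1]
  rw [integral_exp_mul_complex hc]
  have h2 : Complex.exp ((2 * Real.pi * k * Complex.I) * ((1 / 2 : ℝ) : ℂ)) =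
      Complex.exp ((2 * Real.pi * k * Complex.I) * ((-(1 / 2) : ℝ) : ℂ)) := by
    rw [Complex.exp_eq_exp_iff_exists_int]
    refine ⟨k, ?_⟩
    push_cast; ring
  rw [h2, sub_self, zero_div]

theorem integral_T_zero (Q K : ℕ) (A B : Finset (Fin K → ℤ)) (h : ℤ)
    (hno : ∀ a ∈ A, ∀ b ∈ B, dot a b ≠ h) :
    ∫ θ in (-(1 / 2) : ℝ)..(1 / 2), T Q K (ind A) (ind B) θ * e1 (θ * (-h : ℤ)) = 0 := by
  have h1 : ∀ θ : ℝ, T Q K (ind A) (ind B) θ * e1 (θ * (-h : ℤ)) =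
      ∑ a ∈ BxK Q K, ∑ b ∈ BxK Q K, (ind A a : ℂ) * (ind B b : ℂ) * e1 (θ * (dot a b - h : ℤ)) := by
    intro θ
    unfold T
    rw [Finset.sum_mul]
    refine Finset.sum_congr rfl fun a _ => ?_
    rw [Finset.sum_mul]
    refine Finset.sum_congr rfl fun b _ => ?_
    have : θ * ((dot a b - h : ℤ) : ℝ) = θ * (dot a b : ℤ) + θ * (-h : ℤ) := by push_cast; ring
    rw [this, e1_add]
    ring
  simp only [h1]
  have hcont : ∀ k : ℤ, ∀ c : ℂ, Continuous fun θ : ℝ => c * e1 (θ * k) := by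
    intro k c
    have := continuous_e1
    fun_prop
  rw [intervalIntegral.integral_finsetSum]
  · refine Finset.sum_eq_zero fun a _ => ?_
    rw [intervalIntegral.integral_finsetSum]
    · refine Finset.sum_eq_zero fun b _ => ?_
      by_cases ha : a ∈ A
      · by_cases hb : b ∈ B
        · rw [intervalIntegral.integral_const_mul, integral_e1_int _ (sub_ne_zero.2 (hno a ha b hb)), mul_zero]
        · simp [ind, hb]
      · simp [ind, ha]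
    · intro b _
      exact (hcont _ _).intervalIntegrable _ _
  · intro a _
    refine Continuous.intervalIntegrable ?_ _ _
    exact continuous_finsetSum _ fun b _ => hcont _ _

theorem integral_re_zero (Q K : ℕ) (A B : Finset (Fin K → ℤ)) (h : ℤ)
    (hno : ∀ a ∈ A, ∀ b ∈ B, dot a b ≠ h) :
    ∫ θ in (-(1 / 2) : ℝ)..(1 / 2), (T Q K (ind A) (ind B) θ * e1 (θ * (-h : ℤ))).re = 0 := by
  have hc : Continuous fun θ : ℝ => T Q K (ind A) (ind B) θ * e1 (θ * (-h : ℤ)) := by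
    have h1 := continuous_e1
    have h2 := continuous_T Q K (ind A) (ind B)
    fun_prop
  have := Complex.reCLM.intervalIntegral_comp_comm (hc.intervalIntegrable (μ := MeasureTheory.volume) (-(1 / 2)) (1 / 2))
  simp only [Complex.reCLM_apply] at this
  rw [this, integral_T_zero Q K A B h hno]
  simp

/-! ## Pointwise bounds -/

theorem near_err {c : ℝ} (hA2 : ∀ Q : ℕ, 1 ≤ Q → ∀ θ : ℝ, |θ| ≤ 1 / 2 →
    R Q θ ≤ 1 - c * min 1 (θ ^ 2 * (2 * Q + 1) ^ 4)) (Q M : ℕ) (hQ : 1 ≤ Q) (hM : 1 ≤ M)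
    (f g : (Fin (256 * M ^ 4) → ℤ) → ℝ) (hf : ∀ a, |f a| ≤ 1)
    (hg : ∀ a, |g a| ≤ 1) (h0 : ∑ a ∈ BxK Q (256 * M ^ 4), f a = 0) (θ : ℝ)
    (hθ : |θ| ≤ 1 / (2 * Q + 1) ^ 2) :
    ‖T Q (256 * M ^ 4) f g θ‖ ≤ (2 * Q + 1 : ℝ) ^ (2 * (256 * M ^ 4)) *
      (8 * M * (|θ| * (2 * Q + 1) ^ 2 *
        Real.exp (-(c * (256 * M ^ 4 - 1) / 4) * (θ ^ 2 * ((2 * Q + 1) ^ 2) ^ 2)))) := by
  have hn := npos Q
  have hK : 1 ≤ 256 * M ^ 4 := by
    have : 1 ≤ M ^ 4 := Nat.one_le_pow _ _ hM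
    omega
  set n : ℝ := 2 * Q + 1 with hndef
  have hQ' : (1 : ℝ) ≤ Q := by exact_mod_cast hQ
  have hn3 : 3 ≤ n := by rw [hndef]; linarith
  have h12 : |θ| ≤ 1 / 2 := by
    refine hθ.trans ?_
    rw [div_le_div_iff₀ (by positivity) (by norm_num)]
    nlinarith
  have hmin : θ ^ 2 * n ^ 4 ≤ 1 := by
    have h1 : |θ| * n ^ 2 ≤ 1 := by
      rw [le_div_iff₀ (by positivity)] at hθ; exact hθ
    have h2 : (|θ| * n ^ 2) ^ 2 ≤ 1 := by
      have : 0 ≤ |θ| * n ^ 2 := by positivity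
      nlinarith
    calc θ ^ 2 * n ^ 4 = (|θ| * n ^ 2) ^ 2 := by rw [mul_pow, sq_abs]; ring
      _ ≤ 1 := h2
  have hR : R Q θ ≤ Real.exp (-c * (θ ^ 2 * n ^ 4)) := by
    have h1 := hA2 Q hQ θ h12
    rw [min_eq_right hmin] at h1
    have h2 := Real.add_one_le_exp (-c * (θ ^ 2 * n ^ 4))
    linarith
  have hRK : R Q θ ^ (256 * M ^ 4 - 1) ≤ Real.exp (-(c * (256 * M ^ 4 - 1)) * (θ ^ 2 * n ^ 4)) := by
    calc R Q θ ^ (256 * M ^ 4 - 1) ≤ Real.exp (-c * (θ ^ 2 * n ^ 4)) ^ (256 * M ^ 4 - 1) :=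
          pow_le_pow_left₀ (R_nonneg Q θ) hR _
      _ = Real.exp (-(c * (256 * M ^ 4 - 1)) * (θ ^ 2 * n ^ 4)) := by
          rw [← Real.exp_nat_mul]
          congr 1
          rw [Nat.cast_sub hK]
          push_cast
          ring
  rw [← pow_le_pow_iff_left₀ (norm_nonneg _) (by positivity) (n := 4) (by norm_num)]
  have hmain := norm_T_le_of_sum_zero Q _ hK f g hf hg h0 θ
  rw [← hndef] at hmain
  refine hmain.trans ?_
  have hexp : Real.exp (-(c * (256 * M ^ 4 - 1) / 4) * (θ ^ 2 * (n ^ 2) ^ 2)) ^ 4 =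
      Real.exp (-(c * (256 * M ^ 4 - 1)) * (θ ^ 2 * n ^ 4)) := by
    rw [← Real.exp_nat_mul]
    congr 1
    push_cast
    ring
  have hpi : Real.pi ^ 4 ≤ 576 := by
    have h1 := Real.pi_le_four
    have h2 := Real.pi_pos
    have h3 : Real.pi ^ 2 ≤ 16 := by nlinarith
    have h4 : Real.pi < 3.15 := Real.pi_lt_d2
    have h5 : Real.pi ^ 2 ≤ 10 := by nlinarith
    nlinarith
  rw [mul_pow (n ^ (2 * (256 * M ^ 4))), mul_pow (8 * (M : ℝ)), mul_pow (|θ| * n ^ 2) (Real.exp _), hexp, ← pow_mul]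
  rw [show 2 * (256 * M ^ 4) * 4 = 8 * (256 * M ^ 4) by ring]
  refine mul_le_mul_of_nonneg_left ?_ (by positivity)
  have habs : (|θ| * n ^ 2) ^ 4 = θ ^ 4 * n ^ 8 := by
    rw [mul_pow, show |θ| ^ 4 = (|θ| ^ 2) ^ 2 by ring, sq_abs]; ring
  rw [habs]
  calc ((256 * M ^ 4 : ℕ) : ℝ) * (Real.pi ^ 2 / 6 * θ ^ 2 * n ^ 4) ^ 2 * R Q θ ^ (256 * M ^ 4 - 1)
      = (256 * (M : ℝ) ^ 4 * (θ ^ 4 * n ^ 8)) * (Real.pi ^ 4 / 36) * R Q θ ^ (256 * M ^ 4 - 1) := by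
        push_cast; ring
    _ ≤ (256 * (M : ℝ) ^ 4 * (θ ^ 4 * n ^ 8)) * 16 *
        Real.exp (-(c * (256 * M ^ 4 - 1)) * (θ ^ 2 * n ^ 4)) := by
        have e1 : 0 ≤ 256 * (M : ℝ) ^ 4 * (θ ^ 4 * n ^ 8) := by positivity
        have e2 : Real.pi ^ 4 / 36 ≤ 16 := by linarith
        have e3 : 0 ≤ R Q θ ^ (256 * M ^ 4 - 1) := pow_nonneg (R_nonneg Q θ) _
        refine mul_le_mul (mul_le_mul_of_nonneg_left e2 e1) hRK e3 (by positivity)
    _ = (8 * (M : ℝ)) ^ 4 * (θ ^ 4 * n ^ 8 * Real.exp (-(c * (256 * M ^ 4 - 1)) * (θ ^ 2 * n ^ 4))) := by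
        ring

theorem far_bound {c : ℝ} (hA2 : ∀ Q : ℕ, 1 ≤ Q → ∀ θ : ℝ, |θ| ≤ 1 / 2 →
    R Q θ ≤ 1 - c * min 1 (θ ^ 2 * (2 * Q + 1) ^ 4)) (Q M p : ℕ) (hQ : 1 ≤ Q) (hp : p ≤ 64 * M ^ 4)
    (f g : (Fin (256 * M ^ 4) → ℤ) → ℝ) (hf : ∀ a, |f a| ≤ 1)
    (hg : ∀ a, |g a| ≤ 1) (θ : ℝ)
    (hθ : 1 / (2 * Q + 1) ^ 2 ≤ |θ|) (h12 : |θ| ≤ 1 / 2) :
    ‖T Q (256 * M ^ 4) f g θ‖ ≤ (2 * Q + 1 : ℝ) ^ (2 * (256 * M ^ 4)) *
      ((1 - c) ^ (64 * M ^ 4 - p) * R Q θ ^ p) := by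
  have hn := npos Q
  set n : ℝ := 2 * Q + 1 with hndef
  have hR0 := R_nonneg Q θ
  have hmin : 1 ≤ θ ^ 2 * n ^ 4 := by
    have h1 : 1 ≤ |θ| * n ^ 2 := by
      rw [div_le_iff₀ (by positivity)] at hθ; exact hθ
    calc (1 : ℝ) ≤ (|θ| * n ^ 2) ^ 2 := by nlinarith
      _ = θ ^ 2 * n ^ 4 := by rw [mul_pow, sq_abs]; ring
  have hR : R Q θ ≤ 1 - c := by
    have h1 := hA2 Q hQ θ h12
    rw [min_eq_left hmin] at h1
    linarith
  have h1 : ‖T Q (256 * M ^ 4) f g θ‖ ≤ n ^ (2 * (256 * M ^ 4)) * R Q θ ^ (64 * M ^ 4) := by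
    rw [← pow_le_pow_iff_left₀ (norm_nonneg _) (by positivity) (n := 4) (by norm_num)]
    refine (norm_T_le Q _ f g hf hg θ).trans (le_of_eq ?_)
    rw [mul_pow, ← pow_mul, ← pow_mul]
    congr 2 <;> ring
  refine h1.trans (mul_le_mul_of_nonneg_left ?_ (by positivity))
  calc R Q θ ^ (64 * M ^ 4) = R Q θ ^ (64 * M ^ 4 - p) * R Q θ ^ p := by
        rw [← pow_add, Nat.sub_add_cancel hp]
    _ ≤ (1 - c) ^ (64 * M ^ 4 - p) * R Q θ ^ p := by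
        refine mul_le_mul_of_nonneg_right (pow_le_pow_left₀ hR0 hR _) (by positivity)

/-! ## The main term -/

theorem cos_ge_half {x : ℝ} (hx : |x| ≤ Real.pi / 3) : 1 / 2 ≤ Real.cos x := by
  have hpi := Real.pi_pos
  rw [← Real.cos_abs, ← Real.cos_pi_div_three]
  exact Real.cos_le_cos_of_nonneg_of_le_pi (abs_nonneg _) (by linarith) hx

theorem e1_re (t : ℝ) : (e1 t).re = Real.cos (2 * Real.pi * t) := by
  unfold e1
  have : (2 * Real.pi * t * Complex.I : ℂ) = ((2 * Real.pi * t : ℝ) : ℂ) * Complex.I := by push_cast; ring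
  rw [this, Complex.exp_ofReal_mul_I_re]

theorem s_nonneg_near (Q : ℕ) (θ : ℝ) (hθ : |θ| ≤ 1 / (2 * Q + 1) ^ 2) : 0 ≤ s Q θ := by
  have hn := npos Q
  set n : ℝ := 2 * Q + 1 with hndef
  have hmin : θ ^ 2 * n ^ 4 ≤ 1 := by
    have h1 : |θ| * n ^ 2 ≤ 1 := by
      rw [le_div_iff₀ (by positivity)] at hθ; exact hθ
    have h2 : (|θ| * n ^ 2) ^ 2 ≤ 1 := by
      have : 0 ≤ |θ| * n ^ 2 := by positivity
      nlinarith
    calc θ ^ 2 * n ^ 4 = (|θ| * n ^ 2) ^ 2 := by rw [mul_pow, sq_abs]; ring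
      _ ≤ 1 := h2
  have h := s_ge Q θ
  rw [← hndef] at h
  have h4 : Real.pi < 3.15 := Real.pi_lt_d2
  have h2 := Real.pi_pos
  have h5 : Real.pi ^ 2 ≤ 10 := by nlinarith
  have h6 : 0 ≤ θ ^ 2 * n ^ 4 := by positivity
  nlinarith

theorem main_re (Q K : ℕ) (α β : ℝ) (hα : 1 / 6 ≤ α) (hβ : 1 / 6 ≤ β) (h : ℤ)
    (hh : 6 * |h| ≤ (2 * Q + 1) ^ 2) (θ : ℝ) (hθ : |θ| ≤ 1 / (2 * Q + 1) ^ 2) :
    (2 * Q + 1 : ℝ) ^ (2 * K) * (s Q θ ^ K / 72) ≤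
      ((α * β * T Q K (fun _ => 1) (fun _ => 1) θ) * e1 (θ * (-h : ℤ))).re := by
  have hn := npos Q
  set n : ℝ := 2 * Q + 1 with hndef
  have hs := s_nonneg_near Q θ (by rw [← hndef]; exact hθ)
  have hcos : 1 / 2 ≤ Real.cos (2 * Real.pi * (θ * (-h : ℤ))) := by
    refine cos_ge_half ?_
    have h1 : |θ| * n ^ 2 ≤ 1 := by
      rw [le_div_iff₀ (by positivity)] at hθ; exact hθ
    have h2 : 6 * |(h : ℝ)| ≤ n ^ 2 := by
      rw [hndef]
      exact_mod_cast hh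
    have h3 : 6 * (|θ| * |(h : ℝ)|) ≤ 1 := by
      have : |θ| * (6 * |(h : ℝ)|) ≤ |θ| * n ^ 2 := mul_le_mul_of_nonneg_left h2 (abs_nonneg _)
      linarith
    have h4 : |2 * Real.pi * (θ * ((-h : ℤ) : ℝ))| = 2 * Real.pi * (|θ| * |(h : ℝ)|) := by
      push_cast
      rw [abs_mul, abs_mul, abs_mul, abs_neg, abs_of_pos Real.pi_pos]
      norm_num
    rw [h4]
    nlinarith [Real.pi_pos]
  have hre : ((α * β * T Q K (fun _ => 1) (fun _ => 1) θ) * e1 (θ * (-h : ℤ))).re =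
      α * β * (n ^ 2 * s Q θ) ^ K * Real.cos (2 * Real.pi * (θ * (-h : ℤ))) := by
    rw [T_one, ← Complex.ofReal_mul, ← Complex.ofReal_mul, Complex.re_ofReal_mul, e1_re]
  rw [hre, mul_pow, ← pow_mul]
  have e1 : 0 ≤ n ^ (2 * K) * s Q θ ^ K := by positivity
  have e2 : 1 / 36 ≤ α * β := by nlinarith
  have e3 : 1 / 72 ≤ α * β * Real.cos (2 * Real.pi * (θ * (-h : ℤ))) := by nlinarith
  calc n ^ (2 * K) * (s Q θ ^ K / 72) = (n ^ (2 * K) * s Q θ ^ K) * (1 / 72) := by ring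
    _ ≤ (n ^ (2 * K) * s Q θ ^ K) * (α * β * Real.cos (2 * Real.pi * (θ * (-h : ℤ)))) :=
        mul_le_mul_of_nonneg_left e3 e1
    _ = _ := by ring

theorem s_pow_ge (Q M : ℕ) (hM : 1 ≤ M) (θ : ℝ) (hθ : |θ| ≤ 1 / (16 * M ^ 2 * (2 * Q + 1) ^ 2)) :
    1 / 2 ≤ s Q θ ^ (256 * M ^ 4) := by
  have hn := npos Q
  set n : ℝ := 2 * Q + 1 with hndef
  have hM' : (1 : ℝ) ≤ M := by exact_mod_cast hM
  have hu : θ ^ 2 * n ^ 4 * (256 * M ^ 4) ≤ 1 := by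
    have h1 : |θ| * (16 * M ^ 2 * n ^ 2) ≤ 1 := by
      rw [le_div_iff₀ (by positivity)] at hθ; exact hθ
    have h2 : (|θ| * (16 * M ^ 2 * n ^ 2)) ^ 2 ≤ 1 := by
      have : 0 ≤ |θ| * (16 * M ^ 2 * n ^ 2) := by positivity
      nlinarith
    calc θ ^ 2 * n ^ 4 * (256 * M ^ 4) = (|θ| * (16 * M ^ 2 * n ^ 2)) ^ 2 := by rw [mul_pow, sq_abs]; ring
      _ ≤ 1 := h2
  have h := s_ge Q θ
  rw [← hndef] at h
  have h4 : Real.pi < 3.15 := Real.pi_lt_d2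
  have h2 := Real.pi_pos
  have h5 : Real.pi ^ 2 ≤ 10 := by nlinarith
  have h6 : 0 ≤ θ ^ 2 * n ^ 4 := by positivity
  have hM4 : (1 : ℝ) ≤ M ^ 4 := one_le_pow₀ hM'
  have h7 : θ ^ 2 * n ^ 4 ≤ 1 := by nlinarith
  set a : ℝ := Real.pi ^ 2 / 72 * (θ ^ 2 * n ^ 4) with ha
  have ha0 : 0 ≤ a := by positivity
  have ha1 : a ≤ 1 := by rw [ha]; nlinarith
  have hb := one_add_mul_le_pow (a := -a) (by linarith) (256 * M ^ 4)
  have hc : (1 + -a) ^ (256 * M ^ 4) ≤ s Q θ ^ (256 * M ^ 4) :=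
    pow_le_pow_left₀ (by linarith) (by linarith) _
  refine le_trans ?_ (hb.trans hc)
  have hd : ((256 * M ^ 4 : ℕ) : ℝ) * -a = -(Real.pi ^ 2 / 72 * (θ ^ 2 * n ^ 4 * (256 * M ^ 4))) := by
    rw [ha]; push_cast; ring
  rw [hd]
  have h8 : Real.pi ^ 2 / 72 * (θ ^ 2 * n ^ 4 * (256 * M ^ 4)) ≤ Real.pi ^ 2 / 72 * 1 :=
    mul_le_mul_of_nonneg_left hu (by positivity)
  nlinarith

/-! ## Integrals -/

theorem hasDerivAt_gauss (κ N : ℝ) (hκ : 0 < κ) (hN : 0 < N) (x : ℝ) :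
    HasDerivAt (fun θ : ℝ => -(1 / (2 * κ * N)) * Real.exp (-κ * (θ ^ 2 * N ^ 2)))
      (x * N * Real.exp (-κ * (x ^ 2 * N ^ 2))) x := by
  have h1 : HasDerivAt (fun θ : ℝ => -κ * (θ ^ 2 * N ^ 2)) (-κ * (2 * x * N ^ 2)) x := by
    have h2 := ((hasDerivAt_pow 2 x).mul_const (N ^ 2)).const_mul (-κ)
    simpa using h2
  have h3 := (h1.exp).const_mul (-(1 / (2 * κ * N)))
  have h4 : x * N * Real.exp (-κ * (x ^ 2 * N ^ 2)) =
      -(1 / (2 * κ * N)) * (Real.exp (-κ * (x ^ 2 * N ^ 2)) * (-κ * (2 * x * N ^ 2))) := by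
    field_simp
  rw [h4]
  exact h3

theorem integral_gauss_pos (κ N δ : ℝ) (hκ : 0 < κ) (hN : 0 < N) :
    ∫ θ in (0 : ℝ)..δ, θ * N * Real.exp (-κ * (θ ^ 2 * N ^ 2)) ≤ 1 / (2 * κ * N) := by
  rw [intervalIntegral.integral_eq_sub_of_hasDerivAt (fun x _ => hasDerivAt_gauss κ N hκ hN x)
    (Continuous.intervalIntegrable (by fun_prop) _ _)]
  have h1 := Real.exp_pos (-κ * (δ ^ 2 * N ^ 2))
  have h2 : 0 < 1 / (2 * κ * N) := by positivity
  have h3 : -κ * ((0 : ℝ) ^ 2 * N ^ 2) = 0 := by ring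
  rw [h3, Real.exp_zero]
  nlinarith [mul_pos h2 h1]

theorem integral_gauss (κ N δ : ℝ) (hκ : 0 < κ) (hN : 0 < N) (hδ : 0 ≤ δ) :
    ∫ θ in (-δ)..δ, |θ| * N * Real.exp (-κ * (θ ^ 2 * N ^ 2)) ≤ 1 / (κ * N) := by
  have hcont : Continuous fun θ : ℝ => |θ| * N * Real.exp (-κ * (θ ^ 2 * N ^ 2)) := by fun_prop
  have hpos : ∫ θ in (0 : ℝ)..δ, |θ| * N * Real.exp (-κ * (θ ^ 2 * N ^ 2)) ≤ 1 / (2 * κ * N) := by
    refine le_trans (le_of_eq ?_) (integral_gauss_pos κ N δ hκ hN)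
    refine intervalIntegral.integral_congr fun θ hθ => ?_
    rw [Set.uIcc_of_le hδ] at hθ
    simp only [abs_of_nonneg hθ.1]
  have hneg : ∫ θ in (-δ)..0, |θ| * N * Real.exp (-κ * (θ ^ 2 * N ^ 2)) =
      ∫ θ in (0 : ℝ)..δ, |θ| * N * Real.exp (-κ * (θ ^ 2 * N ^ 2)) := by
    have h1 := intervalIntegral.integral_comp_neg (a := 0) (b := δ)
      (fun θ : ℝ => |θ| * N * Real.exp (-κ * (θ ^ 2 * N ^ 2)))
    simp only [abs_neg, neg_zero, neg_sq] at h1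
    exact h1.symm
  rw [← intervalIntegral.integral_add_adjacent_intervals (hcont.intervalIntegrable (-δ) 0)
    (hcont.intervalIntegrable 0 δ), hneg]
  have h2 : 1 / (κ * N) = 1 / (2 * κ * N) + 1 / (2 * κ * N) := by field_simp; norm_num
  rw [h2]
  linarith

/-! ## The circle method -/

theorem card_BxK (Q K : ℕ) : (BxK Q K).card = (2 * Q + 1) ^ K := by
  unfold BxK
  rw [Fintype.card_piFinset]
  simp [card_Bx]

theorem sum_ind {Q K : ℕ} (A : Finset (Fin K → ℤ)) (hA : A ⊆ BxK Q K) :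
    ∑ a ∈ BxK Q K, ind A a = A.card := by
  classical
  have h1 : ∀ a, ind A a = if a ∈ A then (1 : ℝ) else 0 := by
    intro a
    unfold ind
    split_ifs <;> rfl
  simp only [h1]
  rw [Finset.sum_ite_mem, Finset.inter_eq_right.2 hA]
  simp

theorem ind_abs {K : ℕ} (A : Finset (Fin K → ℤ)) (a : Fin K → ℤ) : |ind A a| ≤ 1 := by
  unfold ind
  split_ifs <;> simp

theorem ind_sub_abs {K : ℕ} (A : Finset (Fin K → ℤ)) (α : ℝ) (h0 : 0 ≤ α) (h1 : α ≤ 1) (a : Fin K → ℤ) :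
    |ind A a - α| ≤ 1 := by
  unfold ind
  split_ifs <;> rw [abs_le] <;> constructor <;> linarith

/-- density of a subset of the box -/
theorem density {Q K : ℕ} (A : Finset (Fin K → ℤ)) (hA : A ⊆ BxK Q K) (hcard : (2 * Q + 1) ^ K ≤ 6 * A.card) :
    ∃ α : ℝ, 1 / 6 ≤ α ∧ α ≤ 1 ∧ ∑ a ∈ BxK Q K, (ind A a - α) = 0 := by
  have hn := npos Q
  refine ⟨A.card / (2 * Q + 1) ^ K, ?_, ?_, ?_⟩
  · rw [div_le_div_iff₀ (by norm_num) (by positivity)]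
    have : (((2 * Q + 1) ^ K : ℕ) : ℝ) ≤ ((6 * A.card : ℕ) : ℝ) := by exact_mod_cast hcard
    push_cast at this
    linarith
  · rw [div_le_one (by positivity)]
    have := Finset.card_le_card hA
    rw [card_BxK] at this
    exact_mod_cast this
  · rw [Finset.sum_sub_distrib, sum_ind A hA, Finset.sum_const, card_BxK, nsmul_eq_mul]
    push_cast
    field_simp
    ring

theorem re_ge_neg_norm (z : ℂ) (t : ℝ) : -‖z‖ ≤ (z * e1 t).re := by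
  have h1 := Complex.abs_re_le_norm (z * e1 t)
  rw [norm_mul, norm_e1, mul_one] at h1
  exact (abs_le.1 h1).1

theorem near_pointwise {c : ℝ} (hA2 : ∀ Q : ℕ, 1 ≤ Q → ∀ θ : ℝ, |θ| ≤ 1 / 2 →
    R Q θ ≤ 1 - c * min 1 (θ ^ 2 * (2 * Q + 1) ^ 4)) (Q M : ℕ) (hQ : 1 ≤ Q) (hM : 1 ≤ M)
    (A B : Finset (Fin (256 * M ^ 4) → ℤ)) (hA : A ⊆ BxK Q (256 * M ^ 4)) (hB : B ⊆ BxK Q (256 * M ^ 4))
    (hcA : (2 * Q + 1) ^ (256 * M ^ 4) ≤ 6 * A.card) (hcB : (2 * Q + 1) ^ (256 * M ^ 4) ≤ 6 * B.card)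
    (h : ℤ) (hh : 6 * |h| ≤ (2 * Q + 1) ^ 2) (θ : ℝ) (hθ : |θ| ≤ 1 / (2 * Q + 1) ^ 2) :
    (2 * Q + 1 : ℝ) ^ (2 * (256 * M ^ 4)) * (s Q θ ^ (256 * M ^ 4) / 72 -
      16 * M * (|θ| * (2 * Q + 1) ^ 2 *
        Real.exp (-(c * (256 * M ^ 4 - 1) / 4) * (θ ^ 2 * ((2 * Q + 1) ^ 2) ^ 2)))) ≤
      (T Q (256 * M ^ 4) (ind A) (ind B) θ * e1 (θ * (-h : ℤ))).re := by
  obtain ⟨α, hα, hα1, hαs⟩ := density A hA hcA
  obtain ⟨β, hβ, hβ1, hβs⟩ := density B hB hcB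
  have e1' := near_err hA2 Q M hQ hM (fun a => ind A a - α) (ind B) (ind_sub_abs A α (by linarith) hα1)
    (ind_abs B) hαs θ hθ
  have e2' := near_err hA2 Q M hQ hM (fun b => ind B b - β) (fun _ => 1) (ind_sub_abs B β (by linarith) hβ1)
    (fun _ => by simp) hβs θ hθ
  have e3' := main_re Q (256 * M ^ 4) α β hα hβ h hh θ hθ
  have e4' := re_ge_neg_norm (T Q (256 * M ^ 4) (fun a => ind A a - α) (ind B) θ) (θ * (-h : ℤ))
  have e5' := re_ge_neg_norm (α * T Q (256 * M ^ 4) (fun b => ind B b - β) (fun _ => 1) θ) (θ * (-h : ℤ))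
  have e6' : ‖(α : ℂ) * T Q (256 * M ^ 4) (fun b => ind B b - β) (fun _ => 1) θ‖ ≤
      ‖T Q (256 * M ^ 4) (fun b => ind B b - β) (fun _ => 1) θ‖ := by
    rw [norm_mul, Complex.norm_real, Real.norm_eq_abs, abs_of_nonneg (by linarith)]
    exact mul_le_of_le_one_left (norm_nonneg _) hα1
  rw [T_decomp Q (256 * M ^ 4) (ind A) (ind B) α β θ, add_mul, add_mul, Complex.add_re, Complex.add_re]
  linarith

theorem exists_DP : ∃ K : ℕ, 1 ≤ K ∧ DP K := by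
  obtain ⟨c, hc, hc1, hA2⟩ := exists_c
  obtain ⟨p, C, hC, hA3⟩ := integral_R
  -- choice of M
  obtain ⟨M, hM⟩ := exists_nat_gt (1152 * (1 / (2 * c) + C / c) + p + 1)
  have hMp : (p : ℝ) + 1 ≤ M := by
    have : 0 ≤ 1152 * (1 / (2 * c) + C / c) := by positivity
    linarith
  have hMp' : p + 1 ≤ M := by exact_mod_cast hMp
  have hM1 : 1 ≤ M := by omega
  have hMc : 1152 * (1 / (2 * c) + C / c) < M := by
    have : (0 : ℝ) ≤ p := Nat.cast_nonneg p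
    linarith
  have hM1' : (1 : ℝ) ≤ M := by exact_mod_cast hM1
  have hMM : M ≤ M ^ 4 := Nat.le_self_pow (by norm_num) M
  refine ⟨256 * M ^ 4, by omega, 1, ?_⟩
  intro Q hQ A B hA hB hcA hcB h hh
  by_contra hno
  push Not at hno
  have hno' : ∀ a ∈ A, ∀ b ∈ B, dot a b ≠ h := fun a ha b hb => hno a ha b hb
  have hzero := integral_re_zero Q (256 * M ^ 4) A B h hno'
  have hn := npos Q
  have hnd : ∀ K : ℕ, (0 : ℝ) < (2 * Q + 1) ^ K := fun K => by positivity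
  have hQ' : (1 : ℝ) ≤ Q := by exact_mod_cast hQ
  set F : ℝ → ℝ := fun θ => (T Q (256 * M ^ 4) (ind A) (ind B) θ * e1 (θ * (-h : ℤ))).re with hF
  have hFc : Continuous F := by
    have h1 := continuous_e1
    have h2 := continuous_T Q (256 * M ^ 4) (ind A) (ind B)
    have h3 := Complex.continuous_re
    rw [hF]
    exact h3.comp (by fun_prop)
  set δ : ℝ := 1 / (2 * Q + 1) ^ 2 with hδ
  have hδ0 : 0 < δ := by positivity
  have hδ1 : δ ≤ 1 / 2 := by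
    rw [hδ, div_le_div_iff₀ (by positivity) (by norm_num)]
    nlinarith
  set W : ℝ := (2 * Q + 1 : ℝ) ^ (2 * (256 * M ^ 4)) with hW
  have hW0 : 0 < W := by positivity
  -- far parts
  set q : ℝ := (1 - c) ^ (64 * M ^ 4 - p) with hq
  have hq0 : 0 ≤ q := pow_nonneg (by linarith) _
  have hRc := continuous_R Q
  set G : ℝ → ℝ := fun θ => W * (q * R Q θ ^ p) with hG
  have hGc : Continuous G := by rw [hG]; fun_prop
  have hG0 : ∀ θ, 0 ≤ G θ := fun θ => by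
    have := R_nonneg Q θ
    rw [hG]; positivity
  have hfar : ∀ θ : ℝ, δ ≤ |θ| → |θ| ≤ 1 / 2 → -G θ ≤ F θ := by
    intro θ h1 h2
    have e1' := far_bound hA2 Q M p hQ (by omega) (ind A) (ind B) (ind_abs A) (ind_abs B) θ h1 h2
    have e2' := re_ge_neg_norm (T Q (256 * M ^ 4) (ind A) (ind B) θ) (θ * (-h : ℤ))
    simp only [hF, hG]
    linarith
  have hI : ∀ (f : ℝ → ℝ), Continuous f → ∀ a b : ℝ, IntervalIntegrable f MeasureTheory.volume a b :=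
    fun f hf a b => hf.intervalIntegrable a b
  have hleft : ∫ θ in (-(1 / 2) : ℝ)..(-δ), -G θ ≤ ∫ θ in (-(1 / 2) : ℝ)..(-δ), F θ := by
    refine intervalIntegral.integral_mono_on (by linarith) (hI _ hGc.neg _ _) (hI _ hFc _ _) fun θ hθ => ?_
    have h1 : |θ| = -θ := abs_of_nonpos (by linarith [hθ.2])
    exact hfar θ (by rw [h1]; linarith [hθ.2]) (by rw [h1]; linarith [hθ.1])
  have hright : ∫ θ in δ..(1 / 2 : ℝ), -G θ ≤ ∫ θ in δ..(1 / 2 : ℝ), F θ := by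
    refine intervalIntegral.integral_mono_on (by linarith) (hI _ hGc.neg _ _) (hI _ hFc _ _) fun θ hθ => ?_
    have h1 : |θ| = θ := abs_of_nonneg (by linarith [hθ.1])
    exact hfar θ (by rw [h1]; linarith [hθ.1]) (by rw [h1]; linarith [hθ.2])
  have hGtot : ∫ θ in (-(1 / 2) : ℝ)..(1 / 2), G θ ≤ W * (q * (C * δ)) := by
    rw [hG, intervalIntegral.integral_const_mul, intervalIntegral.integral_const_mul]
    refine mul_le_mul_of_nonneg_left (mul_le_mul_of_nonneg_left ?_ hq0) hW0.le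
    refine (hA3 Q hQ).trans (le_of_eq ?_)
    rw [hδ]; ring
  have hGsplit : ∫ θ in (-(1 / 2) : ℝ)..(1 / 2), G θ =
      (∫ θ in (-(1 / 2) : ℝ)..(-δ), G θ) + (∫ θ in (-δ)..δ, G θ) + ∫ θ in δ..(1 / 2 : ℝ), G θ := by
    rw [intervalIntegral.integral_add_adjacent_intervals (hI _ hGc _ _) (hI _ hGc _ _),
      intervalIntegral.integral_add_adjacent_intervals (hI _ hGc _ _) (hI _ hGc _ _)]
  have hFsplit : ∫ θ in (-(1 / 2) : ℝ)..(1 / 2), F θ =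
      (∫ θ in (-(1 / 2) : ℝ)..(-δ), F θ) + (∫ θ in (-δ)..δ, F θ) + ∫ θ in δ..(1 / 2 : ℝ), F θ := by
    rw [intervalIntegral.integral_add_adjacent_intervals (hI _ hFc _ _) (hI _ hFc _ _),
      intervalIntegral.integral_add_adjacent_intervals (hI _ hFc _ _) (hI _ hFc _ _)]
  have hGmid : 0 ≤ ∫ θ in (-δ)..δ, G θ :=
    intervalIntegral.integral_nonneg (by linarith) fun θ _ => hG0 θ
  -- near part
  set κ : ℝ := c * (256 * M ^ 4 - 1) / 4 with hκ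
  have hM4 : (1 : ℝ) ≤ M ^ 4 := one_le_pow₀ hM1'
  have hκ1 : 32 * c * M ^ 4 ≤ κ := by rw [hκ]; nlinarith
  have hκ0 : 0 < κ := lt_of_lt_of_le (by positivity) hκ1
  have hsc := continuous_s Q
  have hnear : ∫ θ in (-δ)..δ, W * (s Q θ ^ (256 * M ^ 4) / 72 -
      16 * M * (|θ| * (2 * Q + 1) ^ 2 * Real.exp (-κ * (θ ^ 2 * ((2 * Q + 1) ^ 2) ^ 2)))) ≤
      ∫ θ in (-δ)..δ, F θ := by
    refine intervalIntegral.integral_mono_on (by linarith) (hI _ (by fun_prop) _ _) (hI _ hFc _ _) fun θ hθ => ?_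
    exact near_pointwise hA2 Q M hQ hM1 A B hA hB hcA hcB h hh θ (abs_le.2 ⟨hθ.1, hθ.2⟩)
  have hnear2 : ∫ θ in (-δ)..δ, W * (s Q θ ^ (256 * M ^ 4) / 72 -
      16 * M * (|θ| * (2 * Q + 1) ^ 2 * Real.exp (-κ * (θ ^ 2 * ((2 * Q + 1) ^ 2) ^ 2)))) =
      W * ((∫ θ in (-δ)..δ, s Q θ ^ (256 * M ^ 4)) / 72 -
      16 * M * ∫ θ in (-δ)..δ, |θ| * (2 * Q + 1) ^ 2 * Real.exp (-κ * (θ ^ 2 * ((2 * Q + 1) ^ 2) ^ 2))) := by
    rw [intervalIntegral.integral_const_mul, intervalIntegral.integral_sub (hI _ (by fun_prop) _ _)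
      (hI _ (by fun_prop) _ _), intervalIntegral.integral_div, intervalIntegral.integral_const_mul]
  have hgauss := integral_gauss κ ((2 * Q + 1) ^ 2) δ hκ0 (by positivity) hδ0.le
  -- main term
  set δ' : ℝ := 1 / (16 * M ^ 2 * (2 * Q + 1) ^ 2) with hδ'
  have hδ'0 : 0 < δ' := by positivity
  have hM2 : (1 : ℝ) ≤ M ^ 2 := one_le_pow₀ hM1'
  have hδδ : δ' = δ / (16 * M ^ 2) := by rw [hδ', hδ]; field_simp
  have hδ'1 : δ' ≤ δ := by
    rw [hδδ]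
    exact div_le_self hδ0.le (by linarith)
  have hmain1 : ∫ θ in (-δ')..δ', s Q θ ^ (256 * M ^ 4) ≤ ∫ θ in (-δ)..δ, s Q θ ^ (256 * M ^ 4) := by
    refine intervalIntegral.integral_mono_interval (by linarith) (by linarith) hδ'1 ?_ (hI _ (by fun_prop) _ _)
    refine (MeasureTheory.ae_restrict_iff' measurableSet_Ioc).2 (Filter.Eventually.of_forall fun θ hθ => ?_)
    exact pow_nonneg (s_nonneg_near Q θ (abs_le.2 ⟨hθ.1.le, hθ.2⟩)) _
  have hmain2 : δ' ≤ ∫ θ in (-δ')..δ', s Q θ ^ (256 * M ^ 4) := by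
    have h1 : ∫ θ in (-δ')..δ', (1 / 2 : ℝ) ≤ ∫ θ in (-δ')..δ', s Q θ ^ (256 * M ^ 4) := by
      refine intervalIntegral.integral_mono_on (by linarith) (hI _ (by fun_prop) _ _) (hI _ (by fun_prop) _ _)
        fun θ hθ => ?_
      exact s_pow_ge Q M hM1 θ (abs_le.2 ⟨hθ.1, hθ.2⟩)
    rw [intervalIntegral.integral_const, smul_eq_mul] at h1
    linarith
  -- bound for q
  have hqb : q ≤ 1 / (c * M ^ 4) := by
    have h1 : M ^ 4 ≤ 64 * M ^ 4 - p := by omega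
    have h2 : (1 + c) ^ (64 * M ^ 4 - p) * q ≤ 1 := by
      rw [hq, ← mul_pow]
      exact pow_le_one₀ (mul_nonneg (by linarith) (by linarith)) (by nlinarith)
    have h3 := one_add_mul_le_pow (a := c) (by linarith) (64 * M ^ 4 - p)
    have h4 : (M : ℝ) ^ 4 ≤ ((64 * M ^ 4 - p : ℕ) : ℝ) := by exact_mod_cast h1
    have h5 : c * M ^ 4 ≤ (1 + c) ^ (64 * M ^ 4 - p) := by nlinarith
    rw [le_div_iff₀ (by positivity)]
    calc q * (c * M ^ 4) ≤ q * (1 + c) ^ (64 * M ^ 4 - p) := mul_le_mul_of_nonneg_left h5 hq0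
      _ ≤ 1 := by linarith
  have hkey : 16 * M * (1 / (κ * (2 * Q + 1) ^ 2)) + q * (C * δ) < δ' / 72 := by
    have h1 : 16 * M * (1 / (κ * (2 * Q + 1) ^ 2)) ≤ δ * (1 / (2 * c * M ^ 3)) := by
      have h2 : 1 / (κ * (2 * Q + 1) ^ 2) = δ * (1 / κ) := by rw [hδ]; field_simp
      have h3 : 1 / κ ≤ 1 / (32 * c * M ^ 4) := one_div_le_one_div_of_le (by positivity) hκ1
      rw [h2]
      calc 16 * M * (δ * (1 / κ)) ≤ 16 * M * (δ * (1 / (32 * c * M ^ 4))) := by gcongr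
        _ = δ * (1 / (2 * c * M ^ 3)) := by field_simp; norm_num
    have h4 : q * (C * δ) ≤ δ * (C / (c * M ^ 3)) := by
      have h5 : q ≤ 1 / (c * M ^ 3) := by
        refine hqb.trans (one_div_le_one_div_of_le (by positivity) ?_)
        have : (M : ℝ) ^ 3 ≤ M ^ 4 := pow_le_pow_right₀ hM1' (by norm_num)
        nlinarith
      calc q * (C * δ) ≤ 1 / (c * M ^ 3) * (C * δ) := by gcongr
        _ = δ * (C / (c * M ^ 3)) := by ring
    have h6 : δ * (1 / (2 * c * M ^ 3)) + δ * (C / (c * M ^ 3)) < δ' / 72 := by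
      have h7 : δ' / 72 = δ * (M / (1152 * M ^ 3)) := by rw [hδδ]; field_simp; norm_num
      have h8 : δ * (1 / (2 * c * M ^ 3)) + δ * (C / (c * M ^ 3)) =
          δ * ((1152 * (1 / (2 * c) + C / c)) / (1152 * M ^ 3)) := by field_simp
      rw [h7, h8]
      refine mul_lt_mul_of_pos_left ?_ hδ0
      exact div_lt_div_of_pos_right hMc (by positivity)
    linarith
  rw [hFsplit] at hzero
  rw [intervalIntegral.integral_neg] at hleft hright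
  have hfin : 0 < W * (δ' / 72 - (16 * M * (1 / (κ * (2 * Q + 1) ^ 2)) + q * (C * δ))) := by
    apply mul_pos hW0; linarith
  have hstep : W * (δ' / 72 - 16 * M * (1 / (κ * (2 * Q + 1) ^ 2))) ≤ ∫ θ in (-δ)..δ, F θ := by
    rw [hnear2] at hnear
    refine le_trans (mul_le_mul_of_nonneg_left ?_ hW0.le) hnear
    have h1 : 16 * M * ∫ θ in (-δ)..δ, |θ| * (2 * Q + 1) ^ 2 * Real.exp (-κ * (θ ^ 2 * ((2 * Q + 1) ^ 2) ^ 2)) ≤
        16 * M * (1 / (κ * (2 * Q + 1) ^ 2)) := by gcongr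
    linarith
  have e1' : W * (δ' / 72 - 16 * M * (1 / (κ * (2 * Q + 1) ^ 2))) - W * (q * (C * δ)) =
      W * (δ' / 72 - (16 * M * (1 / (κ * (2 * Q + 1) ^ 2)) + q * (C * δ))) := by ring
  linarith

end Pool.Agent.H923_Thick
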