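import Pool.Agent.H923_Thick.Defs

/-!
# Slices of a dense set are dense
-/

open Finset

namespace Pool.Agent.H923_Thick

theorem card_BxK_B1 (Q K : ℕ) : (BxK Q K).card = (2 * Q + 1) ^ K := by
  unfold BxK Bx
  rw [Fintype.card_piFinset]
  simp only [Int.card_Icc, prod_const, card_univ, Fintype.card_fin]
  congr 1
  omega

theorem zero_mem_BxK_B1 (Q K : ℕ) : (0 : Fin K → ℤ) ∈ BxK Q K := by
  unfold BxK Bx
  simp [Fintype.mem_piFinset]

/-- B1: slices of a dense set are dense -/
theorem slice (Q K : ℕ) (A : Finset (Fin 7 → Fin K → ℤ)) (hA : A ⊆ Fintype.piFinset fun _ => BxK Q K)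
    (hcard : ((2 * Q + 1) ^ K) ^ 7 ≤ 6 * A.card) (l : Fin 7) :
    ∃ u : Fin 7 → Fin K → ℤ, (∀ l', u l' ∈ BxK Q K) ∧
      (2 * Q + 1) ^ K ≤ 6 * ((BxK Q K).filter fun a => Function.update u l a ∈ A).card := by
  classical
  set X : Finset (Fin 7 → Fin K → ℤ) := Fintype.piFinset fun _ => BxK Q K with hX
  have hXcard : X.card = ((2 * Q + 1) ^ K) ^ 7 := by
    rw [hX, Fintype.card_piFinset]
    simp [card_BxK_B1]
  have hne : X.Nonempty := ⟨fun _ => 0, by
    rw [hX, Fintype.mem_piFinset]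
    exact fun _ => zero_mem_BxK_B1 Q K⟩
  -- double counting
  have hcount : ∑ u ∈ X, ((BxK Q K).filter fun a => Function.update u l a ∈ A).card = A.card * (2 * Q + 1) ^ K := by
    rw [← card_BxK_B1 Q K, ← Finset.card_product]
    rw [← Finset.card_sigma]
    refine Finset.card_bij' (i := fun (p : (_ : Fin 7 → Fin K → ℤ) × (Fin K → ℤ)) _ =>
      (Function.update p.1 l p.2, p.1 l)) (j := fun (p : (Fin 7 → Fin K → ℤ) × (Fin K → ℤ)) _ =>
      (⟨Function.update p.1 l p.2, p.1 l⟩ : (_ : Fin 7 → Fin K → ℤ) × (Fin K → ℤ))) ?_ ?_ ?_ ?_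
    · rintro ⟨u, a⟩ h
      simp only [mem_sigma, mem_filter] at h
      simp only [mem_product]
      exact ⟨h.2.2, (Fintype.mem_piFinset.1 h.1) l⟩
    · rintro ⟨v, b⟩ h
      simp only [mem_product] at h
      have hv := hA h.1
      rw [Fintype.mem_piFinset] at hv
      simp only [mem_sigma, mem_filter]
      refine ⟨?_, hv l, ?_⟩
      · rw [hX, Fintype.mem_piFinset]
        intro i
        by_cases hi : i = l
        · subst hi
          simpa using h.2
        · rw [Function.update_of_ne hi]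
          exact hv i
      · simpa using h.1
    · rintro ⟨u, a⟩ h
      simp
    · rintro ⟨v, b⟩ h
      simp
  have hle : ∑ u ∈ X, (2 * Q + 1) ^ K ≤ ∑ u ∈ X, 6 * ((BxK Q K).filter fun a => Function.update u l a ∈ A).card := by
    rw [← Finset.mul_sum, hcount, Finset.sum_const, smul_eq_mul, hXcard, ← mul_assoc]
    exact Nat.mul_le_mul_right _ hcard
  obtain ⟨u, hu, h⟩ := Finset.exists_le_of_sum_le hne hle
  exact ⟨u, Fintype.mem_piFinset.1 hu, h⟩

end Pool.Agent.H923_Thick
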