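import Pool.Agent.H923_Thick.Defs

/-!
# Positions in the fibre
-/

open Finset

namespace Pool.Agent.H923_Thick

/-- Entry of the block with indices `p`, `q` of the position with index `i` and vectors `u`. -/
noncomputable def blkB2 {K : ℕ} (lam : ℝ) (i : Fin 7) (u : Fin 7 → Fin K → ℤ) (p q : Fin 7) (k : Fin K) : ℝ :=
  (if i = p then (if p < q then lam * u q k else 0) else 0) +
    (if i = q then (if p < q then lam * u p k else 0) else 0)

/-- Squared length of the vectors with index different from `i`. -/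
noncomputable def totB2 {K : ℕ} (lam : ℝ) (i : Fin 7) (u : Fin 7 → Fin K → ℤ) : ℝ :=
  ∑ p : Fin 7, if p ≠ i then ∑ k, (lam * u p k) ^ 2 else 0

/-- The position with index `i` and vectors `u`. -/
noncomputable def posB2 {K : ℕ} (lam r : ℝ) (i : Fin 7) (u : Fin 7 → Fin K → ℤ) : J K → ℝ :=
  Sum.elim (fun x => blkB2 lam i u x.1 x.2.1 x.2.2)
    (fun p => if i = p then Real.sqrt (r ^ 2 - totB2 lam i u) else 0)

theorem blkB2_sq {K : ℕ} (lam : ℝ) (i : Fin 7) (u : Fin 7 → Fin K → ℤ) (p q : Fin 7) (k : Fin K) :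
    blkB2 lam i u p q k ^ 2 = (if i = p then (if p < q then (lam * u q k) ^ 2 else 0) else 0) +
      (if i = q then (if p < q then (lam * u p k) ^ 2 else 0) else 0) := by
  unfold blkB2
  by_cases hpq : p < q
  · by_cases h1 : i = p
    · have h2 : i ≠ q := by rintro rfl; subst h1; exact lt_irrefl _ hpq
      simp [h1, hpq, hpq.ne]
    · simp [h1, hpq]
  · simp [hpq]

theorem sum_blkB2_sq {K : ℕ} (lam : ℝ) (i : Fin 7) (u : Fin 7 → Fin K → ℤ) :
    ∑ p, ∑ q, ∑ k, blkB2 lam i u p q k ^ 2 = totB2 lam i u := by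
  simp only [blkB2_sq, Finset.sum_add_distrib]
  have h1 : ∀ p q : Fin 7, (∑ k : Fin K, if i = p then (if p < q then (lam * u q k) ^ 2 else 0) else 0) =
      if i = p then (if p < q then ∑ k : Fin K, (lam * u q k) ^ 2 else 0) else 0 := by
    intro p q
    split_ifs <;> simp
  have h2 : ∀ p q : Fin 7, (∑ k : Fin K, if i = q then (if p < q then (lam * u p k) ^ 2 else 0) else 0) =
      if i = q then (if p < q then ∑ k : Fin K, (lam * u p k) ^ 2 else 0) else 0 := by
    intro p q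
    split_ifs <;> simp
  simp only [h1, h2]
  have h3 : ∑ p : Fin 7, ∑ q : Fin 7, (if i = p then (if p < q then ∑ k : Fin K, (lam * u q k) ^ 2 else 0) else 0) =
      ∑ q : Fin 7, (if i < q then ∑ k : Fin K, (lam * u q k) ^ 2 else 0) := by
    rw [Finset.sum_comm]
    refine Finset.sum_congr rfl fun q _ => ?_
    rw [Finset.sum_ite_eq]
    simp
  have h4 : ∑ p : Fin 7, ∑ q : Fin 7, (if i = q then (if p < q then ∑ k : Fin K, (lam * u p k) ^ 2 else 0) else 0) =
      ∑ p : Fin 7, (if p < i then ∑ k : Fin K, (lam * u p k) ^ 2 else 0) := by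
    refine Finset.sum_congr rfl fun p _ => ?_
    rw [Finset.sum_ite_eq]
    simp
  rw [h3, h4, ← Finset.sum_add_distrib]
  unfold totB2
  refine Finset.sum_congr rfl fun p _ => ?_
  rcases lt_trichotomy p i with h | h | h
  · simp [h, h.ne, not_lt.2 h.le]
  · simp [h]
  · simp [h, h.ne', not_lt.2 h.le]

theorem sum_blkB2_mul {K : ℕ} (lam : ℝ) {i l : Fin 7} (hil : i ≠ l) (u w : Fin 7 → Fin K → ℤ) :
    ∑ p, ∑ q, ∑ k, blkB2 lam i u p q k * blkB2 lam l w p q k = lam ^ 2 * (dot (u l) (w i) : ℤ) := by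
  have hdot : lam ^ 2 * ((dot (u l) (w i) : ℤ) : ℝ) = ∑ k, lam * u l k * (lam * w i k) := by
    unfold dot
    push_cast
    rw [Finset.mul_sum]
    exact Finset.sum_congr rfl fun k _ => by ring
  rw [hdot]
  rcases lt_or_gt_of_ne hil with h | h
  · rw [Finset.sum_eq_single i, Finset.sum_eq_single l]
    · refine Finset.sum_congr rfl fun k _ => ?_
      simp [blkB2, h, h.ne, h.ne']
    · intro q _ hq
      refine Finset.sum_eq_zero fun k _ => ?_
      simp [blkB2, h.ne', hq.symm]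
    · simp
    · intro p _ hp
      refine Finset.sum_eq_zero fun q _ => Finset.sum_eq_zero fun k _ => ?_
      by_cases hq : i = q
      · subst hq
        by_cases hpl : l = p
        · subst hpl
          simp [blkB2, not_lt.2 h.le]
        · simp [blkB2, hp.symm, h.ne', hpl]
      · simp [blkB2, hq, hp.symm]
    · simp
  · rw [Finset.sum_eq_single l, Finset.sum_eq_single i]
    · refine Finset.sum_congr rfl fun k _ => ?_
      simp [blkB2, h, h.ne, h.ne']
    · intro q _ hq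
      refine Finset.sum_eq_zero fun k _ => ?_
      simp [blkB2, h.ne', hq.symm]
    · simp
    · intro p _ hp
      refine Finset.sum_eq_zero fun q _ => Finset.sum_eq_zero fun k _ => ?_
      by_cases hq : l = q
      · subst hq
        by_cases hpl : i = p
        · subst hpl
          simp [blkB2, not_lt.2 h.le]
        · simp [blkB2, hp.symm, h.ne', hpl]
      · simp [blkB2, hq, hp.symm]
    · simp

theorem totB2_le {Q K : ℕ} (lam : ℝ) (i : Fin 7) (u : Fin 7 → Fin K → ℤ) (hu : ∀ l, u l ∈ BxK Q K) :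
    totB2 lam i u ≤ 6 * K * Q ^ 2 * lam ^ 2 := by
  unfold totB2
  have h1 : ∀ p : Fin 7, (if p ≠ i then ∑ k : Fin K, (lam * u p k) ^ 2 else 0) ≤
      if p ≠ i then (K * (Q : ℝ) ^ 2 * lam ^ 2) else 0 := by
    intro p
    split_ifs with hp
    · have : ∀ k : Fin K, (lam * u p k) ^ 2 ≤ (Q : ℝ) ^ 2 * lam ^ 2 := by
        intro k
        have hk : u p k ∈ Bx Q := (Fintype.mem_piFinset.1 (hu p)) k
        unfold Bx at hk
        rw [Finset.mem_Icc] at hk
        have h2 : ((u p k : ℤ) : ℝ) ^ 2 ≤ (Q : ℝ) ^ 2 := by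
          have : (u p k) ^ 2 ≤ (Q : ℤ) ^ 2 := by nlinarith [hk.1, hk.2]
          exact_mod_cast this
        rw [mul_pow, mul_comm]
        exact mul_le_mul_of_nonneg_right h2 (sq_nonneg _)
      calc ∑ k : Fin K, (lam * u p k) ^ 2 ≤ ∑ _k : Fin K, (Q : ℝ) ^ 2 * lam ^ 2 := Finset.sum_le_sum fun k _ => this k
        _ = K * (Q : ℝ) ^ 2 * lam ^ 2 := by simp; ring
    · exact le_refl _
  refine (Finset.sum_le_sum fun p _ => h1 p).trans ?_
  rw [Finset.sum_ite, Finset.sum_const_zero, add_zero, Finset.sum_const]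
  have : (Finset.univ.filter fun p : Fin 7 => p ≠ i).card = 6 := by
    rw [Finset.filter_ne' , Finset.card_erase_of_mem (Finset.mem_univ _)]
    simp
  rw [this]
  simp
  ring_nf
  rfl

theorem sum_posB2_sq {Q K : ℕ} {lam r : ℝ} (hlam : 6 * K * Q ^ 2 * lam ^ 2 ≤ r ^ 2) (i : Fin 7)
    (u : Fin 7 → Fin K → ℤ) (hu : ∀ l, u l ∈ BxK Q K) : ∑ j, posB2 lam r i u j ^ 2 = r ^ 2 := by
  rw [Fintype.sum_sum_type]
  simp only [posB2, Sum.elim_inl, Sum.elim_inr]
  rw [Fintype.sum_prod_type]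
  simp only [Fintype.sum_prod_type]
  rw [sum_blkB2_sq]
  have h : 0 ≤ r ^ 2 - totB2 lam i u := by
    have := totB2_le lam i u hu
    linarith
  have h2 : ∑ p : Fin 7, (if i = p then Real.sqrt (r ^ 2 - totB2 lam i u) else 0) ^ 2 = r ^ 2 - totB2 lam i u := by
    simp only [ite_pow]
    rw [Real.sq_sqrt h]
    simp
  rw [h2]
  ring

theorem sum_posB2_mul {K : ℕ} (lam r : ℝ) {i l : Fin 7} (hil : i ≠ l) (u w : Fin 7 → Fin K → ℤ) :
    ∑ j, posB2 lam r i u j * posB2 lam r l w j = lam ^ 2 * (dot (u l) (w i) : ℤ) := by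
  rw [Fintype.sum_sum_type]
  simp only [posB2, Sum.elim_inl, Sum.elim_inr]
  rw [Fintype.sum_prod_type]
  simp only [Fintype.sum_prod_type]
  rw [sum_blkB2_mul lam hil]
  have : ∑ p : Fin 7, (if i = p then Real.sqrt (r ^ 2 - totB2 lam i u) else 0) *
      (if l = p then Real.sqrt (r ^ 2 - totB2 lam l w) else 0) = 0 := by
    refine Finset.sum_eq_zero fun p _ => ?_
    by_cases h : i = p
    · subst h
      simp [hil.symm]
    · simp [h]
  rw [this, add_zero]

/-- B2: positions in the fibre -/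
theorem exists_positions (Q K : ℕ) (lam r : ℝ) (hr : 0 < r) (hlam : 6 * K * Q ^ 2 * lam ^ 2 ≤ r ^ 2) :
    ∃ P : Fin 7 → (Fin 7 → Fin K → ℤ) → (J K → ℝ),
      (∀ i u, (∀ l, u l ∈ BxK Q K) → ∀ j, |P i u j| ≤ r) ∧
      ∀ i l u w, i ≠ l → (∀ l', u l' ∈ BxK Q K) → (∀ l', w l' ∈ BxK Q K) →
        ∑ j, (P i u j - P l w j) ^ 2 = 2 * r ^ 2 - 2 * lam ^ 2 * (dot (u l) (w i) : ℤ) := by
  refine ⟨posB2 lam r, ?_, ?_⟩
  · intro i u hu j
    have h := sum_posB2_sq hlam i u hu
    have h1 : posB2 lam r i u j ^ 2 ≤ ∑ j, posB2 lam r i u j ^ 2 :=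
      Finset.single_le_sum (f := fun j => posB2 lam r i u j ^ 2) (fun j _ => sq_nonneg _) (Finset.mem_univ j)
    rw [h] at h1
    exact abs_le_of_sq_le_sq h1 hr.le
  · intro i l u w hil hu hw
    have h1 := sum_posB2_sq hlam i u hu
    have h2 := sum_posB2_sq hlam l w hw
    have h3 := sum_posB2_mul lam r hil u w
    have h4 : ∀ j, (posB2 lam r i u j - posB2 lam r l w j) ^ 2 =
        posB2 lam r i u j ^ 2 + posB2 lam r l w j ^ 2 - 2 * (posB2 lam r i u j * posB2 lam r l w j) := fun j => by ring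
    simp only [h4]
    rw [Finset.sum_sub_distrib, Finset.sum_add_distrib, ← Finset.mul_sum, h1, h2, h3]
    ring

end Pool.Agent.H923_Thick
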