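import Pool.Agent.H923_Thick.B1
import Pool.Agent.H923_Thick.B2

/-!
# B3: from the thickened plane to a grid
-/

open Finset

namespace Pool.Agent.H923_Thick

namespace B3Aux

theorem card_BxK (Q K : ℕ) : (BxK Q K).card = (2 * Q + 1) ^ K := by
  unfold BxK Bx
  rw [Fintype.card_piFinset_const, Int.card_Icc]
  congr 1
  omega

theorem card_all (Q K : ℕ) :
    (Fintype.piFinset fun _ : Fin 7 => BxK Q K).card = ((2 * Q + 1) ^ K) ^ 7 := by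
  rw [Fintype.card_piFinset_const, card_BxK]

/-- a colour which is taken often -/
theorem pigeon {α : Type*} (A : Finset α) (c : α → Fin 6) :
    ∃ a : Fin 6, A.card ≤ 6 * (A.filter fun u => c u = a).card := by
  classical
  by_contra h
  push Not at h
  have hs : A.card = ∑ a : Fin 6, (A.filter fun u => c u = a).card :=
    Finset.card_eq_sum_card_fiberwise (fun _ _ => Finset.mem_coe.2 (Finset.mem_univ _))
  rw [Fin.sum_univ_six] at hs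
  have h0 := h 0
  have h1 := h 1
  have h2 := h 2
  have h3 := h 3
  have h4 := h 4
  have h5 := h 5
  omega

/-- the choice of a colour for each point, for two indices -/
theorem two_index (a : Fin 7 → Fin 6) : ∃ i l : Fin 7, i ≠ l ∧ a i = a l := by
  obtain ⟨i, l, h1, h2⟩ := Fintype.exists_ne_map_eq_of_card_lt a (by simp)
  exact ⟨i, l, h1, h2⟩

theorem numbers {K : ℕ} (hK : 1 ≤ K) {r : ℝ} (hr0 : 0 < r) (Q₀ L : ℕ)
    (hrL : (Q₀ + 4 : ℝ) * (3 * K) ≤ r * L) :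
    ∃ R0 Q : ℕ, Q₀ ≤ Q ∧ 6 * (K : ℝ) * Q ^ 2 ≤ R0 ∧ (0 : ℝ) < R0 ∧
      (R0 : ℝ) ≤ 2 * r ^ 2 * (L : ℝ) ^ 2 ∧
      ∀ N : ℤ, (1 - 2 * r ^ 2 - r ^ 2 / (108 * K ^ 2)) * (L : ℝ) ^ 2 ≤ N →
        (N : ℝ) ≤ (1 - 2 * r ^ 2 + r ^ 2 / (108 * K ^ 2)) * (L : ℝ) ^ 2 →
        6 * |N + R0 - (L : ℤ) ^ 2| ≤ (2 * Q + 1) ^ 2 := by
  have hKr : (1 : ℝ) ≤ K := by exact_mod_cast hK
  have hQ0r : (0 : ℝ) ≤ Q₀ := Nat.cast_nonneg _
  have h3K : (0 : ℝ) < 3 * K := by positivity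
  have hrL1 : 12 ≤ r * L := by nlinarith
  have hrLsq : 144 ≤ r ^ 2 * (L : ℝ) ^ 2 := by
    have : (r * (L : ℝ)) ^ 2 = r ^ 2 * (L : ℝ) ^ 2 := by ring
    nlinarith
  have hR0a : ((⌊2 * r ^ 2 * (L : ℝ) ^ 2⌋₊ : ℕ) : ℝ) ≤ 2 * r ^ 2 * (L : ℝ) ^ 2 :=
    Nat.floor_le (by positivity)
  have hR0b : 2 * r ^ 2 * (L : ℝ) ^ 2 < (⌊2 * r ^ 2 * (L : ℝ) ^ 2⌋₊ : ℕ) + 1 :=
    Nat.lt_floor_add_one _
  have hQa : ((⌊r * L / (3 * K)⌋₊ : ℕ) : ℝ) ≤ r * L / (3 * K) := Nat.floor_le (by positivity)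
  have hQb : r * L / (3 * K) < (⌊r * L / (3 * K)⌋₊ : ℕ) + 1 := Nat.lt_floor_add_one _
  have hQge : (Q₀ + 4 : ℝ) ≤ r * L / (3 * K) := by
    rw [le_div_iff₀ h3K]
    exact hrL
  obtain ⟨z, hz⟩ : ∃ z, z = r * L / (3 * K) := ⟨_, rfl⟩
  obtain ⟨Q, hQ⟩ : ∃ Q, Q = ⌊r * L / (3 * K)⌋₊ := ⟨_, rfl⟩
  obtain ⟨R0, hR0⟩ : ∃ R0, R0 = ⌊2 * r ^ 2 * (L : ℝ) ^ 2⌋₊ := ⟨_, rfl⟩
  rw [← hQ, ← hz] at hQa hQb
  rw [← hz] at hQge
  rw [← hR0] at hR0a hR0b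
  have hzK : z * (3 * K) = r * L := by
    rw [hz]
    field_simp
  have hQnn : (0 : ℝ) ≤ Q := Nat.cast_nonneg _
  have hzz : r ^ 2 * (L : ℝ) ^ 2 = 9 * K ^ 2 * z ^ 2 := by
    have e1 : (z * (3 * (K : ℝ))) ^ 2 = (r * (L : ℝ)) ^ 2 := by rw [hzK]
    have e2 : (z * (3 * (K : ℝ))) ^ 2 = 9 * K ^ 2 * z ^ 2 := by ring
    have e3 : (r * (L : ℝ)) ^ 2 = r ^ 2 * (L : ℝ) ^ 2 := by ring
    rw [← e2, ← e3, e1]
  refine ⟨R0, Q, ?_, ?_, by linarith, hR0a, ?_⟩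
  · have h1 : (Q₀ : ℝ) < ((Q + 1 : ℕ) : ℝ) := by
      push_cast
      linarith
    exact Nat.lt_succ_iff.1 (Nat.cast_lt.1 h1)
  · have h1 : (Q : ℝ) ^ 2 ≤ z ^ 2 := pow_le_pow_left₀ hQnn hQa 2
    have h2 : 6 * (K : ℝ) * z ^ 2 ≤ r ^ 2 * (L : ℝ) ^ 2 := by
      rw [hzz]
      have h4 : 6 * (K : ℝ) ≤ 9 * K ^ 2 := by nlinarith
      exact mul_le_mul_of_nonneg_right h4 (sq_nonneg z)
    have h3 : 6 * (K : ℝ) * Q ^ 2 ≤ 6 * (K : ℝ) * z ^ 2 :=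
      mul_le_mul_of_nonneg_left h1 (by positivity)
    linarith
  · intro N h1 h2
    have hreal : 6 * |(N : ℝ) + R0 - (L : ℝ) ^ 2| ≤ (2 * (Q : ℝ) + 1) ^ 2 := by
      have e1 : r ^ 2 / (108 * K ^ 2) * (L : ℝ) ^ 2 = z ^ 2 / 12 := by
        rw [div_mul_eq_mul_div, hzz]
        field_simp
        ring
      have hz4 : 4 ≤ z := by linarith
      have hzsq : z ^ 2 ≤ (2 * (Q : ℝ) + 1) ^ 2 :=
        pow_le_pow_left₀ (by linarith) (by linarith) 2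
      have e3 : (1 - 2 * r ^ 2 - r ^ 2 / (108 * K ^ 2)) * (L : ℝ) ^ 2 =
          (L : ℝ) ^ 2 - 2 * r ^ 2 * (L : ℝ) ^ 2 - z ^ 2 / 12 := by
        rw [← e1]
        ring
      have e4 : (1 - 2 * r ^ 2 + r ^ 2 / (108 * K ^ 2)) * (L : ℝ) ^ 2 =
          (L : ℝ) ^ 2 - 2 * r ^ 2 * (L : ℝ) ^ 2 + z ^ 2 / 12 := by
        rw [← e1]
        ring
      rw [e3] at h1
      rw [e4] at h2
      have e2 : |(N : ℝ) + R0 - (L : ℝ) ^ 2| ≤ z ^ 2 / 12 + 1 := by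
        rw [abs_le]
        constructor
        · linarith
        · linarith
      have e5 : 16 ≤ z ^ 2 := by nlinarith
      linarith
    exact_mod_cast hreal

end B3Aux

open B3Aux

/-- B3: the reduction -/
theorem reduction {K : ℕ} (hK : 1 ≤ K) (hDP : DP K) {ε : ℝ} (hε : 0 < ε) (φ : ℂ → (J K → ℝ) → Fin 6)
    (hφ : ∀ x y s t, (∀ j, s j ∈ Set.Icc 0 ε) → (∀ j, t j ∈ Set.Icc 0 ε) →
      ‖x - y‖ ^ 2 + ∑ j, (s j - t j) ^ 2 = 1 → φ x s ≠ φ y t) :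
    ∃ D₁ D₂ : ℝ, 0 < D₁ ∧ D₁ < D₂ ∧ ∀ L₀ : ℕ, ∃ L ≥ L₀, ∃ S : ℤ × ℤ → Fin 6, ∀ p q : ℤ × ℤ,
      D₁ * L ^ 2 ≤ (((p.1 - q.1) ^ 2 + (p.2 - q.2) ^ 2 : ℤ) : ℝ) →
      (((p.1 - q.1) ^ 2 + (p.2 - q.2) ^ 2 : ℤ) : ℝ) ≤ D₂ * L ^ 2 → S p ≠ S q := by
  classical
  obtain ⟨Q₀, hQ₀⟩ := hDP
  have hKr : (1 : ℝ) ≤ K := by exact_mod_cast hK
  obtain ⟨r, hr0, hr4, hrε⟩ : ∃ r : ℝ, 0 < r ∧ r ≤ 1 / 4 ∧ 4 * r ≤ ε := by
    refine ⟨min ε 1 / 4, by positivity, ?_, ?_⟩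
    · have := min_le_right ε 1
      linarith
    · have := min_le_left ε 1
      linarith
  have hδ0 : 0 < r ^ 2 / (108 * K ^ 2) := by positivity
  have hδ1 : r ^ 2 / (108 * K ^ 2) ≤ 1 / 108 := by
    rw [div_le_div_iff₀ (by positivity) (by norm_num)]
    nlinarith [mul_pos hr0 hr0]
  refine ⟨1 - 2 * r ^ 2 - r ^ 2 / (108 * K ^ 2), 1 - 2 * r ^ 2 + r ^ 2 / (108 * K ^ 2), ?_, ?_, ?_⟩
  · nlinarith [mul_pos hr0 hr0]
  · linarith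
  intro L₀
  set L : ℕ := max L₀ ⌈(Q₀ + 4 : ℝ) * (3 * K) / r⌉₊ with hL
  refine ⟨L, le_max_left _ _, ?_⟩
  have hL1 : (Q₀ + 4 : ℝ) * (3 * K) / r ≤ L := by
    have h1 : ⌈(Q₀ + 4 : ℝ) * (3 * K) / r⌉₊ ≤ L := le_max_right _ _
    have h2 : ((⌈(Q₀ + 4 : ℝ) * (3 * K) / r⌉₊ : ℕ) : ℝ) ≤ (L : ℝ) := Nat.cast_le.2 h1
    exact (Nat.le_ceil _).trans h2
  have hrL : (Q₀ + 4 : ℝ) * (3 * K) ≤ r * L := by
    rw [div_le_iff₀ hr0] at hL1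
    linarith
  have hQ0r : (0 : ℝ) ≤ Q₀ := Nat.cast_nonneg _
  have hLpos : (0 : ℝ) < L := by
    have h1 : 12 ≤ r * L := by nlinarith
    by_contra h
    have h2 : (L : ℝ) ≤ 0 := not_lt.1 h
    have h3 : r * (L : ℝ) ≤ 0 := mul_nonpos_of_nonneg_of_nonpos hr0.le h2
    linarith
  obtain ⟨R0, Q, hQQ₀, hQ6, hR0pos, hR0a, hNN⟩ := numbers hK hr0 Q₀ L hrL
  set r' : ℝ := Real.sqrt (R0 / (2 * (L : ℝ) ^ 2)) with hr'
  have hr'0 : 0 < r' := Real.sqrt_pos.2 (by positivity)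
  have hr'sq : r' ^ 2 = R0 / (2 * (L : ℝ) ^ 2) := Real.sq_sqrt (by positivity)
  have hr'r : r' ≤ r := by
    apply Real.sqrt_le_iff.2
    refine ⟨hr0.le, ?_⟩
    rw [div_le_iff₀ (by positivity)]
    linarith
  set lam : ℝ := Real.sqrt (1 / (2 * (L : ℝ) ^ 2)) with hlam
  have hlamsq : lam ^ 2 = 1 / (2 * (L : ℝ) ^ 2) := Real.sq_sqrt (by positivity)
  have hlam6 : 6 * K * Q ^ 2 * lam ^ 2 ≤ r' ^ 2 := by
    rw [hlamsq, hr'sq, mul_one_div, div_le_div_iff_of_pos_right (by positivity)]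
    exact hQ6
  obtain ⟨P, hP1, hP2⟩ := exists_positions Q K lam r' hr'0 hlam6
  let pt : Fin 7 → (Fin 7 → Fin K → ℤ) → (J K → ℝ) := fun i u j => 2 * r + P i u j
  have hpt : ∀ i u, (∀ l, u l ∈ BxK Q K) → ∀ j, pt i u j ∈ Set.Icc 0 ε := by
    intro i u hu j
    have h1 := abs_le.1 (hP1 i u hu j)
    have : pt i u j = 2 * r + P i u j := rfl
    rw [this]
    constructor <;> linarith [h1.1, h1.2]
  let All : Finset (Fin 7 → Fin K → ℤ) := Fintype.piFinset fun _ : Fin 7 => BxK Q K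
  let pl : ℤ × ℤ → ℂ := fun p => ⟨(p.1 : ℝ) / L, (p.2 : ℝ) / L⟩
  have hcol : ∀ (p : ℤ × ℤ) (i : Fin 7), ∃ a : Fin 6,
      ((2 * Q + 1) ^ K) ^ 7 ≤ 6 * (All.filter fun u => φ (pl p) (pt i u) = a).card := by
    intro p i
    obtain ⟨a, ha⟩ := pigeon All (fun u => φ (pl p) (pt i u))
    rw [card_all] at ha
    exact ⟨a, ha⟩
  choose a ha using hcol
  have hidx : ∀ p, ∃ i l : Fin 7, i ≠ l ∧ a p i = a p l := fun p => two_index (a p)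
  choose i₁ i₂ hne heq using hidx
  refine ⟨fun p => a p (i₁ p), ?_⟩
  intro p q h1 h2 hS
  simp only at hS
  -- two different indices with the same colour
  obtain ⟨i, l, hil, hai, hal⟩ : ∃ i l : Fin 7, i ≠ l ∧ a p i = a p (i₁ p) ∧ a q l = a p (i₁ p) := by
    by_cases h : i₁ q = i₁ p
    · refine ⟨i₁ p, i₂ q, ?_, rfl, ?_⟩
      · rw [← h]
        exact hne q
      · rw [← heq q, hS]
    · exact ⟨i₁ p, i₁ q, fun h' => h h'.symm, rfl, hS.symm⟩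
  set c := a p (i₁ p) with hc
  have hA := ha p i
  have hB := ha q l
  rw [hai] at hA
  rw [hal] at hB
  obtain ⟨u₀, hu₀, hu₀c⟩ := slice Q K _ (Finset.filter_subset _ _) hA l
  obtain ⟨w₀, hw₀, hw₀c⟩ := slice Q K _ (Finset.filter_subset _ _) hB i
  -- the inner product
  set N : ℤ := (p.1 - q.1) ^ 2 + (p.2 - q.2) ^ 2 with hN
  have hh := hNN N h1 h2
  obtain ⟨x, hx, y, hy, hxy⟩ := hQ₀ Q hQQ₀ _ _ (Finset.filter_subset _ _) (Finset.filter_subset _ _)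
    hu₀c hw₀c _ hh
  rw [Finset.mem_filter] at hx hy
  obtain ⟨-, hx⟩ := hx
  obtain ⟨-, hy⟩ := hy
  rw [Finset.mem_filter] at hx hy
  obtain ⟨hxA, hxc⟩ := hx
  obtain ⟨hyA, hyc⟩ := hy
  have hxm : ∀ l', Function.update u₀ l x l' ∈ BxK Q K := Fintype.mem_piFinset.1 hxA
  have hym : ∀ l', Function.update w₀ i y l' ∈ BxK Q K := Fintype.mem_piFinset.1 hyA
  refine hφ (pl p) (pl q) (pt i (Function.update u₀ l x)) (pt l (Function.update w₀ i y))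
    (hpt _ _ hxm) (hpt _ _ hym) ?_ (hxc.trans hyc.symm)
  have hdist := hP2 i l (Function.update u₀ l x) (Function.update w₀ i y) hil hxm hym
  rw [Function.update_self, Function.update_self, hxy] at hdist
  have hsum : ∑ j, (pt i (Function.update u₀ l x) j - pt l (Function.update w₀ i y) j) ^ 2 =
      2 * r' ^ 2 - 2 * lam ^ 2 * ((N + R0 - (L : ℤ) ^ 2 : ℤ) : ℝ) := by
    rw [← hdist]
    refine Finset.sum_congr rfl fun j _ => ?_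
    simp only [pt]
    ring
  have hnorm : ‖pl p - pl q‖ ^ 2 = (N : ℝ) / (L : ℝ) ^ 2 := by
    rw [Complex.sq_norm, Complex.normSq_apply]
    simp only [pl, Complex.sub_re, Complex.sub_im, hN]
    push_cast
    field_simp
  rw [hsum, hnorm, hr'sq, hlamsq]
  push_cast
  field_simp
  ring

end Pool.Agent.H923_Thick
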