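import Pool.Agent.H923_Thick.Defs

/-!
# The grid theorem, from closed covers of the plane
-/

namespace Pool.Agent.H923_Thick

/-- difference of squared lengths of two nearby planar vectors -/
theorem c_sq_diff {u1 u2 w1 w2 r : ℝ} (hr : 0 ≤ r) (h1 : |u1 - w1| ≤ 2) (h2 : |u2 - w2| ≤ 2)
    (hw : w1 ^ 2 + w2 ^ 2 = r ^ 2) : |u1 ^ 2 + u2 ^ 2 - r ^ 2| ≤ 8 * r + 8 := by
  have hw1 : |w1| ≤ r := abs_le_of_sq_le_sq (by nlinarith [sq_nonneg w2]) hr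
  have hw2 : |w2| ≤ r := abs_le_of_sq_le_sq (by nlinarith [sq_nonneg w1]) hr
  have e : u1 ^ 2 + u2 ^ 2 - r ^ 2 =
      (u1 - w1) * (2 * w1) + (u2 - w2) * (2 * w2) + (u1 - w1) ^ 2 + (u2 - w2) ^ 2 := by
    rw [← hw]; ring
  have a1 : |(u1 - w1) * (2 * w1)| ≤ 2 * (2 * r) := by
    rw [abs_mul, abs_mul, abs_two]
    exact mul_le_mul h1 (by linarith) (by positivity) (by norm_num)
  have a2 : |(u2 - w2) * (2 * w2)| ≤ 2 * (2 * r) := by
    rw [abs_mul, abs_mul, abs_two]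
    exact mul_le_mul h2 (by linarith) (by positivity) (by norm_num)
  have b1 : (u1 - w1) ^ 2 ≤ 4 := by
    have := abs_le.1 h1; nlinarith
  have b2 : (u2 - w2) ^ 2 ≤ 4 := by
    have := abs_le.1 h2; nlinarith
  rw [e, abs_le]
  have c1 := abs_le.1 a1
  have c2 := abs_le.1 a2
  constructor
  · nlinarith [sq_nonneg (u1 - w1), sq_nonneg (u2 - w2)]
  · linarith [c1.2, c2.2]

/-- the grid points of colour `a`, as points of the plane -/
def c_pts (S : ℤ × ℤ → Fin 6) (a : Fin 6) : Set (ℝ × ℝ) :=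
  {v | ∃ p : ℤ × ℤ, S p = a ∧ v = ((p.1 : ℝ), (p.2 : ℝ))}

/-- the closed set of colour `a` -/
def c_set (S : ℤ × ℤ → Fin 6) (c : ℝ) (a : Fin 6) : Set ℂ :=
  {z | (c * z.re, c * z.im) ∈ Metric.cthickening (1 / 2) (c_pts S a)}

theorem c_closed (S : ℤ × ℤ → Fin 6) (c : ℝ) (a : Fin 6) : IsClosed (c_set S c a) := by
  have hcont : Continuous fun z : ℂ => ((c * z.re, c * z.im) : ℝ × ℝ) :=
    ((continuous_const.mul Complex.continuous_re).prodMk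
      (continuous_const.mul Complex.continuous_im))
  exact Metric.isClosed_cthickening.preimage hcont

theorem c_cover (S : ℤ × ℤ → Fin 6) (c : ℝ) (z : ℂ) : ∃ a, z ∈ c_set S c a := by
  refine ⟨S (round (c * z.re), round (c * z.im)), ?_⟩
  refine Metric.mem_cthickening_of_dist_le _
    ((round (c * z.re) : ℝ), (round (c * z.im) : ℝ)) _ _ ⟨_, rfl, rfl⟩ ?_
  rw [Prod.dist_eq]
  refine max_le ?_ ?_
  · rw [Real.dist_eq]; exact abs_sub_round _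
  · rw [Real.dist_eq]; exact abs_sub_round _

theorem c_near {S : ℤ × ℤ → Fin 6} {c : ℝ} {a : Fin 6} {z : ℂ} (hz : z ∈ c_set S c a) :
    ∃ p : ℤ × ℤ, S p = a ∧ |c * z.re - p.1| < 1 ∧ |c * z.im - p.2| < 1 := by
  have h := Metric.cthickening_subset_thickening' (δ₁ := 1 / 2) (δ₂ := 1) one_pos
    (by norm_num) (c_pts S a) hz
  obtain ⟨v, ⟨p, hp, rfl⟩, hv⟩ := Metric.mem_thickening_iff.1 h
  rw [Prod.dist_eq, max_lt_iff] at hv
  exact ⟨p, hp, by simpa [Real.dist_eq] using hv.1, by simpa [Real.dist_eq] using hv.2⟩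

theorem grid (hclosed : ∀ A : Fin 6 → Set ℂ, (∀ a, IsClosed (A a)) → (∀ a, ∀ x ∈ A a, ∀ y ∈ A a, dist x y ≠ 1) →
      (∀ z, ∃ a, z ∈ A a) → False) (D₁ D₂ : ℝ) (h0 : 0 < D₁) (h : D₁ < D₂) :
    ∃ L₀ : ℕ, ∀ L ≥ L₀, ¬ ∃ S : ℤ × ℤ → Fin 6, ∀ p q : ℤ × ℤ,
      D₁ * L ^ 2 ≤ (((p.1 - q.1) ^ 2 + (p.2 - q.2) ^ 2 : ℤ) : ℝ) →
      (((p.1 - q.1) ^ 2 + (p.2 - q.2) ^ 2 : ℤ) : ℝ) ≤ D₂ * L ^ 2 → S p ≠ S q := by
  set d : ℝ := Real.sqrt ((D₁ + D₂) / 2) with hd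
  have hd0 : 0 ≤ d := Real.sqrt_nonneg _
  have hd2 : d ^ 2 = (D₁ + D₂) / 2 := Real.sq_sqrt (by linarith)
  have hgap : 0 < D₂ - D₁ := by linarith
  refine ⟨⌈(16 * d + 16) / (D₂ - D₁)⌉₊ + 1, fun L hL => ?_⟩
  rintro ⟨S, hS⟩
  have hL1 : (1 : ℝ) ≤ L := by
    have : 1 ≤ L := by omega
    exact_mod_cast this
  have hL2 : 16 * d + 16 ≤ (D₂ - D₁) * L := by
    have h1 : (16 * d + 16) / (D₂ - D₁) ≤ L := by
      refine (Nat.le_ceil _).trans ?_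
      have : ⌈(16 * d + 16) / (D₂ - D₁)⌉₊ ≤ L := by omega
      exact_mod_cast this
    rw [div_le_iff₀ hgap] at h1
    linarith
  apply hclosed (c_set S (d * L)) (c_closed S _) ?_ (c_cover S _)
  intro a x hx y hy hxy
  obtain ⟨p, hp, p1, p2⟩ := c_near hx
  obtain ⟨q, hq, q1, q2⟩ := c_near hy
  have hnorm : (x.re - y.re) ^ 2 + (x.im - y.im) ^ 2 = 1 := by
    have h1 : ‖x - y‖ ^ 2 = 1 := by rw [← dist_eq_norm, hxy, one_pow]
    rw [← Complex.normSq_eq_norm_sq, Complex.normSq_apply] at h1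
    simp only [Complex.sub_re, Complex.sub_im] at h1
    linarith
  have hw : (d * L * x.re - d * L * y.re) ^ 2 + (d * L * x.im - d * L * y.im) ^ 2 =
      (d * L) ^ 2 := by
    have : (d * L * x.re - d * L * y.re) ^ 2 + (d * L * x.im - d * L * y.im) ^ 2 =
      (d * L) ^ 2 * ((x.re - y.re) ^ 2 + (x.im - y.im) ^ 2) := by ring
    rw [this, hnorm, mul_one]
  have u1 : |((p.1 : ℝ) - q.1) - (d * L * x.re - d * L * y.re)| ≤ 2 := by
    have a1 := abs_lt.1 p1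
    have a2 := abs_lt.1 q1
    rw [abs_le]; constructor <;> linarith [a1.1, a1.2, a2.1, a2.2]
  have u2 : |((p.2 : ℝ) - q.2) - (d * L * x.im - d * L * y.im)| ≤ 2 := by
    have a1 := abs_lt.1 p2
    have a2 := abs_lt.1 q2
    rw [abs_le]; constructor <;> linarith [a1.1, a1.2, a2.1, a2.2]
  have key := abs_le.1 (c_sq_diff (by positivity) u1 u2 hw)
  have hcast : (((p.1 - q.1) ^ 2 + (p.2 - q.2) ^ 2 : ℤ) : ℝ) =
      ((p.1 : ℝ) - q.1) ^ 2 + ((p.2 : ℝ) - q.2) ^ 2 := by push_cast; ring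
  have hsq : (d * L) ^ 2 = (D₁ + D₂) / 2 * L ^ 2 := by rw [mul_pow, hd2]
  have hbig : 8 * (d * L) + 8 ≤ (D₂ - D₁) / 2 * (L : ℝ) ^ 2 := by nlinarith
  have hne := hS p q
  rw [hcast] at hne
  refine hne ?_ ?_ (hp.trans hq.symm)
  · rw [hsq] at key; nlinarith [key.1]
  · rw [hsq] at key; nlinarith [key.2]

end Pool.Agent.H923_Thick
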