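import Pool.Agent.H923_Thick.Final

/-!
# Upper bound: the brick coloring of the thickened plane
-/

namespace Pool.Agent.H923_Thick

namespace Brick

/-- the color of a point of the plane, bricks of size `4/5` by `11/20` -/
noncomputable def col (x y : ℝ) : Fin 7 :=
  ⟨((((⌊x * (15 / 4)⌋ - ⌊y * (20 / 11)⌋) / 3) + 5 * ⌊y * (20 / 11)⌋) % 7).toNat, by omega⟩

theorem col_eq_iff (x y x' y' : ℝ) : col x y = col x' y' ↔
    (((⌊x * (15 / 4)⌋ - ⌊y * (20 / 11)⌋) / 3) + 5 * ⌊y * (20 / 11)⌋) % 7 =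
    (((⌊x' * (15 / 4)⌋ - ⌊y' * (20 / 11)⌋) / 3) + 5 * ⌊y' * (20 / 11)⌋) % 7 := by
  unfold col
  rw [Fin.mk.injEq]
  omega

theorem col_ne (x y x' y' : ℝ) (h1 : 19 / 20 ≤ (x - x') ^ 2 + (y - y') ^ 2)
    (h2 : (x - x') ^ 2 + (y - y') ^ 2 ≤ 1) : col x y ≠ col x' y' := by
  intro hc
  rw [col_eq_iff] at hc
  obtain ⟨u, hu⟩ : ∃ u, u = x * (15 / 4) := ⟨_, rfl⟩
  obtain ⟨u', hu'⟩ : ∃ u, u = x' * (15 / 4) := ⟨_, rfl⟩
  obtain ⟨w, hw⟩ : ∃ u, u = y * (20 / 11) := ⟨_, rfl⟩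
  obtain ⟨w', hw'⟩ : ∃ u, u = y' * (20 / 11) := ⟨_, rfl⟩
  rw [← hu, ← hu', ← hw, ← hw'] at hc
  obtain ⟨i, hi⟩ : ∃ i, i = (⌊u⌋ - ⌊w⌋) / 3 := ⟨_, rfl⟩
  obtain ⟨i', hi'⟩ : ∃ i, i = (⌊u'⌋ - ⌊w'⌋) / 3 := ⟨_, rfl⟩
  obtain ⟨j, hj⟩ : ∃ j, j = ⌊w⌋ := ⟨_, rfl⟩
  obtain ⟨j', hj'⟩ : ∃ j, j = ⌊w'⌋ := ⟨_, rfl⟩
  have g1 : ((3 * i + j : ℤ) : ℝ) ≤ u := Int.le_floor.1 (by omega)
  have g2 : u < ((3 * i + j + 3 : ℤ) : ℝ) := Int.floor_lt.1 (by omega)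
  have g3 : ((3 * i' + j' : ℤ) : ℝ) ≤ u' := Int.le_floor.1 (by omega)
  have g4 : u' < ((3 * i' + j' + 3 : ℤ) : ℝ) := Int.floor_lt.1 (by omega)
  have g5 : (j : ℝ) ≤ w := Int.le_floor.1 (by omega)
  have g6 : w < ((j + 1 : ℤ) : ℝ) := Int.floor_lt.1 (by omega)
  have g7 : (j' : ℝ) ≤ w' := Int.le_floor.1 (by omega)
  have g8 : w' < ((j' + 1 : ℤ) : ℝ) := Int.floor_lt.1 (by omega)
  have hx : x - x' = (u - u') * (4 / 15) := by rw [hu, hu']; ring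
  have hy : y - y' = (w - w') * (11 / 20) := by rw [hw, hw']; ring
  rw [hx, hy] at h1 h2
  rw [← hi, ← hi', ← hj, ← hj'] at hc
  have key : (i = i' ∧ j = j') ∨ j' + 3 ≤ j ∨ j + 3 ≤ j' ∨ 3 * i' + j' + 7 ≤ 3 * i + j ∨ 3 * i + j + 7 ≤ 3 * i' + j' := by
    omega
  push_cast at g1 g2 g3 g4 g5 g6 g7 g8
  rcases key with ⟨rfl, rfl⟩ | hk | hk | hk | hk
  · have e1 : |u - u'| ≤ 3 := by
      rw [abs_le]
      constructor <;> linarith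
    have e2 : |w - w'| ≤ 1 := by
      rw [abs_le]
      constructor <;> linarith
    have e3 := sq_le_sq' (by linarith [(abs_le.1 e1).1]) (abs_le.1 e1).2
    have e4 := sq_le_sq' (by linarith [(abs_le.1 e2).1]) (abs_le.1 e2).2
    nlinarith
  · have hk' : (j' : ℝ) + 3 ≤ j := by exact_mod_cast hk
    nlinarith [sq_nonneg (u - u')]
  · have hk' : (j : ℝ) + 3 ≤ j' := by exact_mod_cast hk
    nlinarith [sq_nonneg (u - u')]
  · have hk' : 3 * (i' : ℝ) + j' + 7 ≤ 3 * i + j := by exact_mod_cast hk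
    nlinarith [sq_nonneg (w - w')]
  · have hk' : 3 * (i : ℝ) + j + 7 ≤ 3 * i' + j' := by exact_mod_cast hk
    nlinarith [sq_nonneg (w - w')]

end Brick

/-- distance in the ambient space -/
theorem dist_sq_eq {k : ℕ} (p q : EuclideanSpace ℝ (Fin 2 ⊕ Fin k)) : dist p q ^ 2 =
    (p (Sum.inl 0) - q (Sum.inl 0)) ^ 2 + (p (Sum.inl 1) - q (Sum.inl 1)) ^ 2 +
      ∑ i : Fin k, (p (Sum.inr i) - q (Sum.inr i)) ^ 2 := by
  rw [EuclideanSpace.dist_eq, Real.sq_sqrt (by positivity), Fintype.sum_sum_type, Fin.sum_univ_two]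
  simp only [Real.dist_eq, sq_abs]

theorem thick_colorable (k : ℕ) : ∃ ε₀ > (0 : ℝ), ∀ ε, 0 < ε → ε < ε₀ → Colorable (thickPlane k ε) 7 := by
  refine ⟨1 / (5 * (k + 1)), by positivity, fun ε hε hε' => ?_⟩
  refine ⟨fun p => Brick.col (p.1 (Sum.inl 0)) (p.1 (Sum.inl 1)), fun p q hpq => ?_⟩
  have h1 : dist p.1 q.1 ^ 2 = 1 := by
    have : dist p.1 q.1 = 1 := hpq
    rw [this]; norm_num
  rw [dist_sq_eq] at h1
  have h2 : 0 ≤ ∑ i : Fin k, (p.1 (Sum.inr i) - q.1 (Sum.inr i)) ^ 2 := by positivity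
  have h3 : ∑ i : Fin k, (p.1 (Sum.inr i) - q.1 (Sum.inr i)) ^ 2 ≤ 1 / 25 := by
    calc ∑ i : Fin k, (p.1 (Sum.inr i) - q.1 (Sum.inr i)) ^ 2 ≤ ∑ _i : Fin k, ε ^ 2 := by
          refine Finset.sum_le_sum fun i _ => ?_
          have hp := p.2 i
          have hq := q.2 i
          rw [Set.mem_Icc] at hp hq
          exact sq_le_sq' (by linarith) (by linarith)
      _ = k * ε ^ 2 := by simp
      _ ≤ (k + 1) * (1 / (5 * (k + 1))) ^ 2 := by gcongr; linarith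
      _ = 1 / (25 * (k + 1)) := by field_simp; norm_num
      _ ≤ 1 / 25 := by
          apply one_div_le_one_div_of_le (by norm_num)
          have : (0 : ℝ) ≤ k := Nat.cast_nonneg k
          linarith
  exact Brick.col_ne _ _ _ _ (by linarith) (by linarith)

end Pool.Agent.H923_Thick
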