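import Pool.Agent.H923_Thick.B3
import Pool.Agent.H923_Thick.C
import Pool.Agent.H923_Thick.D1

/-!
# Lower bound: transport to the Euclidean space
-/

namespace Pool.Agent.H923_Thick

/-- a point of the thick plane from its coordinates -/
noncomputable def mkPt {ι : Type*} {k : ℕ} (e : ι ≃ Fin k) (x : ℂ) (s : ι → ℝ) :
    EuclideanSpace ℝ (Fin 2 ⊕ Fin k) :=
  WithLp.toLp 2 (Sum.elim ![x.re, x.im] fun i => s (e.symm i))

theorem mkPt_mem {ι : Type*} {k : ℕ} (e : ι ≃ Fin k) (x : ℂ) (s : ι → ℝ) {ε : ℝ}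
    (hs : ∀ j, s j ∈ Set.Icc 0 ε) : mkPt e x s ∈ thickPlane k ε := by
  intro i
  simpa [mkPt] using hs (e.symm i)

theorem dist_mkPt {ι : Type*} [Fintype ι] {k : ℕ} (e : ι ≃ Fin k) (x y : ℂ) (s t : ι → ℝ) :
    dist (mkPt e x s) (mkPt e y t) ^ 2 = ‖x - y‖ ^ 2 + ∑ j, (s j - t j) ^ 2 := by
  rw [dist_sq_eq, ← Complex.normSq_eq_norm_sq, Complex.normSq_apply]
  have : ∑ j, (s j - t j) ^ 2 = ∑ i : Fin k, (s (e.symm i) - t (e.symm i)) ^ 2 :=
    (Equiv.sum_comp e.symm fun j => (s j - t j) ^ 2).symm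
  rw [this]
  simp [mkPt]
  ring

theorem not_colorable_aux (hclosed : ∀ A : Fin 6 → Set ℂ, (∀ a, IsClosed (A a)) →
      (∀ a, ∀ x ∈ A a, ∀ y ∈ A a, dist x y ≠ 1) → (∀ z, ∃ a, z ∈ A a) → False) {K : ℕ} (hK : 1 ≤ K) (hDP : DP K)
    {ε : ℝ} (hε : 0 < ε) (mm : ℕ) (hm : mm ≤ 6) : ¬ Colorable (thickPlane (Fintype.card (J K)) ε) mm := by
  classical
  rintro ⟨φ, hφ⟩
  set e := Fintype.equivFin (J K) with he
  obtain ⟨D₁, D₂, h0, h12, hred⟩ := reduction hK hDP hε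
    (fun x s => if h : mkPt e x s ∈ thickPlane (Fintype.card (J K)) ε then Fin.castLE hm (φ ⟨mkPt e x s, h⟩) else 0)
    (by
      intro x y s t hs ht hd
      have hsm := mkPt_mem e x s hs
      have htm := mkPt_mem e y t ht
      simp only [hsm, htm, dif_pos]
      intro hc
      refine hφ ⟨mkPt e x s, hsm⟩ ⟨mkPt e y t, htm⟩ ?_ (Fin.castLE_injective hm hc)
      have h1 : dist (mkPt e x s) (mkPt e y t) ^ 2 = 1 := by rw [dist_mkPt, hd]
      have h2 : dist (mkPt e x s) (mkPt e y t) = 1 := by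
        have h3 := dist_nonneg (x := mkPt e x s) (y := mkPt e y t)
        nlinarith
      exact h2)
  obtain ⟨L₀, hL₀⟩ := grid hclosed D₁ D₂ h0 h12
  obtain ⟨L, hL, S, hS⟩ := hred L₀
  exact hL₀ L hL ⟨S, hS⟩

end Pool.Agent.H923_Thick
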