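import Mathlib

/-!
# The thickened plane: definitions for the proof
-/

open Finset

namespace Pool.Agent.H923_Thick

/-- `exp (2 π i t)` -/
noncomputable def e1 (t : ℝ) : ℂ := Complex.exp (2 * Real.pi * t * Complex.I)

/-- The symmetric box `{-Q, ..., Q}` with `2 Q + 1` elements. -/
noncomputable def Bx (Q : ℕ) : Finset ℤ := Finset.Icc (-(Q : ℤ)) Q

/-- The symmetric box in dimension `K`. -/
noncomputable def BxK (Q K : ℕ) : Finset (Fin K → ℤ) := Fintype.piFinset fun _ => Bx Q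

/-- The normalised Dirichlet kernel. -/
noncomputable def D (Q : ℕ) (t : ℝ) : ℝ := (∑ y ∈ Bx Q, Real.cos (2 * Real.pi * t * y)) / (2 * Q + 1)

/-- Second moment of `D (θ (x - x'))`. -/
noncomputable def R (Q : ℕ) (θ : ℝ) : ℝ :=
  (∑ x ∈ Bx Q, ∑ x' ∈ Bx Q, D Q (θ * ((x : ℝ) - x')) ^ 2) / (2 * Q + 1) ^ 2

/-- First moment of `D (θ (x - x'))`. -/
noncomputable def m (Q : ℕ) (θ : ℝ) : ℝ :=
  (∑ x ∈ Bx Q, ∑ x' ∈ Bx Q, D Q (θ * ((x : ℝ) - x'))) / (2 * Q + 1) ^ 2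

/-- Mean of `D (θ x)`. -/
noncomputable def s (Q : ℕ) (θ : ℝ) : ℝ := (∑ x ∈ Bx Q, D Q (θ * x)) / (2 * Q + 1)

/-- Inner product of integer vectors. -/
def dot {K : ℕ} (a b : Fin K → ℤ) : ℤ := ∑ i, a i * b i

/-- The bilinear exponential sum. -/
noncomputable def T (Q K : ℕ) (f g : (Fin K → ℤ) → ℝ) (θ : ℝ) : ℂ :=
  ∑ a ∈ BxK Q K, ∑ b ∈ BxK Q K, (f a : ℂ) * (g b : ℂ) * e1 (θ * (dot a b : ℤ))

/-- Dense sets of integer vectors realise all inner products of moderate size. -/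
def DP (K : ℕ) : Prop := ∃ Q₀ : ℕ, ∀ Q ≥ Q₀, ∀ A B : Finset (Fin K → ℤ), A ⊆ BxK Q K → B ⊆ BxK Q K →
  (2 * Q + 1) ^ K ≤ 6 * A.card → (2 * Q + 1) ^ K ≤ 6 * B.card →
  ∀ h : ℤ, 6 * |h| ≤ (2 * Q + 1) ^ 2 → ∃ a ∈ A, ∃ b ∈ B, dot a b = h

/-- Index set of the fibre coordinates: blocks for pairs of indices and private coordinates. -/
abbrev J (K : ℕ) : Type := (Fin 7 × Fin 7 × Fin K) ⊕ Fin 7

end Pool.Agent.H923_Thick
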