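import Mathlib

/-!
# The thickened plane: definitions of the final statement
-/

namespace Pool.Agent.H923_Thick

/-- The set `ℝ² × [0, ε]^k` in the Euclidean space of dimension `2 + k`. -/
def thickPlane (k : ℕ) (ε : ℝ) : Set (EuclideanSpace ℝ (Fin 2 ⊕ Fin k)) :=
  {p | ∀ i : Fin k, p (Sum.inr i) ∈ Set.Icc 0 ε}

/-- `X` has a coloring with `m` colors in which points at distance one have different colors. -/
def Colorable {E : Type*} [PseudoMetricSpace E] (X : Set E) (m : ℕ) : Prop :=
  ∃ φ : X → Fin m, ∀ x y : X, dist x y = 1 → φ x ≠ φ y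

/-- The chromatic number of `X` for the forbidden distance one. -/
noncomputable def chi {E : Type*} [PseudoMetricSpace E] (X : Set E) : ℕ := sInf {m : ℕ | 0 < m ∧ Colorable X m}

end Pool.Agent.H923_Thick
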