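import Pool.Agent.H923_Thick.A6
import Pool.Agent.H923_Thick.D2
import Pool.Agent.H923_Poly.V2
import Pool.Agent.H923_Poly.K14

/-!
# The thickened plane has chromatic number seven
-/

namespace Pool.Agent.H923_Thick

open Pool.Agent.H923_Poly in
theorem closed_cover (A : Fin 6 → Set ℂ) (hcl : ∀ a, IsClosed (A a))
    (hu : ∀ a, ∀ x ∈ A a, ∀ y ∈ A a, dist x y ≠ 1) (hcov : ∀ z, ∃ a, z ∈ A a) : False :=
  no_closed_six TileSystem.contradiction A hcl hu hcov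

theorem exists_chi_eq_seven : ∃ k : ℕ, 1 ≤ k ∧ ∃ ε₀ : ℝ, 0 < ε₀ ∧ ∀ ε : ℝ, 0 < ε → ε < ε₀ → chi (thickPlane k ε) = 7 := by
  obtain ⟨K, hK, hDP⟩ := exists_DP
  refine ⟨Fintype.card (J K), ?_, ?_⟩
  · have : 0 < Fintype.card (J K) := Fintype.card_pos_iff.2 ⟨Sum.inr 0⟩
    omega
  · obtain ⟨ε₀, hε₀, hup⟩ := thick_colorable (Fintype.card (J K))
    refine ⟨ε₀, hε₀, fun ε hε hε' => ?_⟩
    refine le_antisymm (Nat.sInf_le ⟨by norm_num, hup ε hε hε'⟩) ?_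
    refine le_csInf ⟨7, by norm_num, hup ε hε hε'⟩ ?_
    rintro m ⟨_, hm⟩
    by_contra hlt
    exact not_colorable_aux closed_cover hK hDP hε m (by omega) hm

end Pool.Agent.H923_Thick
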